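import Mathlib
import Pool.Agent.H800R2.Front

/-!
# A smooth domain in which every point leaves a region dark: definitions and legs

`e` is a unit vector of `ℝⁿ`, `y = ⟪e, q⟫` and `s = ‖q‖² - y²` is the squared distance from the
axis. The domain is symmetric under `y ↦ -y`. For `y ≥ 5/2` its outer boundary is the oblate
ellipsoid `s / 16 + (y - 5/2)² / 15 = 1` with the focal sphere `y = 5/2, s = 1`. Two biconcave
bodies are removed, `(s - 1)² + 2 (y - 5/2)² + 4 (y - 5/2) ≤ 0`, which lies in `y ≤ 5/2` and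
touches the hyperplane `y = 5/2` exactly in the focal sphere, and its mirror image. Its upper dent
is the dark region.
-/

set_option autoImplicit false

open Set Filter Topology

namespace Pool.Agent.Run7.h558.Dark

open scoped RealInnerProductSpace ContDiff
open Pool.Agent.H800R2

variable {n : ℕ}

/-- the squared distance from the axis -/
noncomputable def ss (e q : Euc n) : ℝ := ‖q‖ ^ 2 - ⟪e, q⟫ ^ 2

/-- the profile of the outer boundary -/
noncomputable def gg (y : ℝ) : ℝ :=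
  (y - 5 / 2) ^ 2 * Real.smoothTransition (2 / 5 * y) +
    (y + 5 / 2) ^ 2 * Real.smoothTransition (2 / 5 * (-y))

/-- negative inside the outer boundary -/
noncomputable def GG (e q : Euc n) : ℝ := 15 * (‖q‖ ^ 2 - ⟪e, q⟫ ^ 2) + 16 * gg ⟪e, q⟫ - 240

/-- negative outside the biconcave body below the hyperplane `y = 5/2` -/
noncomputable def FK (e q : Euc n) : ℝ :=
  -((‖q‖ ^ 2 - ⟪e, q⟫ ^ 2 - 1) ^ 2 + 2 * (⟪e, q⟫ - 5 / 2) ^ 2 + 4 * (⟪e, q⟫ - 5 / 2))

/-- the domain -/
def Om (e : Euc n) : Set (Euc n) := {q | GG e q < 0 ∧ FK e q < 0 ∧ FK (-e) q < 0}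

/-- the dent of the upper body, below the focal disc -/
def AA (e : Euc n) : Set (Euc n) :=
  {q | q ∈ Om e ∧ ⟪e, q⟫ < 5 / 2 ∧ 3 / 2 < ⟪e, q⟫ ∧ ss e q < 1}

/-- the rest of the part `y < 5/2` of the domain -/
def BB (e : Euc n) : Set (Euc n) :=
  {q | q ∈ Om e ∧ ⟪e, q⟫ < 5 / 2 ∧ (1 < ss e q ∨ ⟪e, q⟫ < 3 / 2)}

theorem ss_nonneg {e : Euc n} (he : ‖e‖ = 1) (q : Euc n) : 0 ≤ ss e q := by
  unfold ss
  have h := abs_real_inner_le_norm e q
  rw [he, one_mul] at h
  have h2 : ⟪e, q⟫ ^ 2 ≤ ‖q‖ ^ 2 := by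
    rw [← sq_abs ⟪e, q⟫]
    exact pow_le_pow_left₀ (abs_nonneg _) h 2
  linarith

theorem ss_neg (e q : Euc n) : ss (-e) q = ss e q := by
  unfold ss; rw [inner_neg_left, neg_sq]

theorem gg_neg (y : ℝ) : gg (-y) = gg y := by
  unfold gg; rw [neg_neg]; ring

theorem GG_neg (e q : Euc n) : GG (-e) q = GG e q := by
  unfold GG; rw [inner_neg_left, neg_sq, gg_neg]

theorem Om_neg (e : Euc n) : Om (-e) = Om e := by
  ext q
  unfold Om
  simp only [mem_ofPred_eq, GG_neg, neg_neg]
  tauto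

theorem contDiff_gg : ContDiff ℝ ∞ gg := by
  unfold gg
  have h1 : ContDiff ℝ ∞ (fun y : ℝ => Real.smoothTransition (2 / 5 * y)) :=
    Real.smoothTransition.contDiff.comp (contDiff_const.mul contDiff_id)
  have h2 : ContDiff ℝ ∞ (fun y : ℝ => Real.smoothTransition (2 / 5 * (-y))) :=
    Real.smoothTransition.contDiff.comp (contDiff_const.mul contDiff_id.neg)
  exact (((contDiff_id.sub contDiff_const).pow 2).mul h1).add
    (((contDiff_id.add contDiff_const).pow 2).mul h2)

theorem gg_of_ge {y : ℝ} (h : 5 / 2 ≤ y) : gg y = (y - 5 / 2) ^ 2 := by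
  unfold gg
  rw [Real.smoothTransition.one_of_one_le (by linarith),
    Real.smoothTransition.zero_of_nonpos (by linarith)]
  ring

theorem gg_le {y : ℝ} (h0 : 0 ≤ y) (h : y ≤ 5 / 2) : gg y ≤ 25 / 4 := by
  unfold gg
  rw [Real.smoothTransition.zero_of_nonpos (x := 2 / 5 * -y) (by linarith)]
  have h1 := Real.smoothTransition.le_one (2 / 5 * y)
  have h2 : (y - 5 / 2) ^ 2 ≤ 25 / 4 := by nlinarith
  have h3 := sq_nonneg (y - 5 / 2)
  nlinarith [mul_le_mul_of_nonneg_left h1 h3]

theorem gg_zero : gg 0 = 0 := by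
  unfold gg
  rw [Real.smoothTransition.zero_of_nonpos (by norm_num),
    Real.smoothTransition.zero_of_nonpos (by norm_num)]
  ring

theorem continuous_yy (e : Euc n) : Continuous (fun q : Euc n => ⟪e, q⟫) := by fun_prop
theorem continuous_GG (e : Euc n) : Continuous (GG e) := by
  unfold GG
  have h1 : Continuous (fun q : Euc n => gg ⟪e, q⟫) :=
    contDiff_gg.continuous.comp (continuous_yy e)
  fun_prop
theorem continuous_FK (e : Euc n) : Continuous (FK e) := by unfold FK; fun_prop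
theorem continuous_ss (e : Euc n) : Continuous (ss e) := by unfold ss; fun_prop

theorem isOpen_Om (e : Euc n) : IsOpen (Om e) :=
  (isOpen_lt (continuous_GG e) continuous_const).inter
    ((isOpen_lt (continuous_FK e) continuous_const).inter
      (isOpen_lt (continuous_FK (-e)) continuous_const))

theorem isOpen_AA (e : Euc n) : IsOpen (AA e) :=
  (isOpen_Om e).inter ((isOpen_lt (continuous_yy e) continuous_const).inter
    ((isOpen_lt continuous_const (continuous_yy e)).inter (isOpen_lt (continuous_ss e) continuous_const)))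

theorem isOpen_BB (e : Euc n) : IsOpen (BB e) :=
  (isOpen_Om e).inter ((isOpen_lt (continuous_yy e) continuous_const).inter
    ((isOpen_lt continuous_const (continuous_ss e)).union (isOpen_lt (continuous_yy e) continuous_const)))

theorem FK_eq (e q : Euc n) :
    FK e q = -((ss e q - 1) ^ 2 + 2 * (⟪e, q⟫ - 5 / 2) ^ 2 + 4 * (⟪e, q⟫ - 5 / 2)) := rfl

theorem GG_eq (e q : Euc n) : GG e q = 15 * ss e q + 16 * gg ⟪e, q⟫ - 240 := rfl

/-- coordinates of the points of the body -/
theorem body {e : Euc n} {q : Euc n} (h : 0 ≤ FK e q) :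
    ss e q < 5 / 2 ∧ 1 / 2 ≤ ⟪e, q⟫ ∧ ⟪e, q⟫ ≤ 5 / 2 := by
  rw [FK_eq] at h
  set s := ss e q
  set y := ⟪e, q⟫
  have h1 : (s - 1) ^ 2 ≤ 2 := by nlinarith [sq_nonneg (y - 5 / 2 + 1)]
  have h2 : s - 1 < 3 / 2 := by nlinarith [sq_nonneg (s - 1 + 3 / 2)]
  have h3 : (y - 3 / 2) ^ 2 ≤ 1 := by nlinarith [sq_nonneg (s - 1)]
  exact ⟨by linarith, by nlinarith, by nlinarith⟩

theorem FK_neg_of_ss {e q : Euc n} (h : 5 / 2 ≤ ss e q) : FK e q < 0 := by
  by_contra hcon
  push Not at hcon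
  linarith [(body hcon).1]

theorem FK_neg_of_lt {e q : Euc n} (h : ⟪e, q⟫ < 1 / 2) : FK e q < 0 := by
  by_contra hcon
  push Not at hcon
  linarith [(body hcon).2.1]

theorem FK_neg_of_gt {e q : Euc n} (h : 5 / 2 < ⟪e, q⟫) : FK e q < 0 := by
  by_contra hcon
  push Not at hcon
  linarith [(body hcon).2.2]

/-- the body lies inside the outer boundary, and apart from its mirror image -/
theorem of_body {e : Euc n} {q : Euc n} (h : 0 ≤ FK e q) : GG e q < 0 ∧ FK (-e) q < 0 := by
  obtain ⟨h1, h2, h3⟩ := body h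
  refine ⟨?_, FK_neg_of_lt ?_⟩
  · rw [GG_eq]
    have := gg_le (y := ⟪e, q⟫) (by linarith) h3
    linarith
  · rw [inner_neg_left]; linarith

theorem disj (e : Euc n) : Disjoint (BB e) (AA e) := by
  rw [Set.disjoint_left]
  rintro q ⟨_, _, h3 | h3⟩ ⟨_, _, h1, h2⟩ <;> linarith

theorem cover {e : Euc n} (he : ‖e‖ = 1) {q : Euc n} (hq : q ∈ Om e) (hy : ⟪e, q⟫ < 5 / 2) :
    q ∈ BB e ∪ AA e := by
  have h := hq.2.1
  rw [FK_eq] at h
  have hs := ss_nonneg he q
  rcases lt_or_ge 1 (ss e q) with h1 | h1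
  · exact Or.inl ⟨hq, hy, Or.inl h1⟩
  rcases lt_or_ge ⟪e, q⟫ (3 / 2) with h2 | h2
  · exact Or.inl ⟨hq, hy, Or.inr h2⟩
  refine Or.inr ⟨hq, hy, ?_, ?_⟩
  · refine lt_of_le_of_ne h2 fun h3 => ?_
    rw [← h3] at h
    nlinarith
  · refine lt_of_le_of_ne h1 fun h3 => ?_
    rw [h3] at h
    nlinarith

/-- in the closed lower part, but not in the dent -/
def Low (e p : Euc n) : Prop := ⟪e, p⟫ ≤ 5 / 2 ∧ (1 < ss e p ∨ ⟪e, p⟫ < 3 / 2)

/-- the integral of the motion in an ellipsoid with centre `0` -/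
noncomputable def JJ (e p v : Euc n) : ℝ :=
  ⟪e, v⟫ ^ 2 * ‖p‖ ^ 2 - 2 * ⟪e, v⟫ * ⟪e, p⟫ * ⟪p, v⟫ + ⟪e, p⟫ ^ 2 * ‖v‖ ^ 2 - ⟪e, v⟫ ^ 2

/-- the integral of the motion in the upper ellipsoid, with centre `(5/2) e` -/
noncomputable def JS (e p v : Euc n) : ℝ := JJ e (p - (5 / 2 : ℝ) • e) v

/-- in the upper part, on a line which crosses the hyperplane `y = 5/2` outside the focal disc -/
def Up (e p v : Euc n) : Prop := 5 / 2 < ⟪e, p⟫ ∧ 0 < JS e p v

def Good (e p v : Euc n) : Prop := Low e p ∨ Up e p v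

theorem not_AA_of_good {e p v : Euc n} (h : Good e p v) : p ∉ AA e := by
  rintro ⟨_, h1, h2, h3⟩
  rcases h with h | h
  · rcases h.2 with h4 | h4 <;> linarith
  · linarith [h.1]

theorem yy_line (e p v : Euc n) (t : ℝ) : ⟪e, p + t • v⟫ = ⟪e, p⟫ + t * ⟪e, v⟫ := by
  rw [inner_add_right, real_inner_smul_right]

theorem norm_line (p v : Euc n) (t : ℝ) :
    ‖p + t • v‖ ^ 2 = ‖p‖ ^ 2 + 2 * t * ⟪p, v⟫ + t ^ 2 * ‖v‖ ^ 2 := by
  rw [norm_add_sq_real, real_inner_smul_right, norm_smul, mul_pow, Real.norm_eq_abs, sq_abs]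
  ring

theorem JJ_line (e p v : Euc n) (t : ℝ) : JJ e (p + t • v) v = JJ e p v := by
  unfold JJ
  rw [norm_line, yy_line, inner_add_left, real_inner_smul_left, real_inner_self_eq_norm_sq]
  ring

theorem JS_line (e p v : Euc n) (t : ℝ) : JS e (p + t • v) v = JS e p v := by
  unfold JS
  rw [show p + t • v - (5 / 2 : ℝ) • e = (p - (5 / 2 : ℝ) • e) + t • v by abel, JJ_line]

theorem yy_vert {e : Euc n} (he : ‖e‖ = 1) (p : Euc n) (c : ℝ) : ⟪e, p + c • e⟫ = ⟪e, p⟫ + c := by
  rw [yy_line, real_inner_self_eq_norm_sq, he]; ring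

theorem ss_vert {e : Euc n} (he : ‖e‖ = 1) (p : Euc n) (c : ℝ) : ss e (p + c • e) = ss e p := by
  unfold ss
  rw [yy_vert he, norm_line, he, real_inner_comm]
  ring

theorem JJ_zero {e p v : Euc n} (h : ⟪e, p⟫ = 0) : JJ e p v = ⟪e, v⟫ ^ 2 * (ss e p - 1) := by
  unfold JJ ss
  rw [h]
  ring

theorem JS_zero {e p v : Euc n} (he : ‖e‖ = 1) (h : ⟪e, p⟫ = 5 / 2) :
    JS e p v = ⟪e, v⟫ ^ 2 * (ss e p - 1) := by
  unfold JS
  rw [sub_eq_add_neg, ← neg_smul, JJ_zero, ss_vert he]
  rw [yy_vert he, h]; norm_num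

theorem cont_line (p v : Euc n) : Continuous (fun t : ℝ => p + t • v) := by fun_prop

theorem leg_low {e p v : Euc n} (he : ‖e‖ = 1) {τ : ℝ} (hτ : 0 < τ) (hp : Low e p)
    (h : ∀ t ∈ Ioo 0 τ, p + t • v ∈ Om e ∧ ⟪e, p + t • v⟫ < 5 / 2) :
    ∀ t ∈ Ioo 0 τ, p + t • v ∈ BB e := by
  have hc := cont_line p v
  have h1 : ∀ᶠ t : ℝ in 𝓝 0, 1 < ss e (p + t • v) ∨ ⟪e, p + t • v⟫ < 3 / 2 := by
    rcases hp.2 with h2 | h2
    · have := (((continuous_ss e).comp hc).tendsto 0).eventually (lt_mem_nhds (by simpa using h2))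
      exact this.mono fun t ht => Or.inl ht
    · have := (((continuous_yy e).comp hc).tendsto 0).eventually (gt_mem_nhds (by simpa using h2))
      exact this.mono fun t ht => Or.inr ht
  have h3 : ∀ᶠ t : ℝ in 𝓝[>] 0, t ∈ Ioo 0 τ := Ioo_mem_nhdsGT hτ
  obtain ⟨t0, h4, h6⟩ := ((h1.filter_mono nhdsWithin_le_nhds).and h3).exists
  have hpre : IsPreconnected ((fun t : ℝ => p + t • v) '' Ioo 0 τ) :=
    isPreconnected_Ioo.image _ hc.continuousOn
  have hsub : (fun t : ℝ => p + t • v) '' Ioo 0 τ ⊆ BB e ∪ AA e := by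
    rintro _ ⟨t, ht, rfl⟩
    exact cover he (h t ht).1 (h t ht).2
  have hne : ((fun t : ℝ => p + t • v) '' Ioo 0 τ ∩ BB e).Nonempty :=
    ⟨p + t0 • v, ⟨t0, h6, rfl⟩, (h t0 h6).1, (h t0 h6).2, h4⟩
  have := hpre.subset_left_of_subset_union (isOpen_BB e) (isOpen_AA e) (disj e) hsub hne
  intro t ht
  exact this ⟨t, ht, rfl⟩

theorem low_end {e p v : Euc n} (he : ‖e‖ = 1) {τ : ℝ} (hτ : 0 < τ) (hp : Low e p)
    (h : ∀ t ∈ Ioo 0 τ, p + t • v ∈ Om e ∧ ⟪e, p + t • v⟫ < 5 / 2) :
    Low e (p + τ • v) ∨ (⟪e, p + τ • v⟫ = 5 / 2 ∧ ss e (p + τ • v) = 1) := by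
  have hA := leg_low he hτ hp h
  have hc := cont_line p v
  have hmem : p + τ • v ∈ closure (BB e) := by
    have h1 : τ ∈ closure (Ioo 0 τ) := by
      rw [closure_Ioo hτ.ne]
      exact ⟨hτ.le, le_refl _⟩
    have h2 := map_mem_closure hc h1 (t := BB e) (fun t ht => hA t ht)
    exact h2
  have hcl : closure (BB e) ⊆ {q | FK e q ≤ 0 ∧ ⟪e, q⟫ ≤ 5 / 2 ∧ (1 ≤ ss e q ∨ ⟪e, q⟫ ≤ 3 / 2)} := by
    refine closure_minimal ?_ ?_
    · rintro q ⟨h1, h2, h3⟩
      exact ⟨h1.2.1.le, h2.le, h3.imp le_of_lt le_of_lt⟩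
    · exact (isClosed_le (continuous_FK e) continuous_const).inter
        ((isClosed_le (continuous_yy e) continuous_const).inter
        ((isClosed_le continuous_const (continuous_ss e)).union
          (isClosed_le (continuous_yy e) continuous_const)))
  obtain ⟨h1, h2, h3⟩ := hcl hmem
  have hs := ss_nonneg he (p + τ • v)
  rw [FK_eq] at h1
  set s := ss e (p + τ • v) with hsdef
  set y := ⟪e, p + τ • v⟫ with hydef
  rcases lt_or_ge 1 s with h4 | h4
  · exact Or.inl ⟨h2, Or.inl h4⟩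
  rcases lt_or_ge y (3 / 2) with h5 | h5
  · exact Or.inl ⟨h2, Or.inr h5⟩
  right
  have h6 : s = 1 := by
    rcases h3 with h3 | h3
    · exact le_antisymm h4 h3
    · exfalso
      have : y = 3 / 2 := le_antisymm h3 h5
      rw [this] at h1
      nlinarith
  refine ⟨?_, h6⟩
  rw [h6] at h1
  rcases h2.lt_or_eq with h7 | h7
  · nlinarith
  · exact h7

theorem low_of_plane {e p : Euc n} (h : ⟪e, p⟫ = 5 / 2) (hs : 1 < ss e p) : Low e p :=
  ⟨h.le, Or.inl hs⟩

theorem main_leg {e p v : Euc n} (he : ‖e‖ = 1) {τ : ℝ} (hτ : 0 < τ) (hp : Good e p v)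
    (h : ∀ t ∈ Ioo 0 τ, p + t • v ∈ Om e) :
    Good e (p + τ • v) v ∨
      (⟪e, p + τ • v⟫ = 5 / 2 ∧ ss e (p + τ • v) = 1 ∧ 0 ≤ ⟪e, v⟫) := by
  have hy1 := yy_line e p v τ
  -- a point of the domain in the hyperplane `y = 5/2` is not in the focal sphere
  have hrim : ∀ q ∈ Om e, ⟪e, q⟫ = 5 / 2 → ss e q ≠ 1 := by
    intro q hq h1 h2
    have h8 := hq.2.1
    rw [FK_eq, h1, h2] at h8
    norm_num at h8
  rcases hp with hp | hp
  · rcases lt_or_ge (5 / 2) ⟪e, p + τ • v⟫ with hpos | hnpos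
    · -- crosses the hyperplane upwards
      have hw : 0 < ⟪e, v⟫ := by
        by_contra hcon
        push Not at hcon
        have := mul_nonpos_of_nonneg_of_nonpos hτ.le hcon
        linarith [hp.1]
      left; right
      refine ⟨hpos, ?_⟩
      rw [JS_line]
      have h11 : 0 < ⟪e, v⟫ ^ 2 := by positivity
      rcases hp.1.lt_or_eq with hy0 | hy0
      · set t1 := (5 / 2 - ⟪e, p⟫) / ⟪e, v⟫ with ht1
        have ht1pos : 0 < t1 := div_pos (by linarith) hw
        have ht1w : t1 * ⟪e, v⟫ = 5 / 2 - ⟪e, p⟫ := by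
          rw [ht1]; field_simp
        have ht1lt : t1 < τ := by
          rw [ht1, div_lt_iff₀ hw]
          linarith
        have hz : ⟪e, p + t1 • v⟫ = 5 / 2 := by
          rw [yy_line, ht1w]; ring
        have hl := low_end he ht1pos hp (v := v) (fun t ht =>
          ⟨h t ⟨ht.1, ht.2.trans ht1lt⟩, by
            rw [yy_line]
            have : t * ⟪e, v⟫ < t1 * ⟪e, v⟫ := mul_lt_mul_of_pos_right ht.2 hw
            linarith⟩)
        have hom := h t1 ⟨ht1pos, ht1lt⟩
        have hlow : 1 < ss e (p + t1 • v) := by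
          rcases hl with hl | hl
          · rcases hl.2 with h1 | h1
            · exact h1
            · linarith
          · exact absurd hl.2 (hrim _ hom hz)
        have h9 := JS_zero (v := v) he hz
        rw [JS_line] at h9
        rw [h9]
        exact mul_pos h11 (by linarith)
      · rw [JS_zero he hy0]
        rcases hp.2 with h1 | h1
        · exact mul_pos h11 (by linarith)
        · linarith
    · by_cases hcase : ⟪e, p⟫ = 5 / 2 ∧ ⟪e, v⟫ = 0
      · -- in the hyperplane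
        obtain ⟨h0, hw0⟩ := hcase
        have hyt : ∀ t : ℝ, ⟪e, p + t • v⟫ = 5 / 2 := by
          intro t
          rw [yy_line, h0, hw0]; ring
        have hs0 : 1 < ss e p := by
          rcases hp.2 with h1 | h1
          · exact h1
          · linarith
        have hcs : Continuous (fun t : ℝ => ss e (p + t • v)) :=
          (continuous_ss e).comp (cont_line p v)
        have hle : 1 ≤ ss e (p + τ • v) := by
          by_contra hcon
          push Not at hcon
          have hs0' : 1 < ss e (p + (0 : ℝ) • v) := by simpa using hs0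
          have hiv := intermediate_value_Ioo' hτ.le hcs.continuousOn
          obtain ⟨t, ht, ht1⟩ := hiv ⟨hcon, hs0'⟩
          exact hrim _ (h t ht) (hyt t) ht1
        rcases hle.lt_or_eq with h6 | h6
        · exact Or.inl (Or.inl (low_of_plane (hyt τ) h6))
        · right
          exact ⟨hyt τ, h6.symm, hw0.ge⟩
      · have hneg : ∀ t ∈ Ioo 0 τ, ⟪e, p + t • v⟫ < 5 / 2 := by
          intro t ht
          rw [yy_line]
          by_contra hcon
          push Not at hcon
          have h0 := hp.1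
          rw [hy1] at hnpos
          have ht0 := ht.1
          have ht1 := ht.2
          -- convexity
          have e1 : (τ - t) * (⟪e, p⟫ - 5 / 2) + t * (⟪e, p⟫ + τ * ⟪e, v⟫ - 5 / 2) =
            τ * (⟪e, p⟫ + t * ⟪e, v⟫ - 5 / 2) := by ring
          have e2 : (τ - t) * (⟪e, p⟫ - 5 / 2) ≤ 0 :=
            mul_nonpos_of_nonneg_of_nonpos (by linarith) (by linarith)
          have e3 : t * (⟪e, p⟫ + τ * ⟪e, v⟫ - 5 / 2) ≤ 0 :=
            mul_nonpos_of_nonneg_of_nonpos ht0.le (by linarith)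
          have e4 : 0 ≤ τ * (⟪e, p⟫ + t * ⟪e, v⟫ - 5 / 2) := mul_nonneg hτ.le (by linarith)
          have e5 : (τ - t) * (⟪e, p⟫ - 5 / 2) = 0 := by linarith
          have e6 : t * (⟪e, p⟫ + τ * ⟪e, v⟫ - 5 / 2) = 0 := by linarith
          have e7 : ⟪e, p⟫ = 5 / 2 := by
            rcases mul_eq_zero.1 e5 with e | e <;> linarith
          have e8 : τ * ⟪e, v⟫ = 0 := by
            rcases mul_eq_zero.1 e6 with e | e <;> linarith
          rcases mul_eq_zero.1 e8 with e | e
          · linarith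
          · exact hcase ⟨e7, e⟩
        rcases low_end he hτ hp (v := v) (fun t ht => ⟨h t ht, hneg t ht⟩) with hl | hl
        · exact Or.inl (Or.inl hl)
        · right
          refine ⟨hl.1, hl.2, ?_⟩
          rw [hy1] at hl
          by_contra hcon
          push Not at hcon
          have := mul_neg_of_pos_of_neg hτ hcon
          linarith [hp.1, hl.1]
  · -- start in the upper part
    left
    rcases lt_or_ge (5 / 2) ⟪e, p + τ • v⟫ with hpos | hnpos
    · exact Or.inr ⟨hpos, by rw [JS_line]; exact hp.2⟩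
    · left
      rw [hy1] at hnpos
      have hw : ⟪e, v⟫ < 0 := by
        by_contra hcon
        push Not at hcon
        have := mul_nonneg hτ.le hcon
        linarith [hp.1]
      set t1 := (5 / 2 - ⟪e, p⟫) / ⟪e, v⟫ with ht1
      have ht1pos : 0 < t1 := by
        rw [ht1]
        exact div_pos_of_neg_of_neg (by linarith [hp.1]) hw
      have ht1w : t1 * ⟪e, v⟫ = 5 / 2 - ⟪e, p⟫ := by
        rw [ht1]
        exact div_mul_cancel₀ _ hw.ne
      have ht1le : t1 ≤ τ := by
        by_contra hcon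
        push Not at hcon
        have := mul_lt_mul_of_neg_right hcon hw
        linarith
      have hz : ⟪e, p + t1 • v⟫ = 5 / 2 := by
        rw [yy_line, ht1w]; ring
      have h9 := JS_zero (v := v) he hz
      rw [JS_line] at h9
      have h10 := hp.2
      rw [h9] at h10
      have h12 : 1 < ss e (p + t1 • v) := by
        by_contra hcon
        push Not at hcon
        have := mul_nonpos_of_nonneg_of_nonpos (sq_nonneg ⟪e, v⟫) (sub_nonpos.2 hcon)
        linarith
      have hlow : Low e (p + t1 • v) := low_of_plane hz h12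
      rcases ht1le.lt_or_eq with h13 | h13
      · have hrw : ∀ t : ℝ, p + t1 • v + t • v = p + (t1 + t) • v := by
          intro t
          rw [add_smul, add_assoc]
        have hl := low_end he (sub_pos.2 h13) hlow (v := v) (fun t ht => by
          rw [hrw]
          refine ⟨h _ ⟨by linarith [ht.1], by linarith [ht.2]⟩, ?_⟩
          rw [yy_line, add_mul]
          have := mul_neg_of_pos_of_neg ht.1 hw
          linarith)
        rw [hrw, add_sub_cancel] at hl
        rcases hl with hl | hl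
        · exact hl
        · exfalso
          have h14 := hl.1
          rw [yy_line] at h14
          have := mul_lt_mul_of_neg_right h13 hw
          linarith
      · rw [← h13]
        exact hlow

end Pool.Agent.Run7.h558.Dark
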