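import Mathlib
import Pool.Agent.Run7.h558.DarkA

/-!
# A smooth domain in which every point leaves a region dark: the boundary, and the photons
-/

set_option autoImplicit false

open Set Filter Topology

namespace Pool.Agent.Run7.h558.Dark

open scoped RealInnerProductSpace ContDiff
open Pool.Agent.H800R2

variable {n : ℕ}

theorem inner_gradient (F : Euc n → ℝ) (x u : Euc n) : ⟪gradient F x, u⟫ = fderiv ℝ F x u := by
  unfold gradient
  rw [InnerProductSpace.toDual_symm_apply]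

/-! ### the body -/

theorem contDiff_FK (e : Euc n) : ContDiff ℝ ∞ (FK e) := by
  unfold FK
  have h1 : ContDiff ℝ ∞ (fun q : Euc n => ⟪e, q⟫) := contDiff_const.inner ℝ contDiff_id
  have h2 : ContDiff ℝ ∞ (fun q : Euc n => ‖q‖ ^ 2) := contDiff_norm_sq ℝ
  have h3 : ContDiff ℝ ∞ (fun q : Euc n => ⟪e, q⟫ - 5 / 2) := h1.sub contDiff_const
  exact (((((h2.sub (h1.pow 2)).sub contDiff_const).pow 2).add (contDiff_const.mul (h3.pow 2))).add
    (contDiff_const.mul h3)).neg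

theorem fderiv_FK (e x u : Euc n) : fderiv ℝ (FK e) x u =
    -(2 * (‖x‖ ^ 2 - ⟪e, x⟫ ^ 2 - 1) * (2 * ⟪x, u⟫ - 2 * ⟪e, x⟫ * ⟪e, u⟫) +
      4 * (⟪e, x⟫ - 5 / 2) * ⟪e, u⟫ + 4 * ⟪e, u⟫) := by
  have h1 : HasFDerivAt (fun q : Euc n => ⟪e, q⟫) (innerSL ℝ e) x := (innerSL ℝ e).hasFDerivAt
  have h2 := (hasStrictFDerivAt_norm_sq x).hasFDerivAt
  have h5 : HasFDerivAt (fun q : Euc n => ⟪e, q⟫ - 5 / 2) (innerSL ℝ e) x := h1.sub_const _
  have h3 := ((((h2.sub (h1.pow 2)).sub_const 1).pow 2).add ((h5.pow 2).const_mul 2)).add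
    (h5.const_mul 4)
  have h4 : HasFDerivAt (FK e) _ x := h3.neg
  rw [h4.fderiv]
  simp
  ring

theorem gradient_FK_rim {e x : Euc n} (hy : ⟪e, x⟫ = 5 / 2) (hs : ss e x = 1) :
    gradient (FK e) x = (-4 : ℝ) • e := by
  refine ext_inner_right ℝ fun u => ?_
  unfold ss at hs
  rw [inner_gradient, fderiv_FK, real_inner_smul_left, hs, hy]
  ring

theorem gradient_FK_ne {e x : Euc n} (he : ‖e‖ = 1) (h : FK e x = 0) : gradient (FK e) x ≠ 0 := by
  intro h0
  have h1 := inner_gradient (FK e) x x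
  have h2 := inner_gradient (FK e) x e
  rw [h0, inner_zero_left, fderiv_FK, real_inner_self_eq_norm_sq] at h1
  rw [h0, inner_zero_left, fderiv_FK, real_inner_self_eq_norm_sq, he, real_inner_comm e x] at h2
  have hs : ‖x‖ ^ 2 = ss e x + ⟪e, x⟫ ^ 2 := by unfold ss; ring
  rw [FK_eq] at h
  rw [hs] at h1 h2
  set s := ss e x
  set y := ⟪e, x⟫
  have hy : y = 3 / 2 := by linarith
  rw [hy] at h h1
  have h3 : (s - 1) * s = 0 := by linarith
  rcases mul_eq_zero.1 h3 with h4 | h4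
  · have : s = 1 := by linarith
    rw [this] at h
    norm_num at h
  · rw [h4] at h
    norm_num at h

theorem isDefFun_FK {e x : Euc n} (he : ‖e‖ = 1) (h : FK e x = 0) : IsDefFun (Om e) x (FK e) := by
  refine ⟨contDiff_FK e, gradient_FK_ne he h, ?_⟩
  obtain ⟨h1, h2⟩ := of_body h.ge
  filter_upwards [(continuous_GG e).continuousAt.eventually (gt_mem_nhds h1),
    (continuous_FK (-e)).continuousAt.eventually (gt_mem_nhds h2)] with y hy hy2
  exact ⟨fun h2 => h2.2.1, fun h2 => ⟨hy, h2, hy2⟩⟩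

theorem rim_normal {e x v ν : Euc n} (he : ‖e‖ = 1) (hx : x ∈ frontier (Om e))
    (hy : ⟪e, x⟫ = 5 / 2) (hs : ss e x = 1) (hν : IsOuterNormal (Om e) x ν) :
    ⟪v, ν⟫ = -⟪e, v⟫ := by
  have h : FK e x = 0 := by
    rw [FK_eq, hy, hs]; norm_num
  obtain ⟨F, hF, rfl⟩ := hν
  rw [hF.normal_unique (isDefFun_FK he h) (isOpen_Om e) hx, gradient_FK_rim hy hs, norm_smul, he,
    real_inner_smul_right, real_inner_smul_right, real_inner_comm]
  have h4 : ‖(-4 : ℝ)‖ = 4 := by norm_num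
  rw [h4]
  ring

/-! ### the upper ellipsoid -/

/-- the ellipsoid with centre `0` -/
noncomputable def F0 (e q : Euc n) : ℝ := 15 * ‖q‖ ^ 2 + ⟪e, q⟫ ^ 2 - 240

/-- the ellipsoid with centre `(5/2) e` -/
noncomputable def FE (e q : Euc n) : ℝ := F0 e (q - (5 / 2 : ℝ) • e)

theorem FE_eq {e : Euc n} (he : ‖e‖ = 1) (q : Euc n) :
    FE e q = 15 * ss e q + 16 * (⟪e, q⟫ - 5 / 2) ^ 2 - 240 := by
  unfold FE F0
  have h1 : ‖q - (5 / 2 : ℝ) • e‖ ^ 2 = ‖q‖ ^ 2 - 5 * ⟪e, q⟫ + 25 / 4 := by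
    rw [sub_eq_add_neg, ← neg_smul, norm_line, he, real_inner_comm]; ring
  have h2 : ⟪e, q - (5 / 2 : ℝ) • e⟫ = ⟪e, q⟫ - 5 / 2 := by
    rw [sub_eq_add_neg, ← neg_smul, yy_vert he]; ring
  rw [h1, h2]
  unfold ss
  ring

theorem GG_eq_FE {e : Euc n} (he : ‖e‖ = 1) {q : Euc n} (h : 5 / 2 ≤ ⟪e, q⟫) :
    GG e q = FE e q := by
  rw [FE_eq he, GG_eq, gg_of_ge h]

theorem contDiff_F0 (e : Euc n) : ContDiff ℝ ∞ (F0 e) := by
  unfold F0
  exact (((contDiff_const (c := (15 : ℝ))).mul (contDiff_norm_sq ℝ)).add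
    ((contDiff_const.inner ℝ contDiff_id).pow 2)).sub contDiff_const

theorem hasFDerivAt_F0 (e x : Euc n) : ∃ L : Euc n →L[ℝ] ℝ, HasFDerivAt (F0 e) L x ∧
    ∀ u, L u = 30 * ⟪x, u⟫ + 2 * ⟪e, x⟫ * ⟪e, u⟫ := by
  have h1 : HasFDerivAt (fun q : Euc n => ⟪e, q⟫) (innerSL ℝ e) x := (innerSL ℝ e).hasFDerivAt
  have h2 := (hasStrictFDerivAt_norm_sq x).hasFDerivAt
  have h3 := ((h2.const_mul 15).add (h1.pow 2)).sub_const 240
  have h4 : HasFDerivAt (F0 e) _ x := h3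
  refine ⟨_, h4, fun u => ?_⟩
  simp
  ring

theorem gradient_FE (e x : Euc n) : gradient (FE e) x =
    (30 : ℝ) • (x - (5 / 2 : ℝ) • e) + (2 * ⟪e, x - (5 / 2 : ℝ) • e⟫) • e := by
  refine ext_inner_right ℝ fun u => ?_
  obtain ⟨L, hL, hLu⟩ := hasFDerivAt_F0 e (x - (5 / 2 : ℝ) • e)
  have h1 : HasFDerivAt (fun q : Euc n => q - (5 / 2 : ℝ) • e) (ContinuousLinearMap.id ℝ (Euc n)) x :=
    (hasFDerivAt_id x).sub_const _
  have h2 : HasFDerivAt (FE e) (L.comp (ContinuousLinearMap.id ℝ (Euc n))) x := hL.comp x h1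
  rw [inner_gradient, h2.fderiv, ContinuousLinearMap.comp_id, hLu, inner_add_left,
    real_inner_smul_left, real_inner_smul_left]

theorem gradient_FE_ne {e x : Euc n} (h : FE e x = 0) : gradient (FE e) x ≠ 0 := by
  intro h0
  rw [gradient_FE] at h0
  unfold FE F0 at h
  set z := x - (5 / 2 : ℝ) • e
  have h1 : ⟪(30 : ℝ) • z + (2 * ⟪e, z⟫) • e, z⟫ = 0 := by rw [h0, inner_zero_left]
  rw [inner_add_left, real_inner_smul_left, real_inner_smul_left, real_inner_self_eq_norm_sq] at h1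
  nlinarith

theorem isDefFun_FE {e x : Euc n} (he : ‖e‖ = 1) (hy : 5 / 2 < ⟪e, x⟫) (h : GG e x = 0) :
    IsDefFun (Om e) x (FE e) := by
  have h0 : FE e x = 0 := by rw [← GG_eq_FE he hy.le]; exact h
  refine ⟨(contDiff_F0 e).comp (contDiff_id.sub contDiff_const), gradient_FE_ne h0, ?_⟩
  filter_upwards [(continuous_yy e).continuousAt.eventually (lt_mem_nhds hy)] with y hy
  constructor
  · intro h2
    rw [← GG_eq_FE he hy.le]
    exact h2.1
  · intro h2
    refine ⟨by rw [GG_eq_FE he hy.le]; exact h2, FK_neg_of_gt hy, FK_neg_of_lt ?_⟩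
    rw [inner_neg_left]; linarith

/-- reflection at the ellipsoid preserves the integral -/
theorem JS_reflect {e x v ν : Euc n} (he : ‖e‖ = 1) (hx : x ∈ frontier (Om e))
    (hy : 5 / 2 < ⟪e, x⟫) (h : GG e x = 0) (hν : IsOuterNormal (Om e) x ν) :
    JS e x (v - (2 * ⟪v, ν⟫) • ν) = JS e x v := by
  obtain ⟨F, hF, rfl⟩ := hν
  rw [hF.normal_unique (isDefFun_FE he hy h) (isOpen_Om e) hx]
  have hge := gradient_FE e x
  have h0 : FE e x = 0 := by rw [← GG_eq_FE he hy.le]; exact h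
  have hg0 : gradient (FE e) x ≠ 0 := gradient_FE_ne h0
  unfold FE F0 at h0
  unfold JS
  set g := gradient (FE e) x with hg
  set z := x - (5 / 2 : ℝ) • e with hz
  have hgn : 0 < ‖g‖ := norm_pos_iff.2 hg0
  have hv : v - (2 * ⟪v, ‖g‖⁻¹ • g⟫) • (‖g‖⁻¹ • g) = v - (2 * ⟪v, g⟫ / ‖g‖ ^ 2) • g := by
    rw [real_inner_smul_right, smul_smul]
    congr 2
    field_simp
  rw [hv]
  set κ := 2 * ⟪v, g⟫ / ‖g‖ ^ 2 with hκ
  have hκ' : κ * ‖g‖ ^ 2 = 2 * ⟪v, g⟫ := by
    rw [hκ]; field_simp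
  have hze : ⟪z, e⟫ = ⟪e, z⟫ := real_inner_comm _ _
  have hve : ⟪v, e⟫ = ⟪e, v⟫ := real_inner_comm _ _
  have hvz : ⟪v, z⟫ = ⟪z, v⟫ := real_inner_comm _ _
  have i1 : ⟪v, g⟫ = 30 * ⟪z, v⟫ + 2 * ⟪e, z⟫ * ⟪e, v⟫ := by
    rw [hge, inner_add_right, real_inner_smul_right, real_inner_smul_right, hve, hvz]
  have i2 : ‖g‖ ^ 2 = 900 * ‖z‖ ^ 2 + 124 * ⟪e, z⟫ ^ 2 := by
    rw [hge, norm_add_sq_real, norm_smul, norm_smul, real_inner_smul_left,
      real_inner_smul_right, he, hze, mul_pow, mul_pow, Real.norm_eq_abs, sq_abs,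
      Real.norm_eq_abs, sq_abs]
    ring
  have i3 : ⟪e, g⟫ = 32 * ⟪e, z⟫ := by
    rw [hge, inner_add_right, real_inner_smul_right, real_inner_smul_right,
      real_inner_self_eq_norm_sq, he]
    ring
  have i4 : ⟪z, g⟫ = 30 * ‖z‖ ^ 2 + 2 * ⟪e, z⟫ ^ 2 := by
    rw [hge, inner_add_right, real_inner_smul_right, real_inner_smul_right,
      real_inner_self_eq_norm_sq, hze]
    ring
  have i5 : ‖v - κ • g‖ ^ 2 = ‖v‖ ^ 2 := by
    rw [norm_sub_sq_real, real_inner_smul_right, norm_smul, mul_pow, Real.norm_eq_abs, sq_abs]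
    linear_combination κ * hκ'
  have i6 : ⟪e, v - κ • g⟫ = ⟪e, v⟫ - κ * ⟪e, g⟫ := by
    rw [inner_sub_right, real_inner_smul_right]
  have i7 : ⟪z, v - κ • g⟫ = ⟪z, v⟫ - κ * ⟪z, g⟫ := by
    rw [inner_sub_right, real_inner_smul_right]
  unfold JJ
  rw [i5, i6, i7, i3, i4]
  rw [i1, i2] at hκ'
  have hP : ‖z‖ ^ 2 = (240 - ⟪e, z⟫ ^ 2) / 15 := by linarith
  rw [hP] at hκ' ⊢
  linear_combination (-(16 * κ * ⟪e, z⟫ ^ 2 / 15)) * hκ'

/-! ### the outer boundary between the ellipsoids -/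

theorem contDiff_GG (e : Euc n) : ContDiff ℝ ∞ (GG e) := by
  unfold GG
  have h1 : ContDiff ℝ ∞ (fun q : Euc n => ⟪e, q⟫) := contDiff_const.inner ℝ contDiff_id
  have h2 : ContDiff ℝ ∞ (fun q : Euc n => ‖q‖ ^ 2) := contDiff_norm_sq ℝ
  exact ((contDiff_const.mul (h2.sub (h1.pow 2))).add
    (contDiff_const.mul (contDiff_gg.comp h1))).sub contDiff_const

theorem gradient_GG_ne {e x : Euc n} (he : ‖e‖ = 1) (hs : 0 < ss e x) : gradient (GG e) x ≠ 0 := by
  intro h0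
  -- the derivative in the direction `u = x - y e`
  have h1 := inner_gradient (GG e) x (x - ⟪e, x⟫ • e)
  rw [h0, inner_zero_left] at h1
  have h2 : HasFDerivAt (fun q : Euc n => ⟪e, q⟫) (innerSL ℝ e) x := (innerSL ℝ e).hasFDerivAt
  have h3 := (hasStrictFDerivAt_norm_sq x).hasFDerivAt
  have h4 : HasDerivAt gg (deriv gg ⟪e, x⟫) ⟪e, x⟫ :=
    (contDiff_gg.differentiable (by simp)).differentiableAt.hasDerivAt
  have h5 : HasFDerivAt (fun q : Euc n => gg ⟪e, q⟫) (deriv gg ⟪e, x⟫ • innerSL ℝ e) x :=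
    h4.comp_hasFDerivAt x h2
  have h6 := (((h3.sub (h2.pow 2)).const_mul 15).add (h5.const_mul 16)).sub_const 240
  have h7 : HasFDerivAt (GG e) _ x := h6
  have hu : ⟪e, x - ⟪e, x⟫ • e⟫ = 0 := by
    rw [inner_sub_right, real_inner_smul_right, real_inner_self_eq_norm_sq, he]; ring
  have hx : ⟪x, x - ⟪e, x⟫ • e⟫ = ss e x := by
    rw [inner_sub_right, real_inner_smul_right, real_inner_self_eq_norm_sq, real_inner_comm e x]
    unfold ss; ring
  rw [h7.fderiv] at h1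
  simp only [add_apply, smul_apply,
    sub_apply, innerSL_apply_apply, smul_eq_mul, hu, hx, nsmul_eq_mul] at h1
  norm_num at h1
  rw [real_inner_comm] at hx
  linarith

theorem isDefFun_GG {e x : Euc n} (he : ‖e‖ = 1) (hy0 : -(5 / 2) ≤ ⟪e, x⟫) (hy : ⟪e, x⟫ ≤ 5 / 2)
    (h : GG e x = 0) : IsDefFun (Om e) x (GG e) := by
  have hg : gg ⟪e, x⟫ ≤ 25 / 4 := by
    rcases le_or_gt 0 ⟪e, x⟫ with h1 | h1
    · exact gg_le h1 hy
    · rw [← gg_neg]
      exact gg_le (by linarith) (by linarith)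
  have hs : 0 < ss e x := by
    rw [GG_eq] at h
    linarith
  refine ⟨contDiff_GG e, gradient_GG_ne he hs, ?_⟩
  have h1 : FK e x < 0 := by
    by_contra hcon
    push Not at hcon
    linarith [(of_body hcon).1]
  have h2 : FK (-e) x < 0 := by
    by_contra hcon
    push Not at hcon
    have := (of_body hcon).1
    rw [GG_neg] at this
    linarith
  filter_upwards [(continuous_FK e).continuousAt.eventually (gt_mem_nhds h1),
    (continuous_FK (-e)).continuousAt.eventually (gt_mem_nhds h2)] with y hy hy2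
  exact ⟨fun h2 => h2.1, fun h2 => ⟨h2, hy, hy2⟩⟩

theorem frontier_cases {e x : Euc n} (h : x ∈ frontier (Om e)) :
    GG e x = 0 ∨ FK e x = 0 ∨ FK (-e) x = 0 := by
  rw [(isOpen_Om e).frontier_eq] at h
  have hcl : closure (Om e) ⊆ {q | GG e q ≤ 0 ∧ FK e q ≤ 0 ∧ FK (-e) q ≤ 0} := by
    refine closure_minimal (fun q hq => ⟨hq.1.le, hq.2.1.le, hq.2.2.le⟩) ?_
    exact (isClosed_le (continuous_GG e) continuous_const).inter
      ((isClosed_le (continuous_FK e) continuous_const).inter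
        (isClosed_le (continuous_FK (-e)) continuous_const))
  obtain ⟨h1, h2, h3⟩ := hcl h.1
  by_contra hcon
  push Not at hcon
  exact h.2 ⟨lt_of_le_of_ne h1 hcon.1, lt_of_le_of_ne h2 hcon.2.1, lt_of_le_of_ne h3 hcon.2.2⟩

theorem smooth_Om {e : Euc n} (he : ‖e‖ = 1) : ∀ x ∈ frontier (Om e), ∃ F, IsDefFun (Om e) x F := by
  intro x hx
  have he' : ‖-e‖ = 1 := by rw [norm_neg, he]
  rcases frontier_cases hx with h | h | h
  · rcases lt_or_ge (5 / 2) ⟪e, x⟫ with h1 | h1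
    · exact ⟨_, isDefFun_FE he h1 h⟩
    rcases lt_or_ge ⟪e, x⟫ (-(5 / 2)) with h2 | h2
    · refine ⟨FE (-e), ?_⟩
      rw [← Om_neg]
      refine isDefFun_FE he' ?_ ?_
      · rw [inner_neg_left]; linarith
      · rw [GG_neg]; exact h
    · exact ⟨_, isDefFun_GG he h2 h1 h⟩
  · exact ⟨_, isDefFun_FK he h⟩
  · refine ⟨FK (-e), ?_⟩
    rw [← Om_neg]
    exact isDefFun_FK he' h

theorem photon_good {e : Euc n} (he : ‖e‖ = 1) {p v q : Euc n} {t : ℝ}
    (h : Photon (Om e) p v t q) : Good e p v → q ∉ AA e := by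
  induction h with
  | fly p v t ht hin =>
    intro hg
    rcases ht.lt_or_eq with ht0 | ht0
    · rcases main_leg he ht0 hg (fun s hs => hin s ⟨hs.1, hs.2.le⟩) with h1 | h1
      · exact not_AA_of_good h1
      · exfalso
        have h2 := (hin t ⟨ht0, le_refl _⟩).2.1
        rw [FK_eq, h1.1, h1.2.1] at h2
        norm_num at h2
    · rw [← ht0, zero_smul, add_zero]
      exact not_AA_of_good hg
  | bounce p v ν q τ t hτ hin hb hν hv _ ih =>
    intro hg
    apply ih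
    rcases main_leg he hτ hg hin with h1 | h1
    · rcases h1 with h1 | h1
      · exact Or.inl h1
      · right
        have h7 : GG e (p + τ • v) = 0 := by
          rcases frontier_cases hb with h5 | h5 | h5
          · exact h5
          · exact absurd h5 (FK_neg_of_gt h1.1).ne
          · refine absurd h5 (FK_neg_of_lt ?_).ne
            rw [inner_neg_left]; linarith [h1.1]
        refine ⟨h1.1, ?_⟩
        rw [JS_reflect he hb h1.1 h7 hν]
        exact h1.2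
    · exfalso
      rw [rim_normal he hb h1.1 h1.2.1 hν] at hv
      linarith [h1.2.2]

end Pool.Agent.Run7.h558.Dark
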