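import Mathlib
import Pool.Agent.Run7.h558.DarkB

/-!
# A smooth domain in which every point leaves a region dark: the domain is connected
-/

set_option autoImplicit false

open Set Filter Topology

namespace Pool.Agent.Run7.h558.Dark

open scoped RealInnerProductSpace ContDiff
open Pool.Agent.H800R2

variable {n : ℕ}

theorem joined_seg {S : Set (Euc n)} {q r : Euc n}
    (h : ∀ θ ∈ Icc (0 : ℝ) 1, q + θ • (r - q) ∈ S) : JoinedIn S q r := by
  refine JoinedIn.of_segment_subset ?_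
  rw [segment_eq_image']
  rintro _ ⟨θ, hθ, rfl⟩
  exact h θ hθ

theorem joined_vert {S : Set (Euc n)} {e q : Euc n} (c : ℝ)
    (h : ∀ θ ∈ Icc (0 : ℝ) 1, q + (θ * c) • e ∈ S) : JoinedIn S q (q + c • e) := by
  refine joined_seg fun θ hθ => ?_
  rw [add_sub_cancel_left, smul_smul]
  exact h θ hθ

theorem F0_convex {e a b : Euc n} {θ : ℝ} (h0 : 0 ≤ θ) (h1 : θ ≤ 1) :
    F0 e (a + θ • (b - a)) ≤ (1 - θ) * F0 e a + θ * F0 e b := by
  have hb : b = a + (1 : ℝ) • (b - a) := by rw [one_smul]; abel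
  have e1 : ‖b‖ ^ 2 = ‖a‖ ^ 2 + 2 * ⟪a, b - a⟫ + ‖b - a‖ ^ 2 := by
    conv_lhs => rw [hb]
    rw [norm_line]; ring
  have e2 : ⟪e, b⟫ = ⟪e, a⟫ + ⟪e, b - a⟫ := by
    conv_lhs => rw [hb]
    rw [yy_line]; ring
  unfold F0
  rw [norm_line, yy_line, e1, e2]
  have h2 : 0 ≤ θ * (1 - θ) := mul_nonneg h0 (by linarith)
  have h3 : 0 ≤ θ * (1 - θ) * (15 * ‖b - a‖ ^ 2 + ⟪e, b - a⟫ ^ 2) := by positivity
  nlinarith

theorem mem_of_upper {e : Euc n} (he : ‖e‖ = 1) {q : Euc n} (hy : 5 / 2 < ⟪e, q⟫)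
    (h : FE e q < 0) : q ∈ Om e := by
  refine ⟨by rw [GG_eq_FE he hy.le]; exact h, FK_neg_of_gt hy, FK_neg_of_lt ?_⟩
  rw [inner_neg_left]; linarith

/-- from the upper part to the reference point -/
theorem joined_upper {e r : Euc n} (he : ‖e‖ = 1) (hr : ss e r = 5 / 2) (hry : ⟪e, r⟫ = 7 / 2)
    {q : Euc n} (hq : q ∈ Om e) (hy : 5 / 2 ≤ ⟪e, q⟫) : JoinedIn (Om e) q r := by
  refine joined_seg fun θ hθ => ?_
  rcases hθ.1.lt_or_eq with h0 | h0
  · have hfq : FE e q < 0 := by rw [← GG_eq_FE he hy]; exact hq.1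
    have hfr : FE e r < 0 := by rw [FE_eq he, hr, hry]; norm_num
    refine mem_of_upper he ?_ ?_
    · rw [yy_line, inner_sub_right, hry]
      nlinarith [hθ.2, mul_pos h0 (show (0 : ℝ) < 7 / 2 - 5 / 2 by norm_num),
        mul_nonneg (sub_nonneg.2 hθ.2) (sub_nonneg.2 hy)]
    · have hc := F0_convex (e := e) (a := q - (5 / 2 : ℝ) • e) (b := r - (5 / 2 : ℝ) • e) hθ.1 hθ.2
      have hz : q - (5 / 2 : ℝ) • e + θ • (r - (5 / 2 : ℝ) • e - (q - (5 / 2 : ℝ) • e)) =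
          q + θ • (r - q) - (5 / 2 : ℝ) • e := by
        rw [sub_sub_sub_cancel_right]; abel
      rw [hz] at hc
      have hc' : FE e (q + θ • (r - q)) ≤ (1 - θ) * FE e q + θ * FE e r := hc
      have h1 : (1 - θ) * FE e q ≤ 0 := mul_nonpos_of_nonneg_of_nonpos (by linarith [hθ.2]) hfq.le
      have h2 : θ * FE e r < 0 := mul_neg_of_pos_of_neg h0 hfr
      linarith
  · rw [← h0, zero_smul, add_zero]
    exact hq

theorem gg_le' {y : ℝ} (h0 : 0 ≤ y) (h : y ≤ 7 / 2) : gg y ≤ 25 / 4 := by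
  rcases le_or_gt y (5 / 2) with h1 | h1
  · exact gg_le h0 h1
  · rw [gg_of_ge h1.le]
    nlinarith

/-- in the hyperplane `y = 0` -/
theorem joined_plane {e q : Euc n} (hy : ⟪e, q⟫ = 0) (hs0 : 0 ≤ ss e q) (hs : ss e q ≤ 5 / 2) :
    JoinedIn (Om e) q 0 := by
  refine joined_seg fun θ hθ => ?_
  have hz : q + θ • (0 - q) = (1 - θ) • q := by
    rw [zero_sub, smul_neg, sub_smul, one_smul]; abel
  rw [hz]
  have h1 : ⟪e, (1 - θ) • q⟫ = 0 := by rw [real_inner_smul_right, hy, mul_zero]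
  have h2 : ss e ((1 - θ) • q) = (1 - θ) ^ 2 * ss e q := by
    unfold ss
    rw [real_inner_smul_right, norm_smul, mul_pow, Real.norm_eq_abs, sq_abs]; ring
  refine ⟨?_, FK_neg_of_lt (by rw [h1]; norm_num), FK_neg_of_lt (by rw [inner_neg_left, h1]; norm_num)⟩
  rw [GG_eq, h1, gg_zero, h2]
  have h3 : (1 - θ) ^ 2 ≤ 1 := by nlinarith [hθ.1, hθ.2]
  nlinarith [mul_le_mul_of_nonneg_right h3 hs0]

/-- down along a vertical line at the distance `√(5/2)` from the axis -/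
theorem joined_side {e : Euc n} (he : ‖e‖ = 1) {q : Euc n} (hs : ss e q = 5 / 2)
    (h0 : 0 ≤ ⟪e, q⟫) (h1 : ⟪e, q⟫ ≤ 7 / 2) : JoinedIn (Om e) q 0 := by
  have h2 : JoinedIn (Om e) q (q + (-⟪e, q⟫) • e) := by
    refine joined_vert _ fun θ hθ => ?_
    have hs' : ss e (q + (θ * -⟪e, q⟫) • e) = 5 / 2 := by rw [ss_vert he, hs]
    refine ⟨?_, FK_neg_of_ss hs'.ge, FK_neg_of_ss (by rw [ss_neg]; exact hs'.ge)⟩
    rw [GG_eq, hs', yy_vert he]
    have h3 : 0 ≤ ⟪e, q⟫ + θ * -⟪e, q⟫ := by nlinarith [hθ.1, hθ.2]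
    have h4 : ⟪e, q⟫ + θ * -⟪e, q⟫ ≤ 7 / 2 := by nlinarith [hθ.1, hθ.2]
    linarith [gg_le' h3 h4]
  refine h2.trans (joined_plane ?_ ?_ ?_)
  · rw [yy_vert he]; ring
  · rw [ss_vert he, hs]; norm_num
  · rw [ss_vert he, hs]

theorem FK_mono {e q q' : Euc n} (hq : FK e q < 0) (hs : ss e q' = ss e q)
    (h : 0 ≤ (⟪e, q'⟫ - ⟪e, q⟫) * (⟪e, q'⟫ + ⟪e, q⟫ - 3)) : FK e q' < 0 := by
  rw [FK_eq] at hq ⊢
  rw [hs]
  nlinarith

theorem joined_half {e r : Euc n} (he : ‖e‖ = 1) (hr : ss e r = 5 / 2) (hry : ⟪e, r⟫ = 7 / 2)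
    {q : Euc n} (hq : q ∈ Om e) (hy : 0 ≤ ⟪e, q⟫) : JoinedIn (Om e) q 0 := by
  have hr0 : JoinedIn (Om e) r 0 := joined_side he hr (by rw [hry]; norm_num) hry.le
  have hs0 := ss_nonneg he q
  rcases le_or_gt (5 / 2) ⟪e, q⟫ with h1 | h1
  · exact (joined_upper he hr hry hq h1).trans hr0
  rcases le_or_gt (5 / 2) (ss e q) with h2 | h2
  · -- radially inwards
    set w : Euc n := q - ⟪e, q⟫ • e with hw
    have hew : ⟪e, w⟫ = 0 := by
      rw [hw, inner_sub_right, real_inner_smul_right, real_inner_self_eq_norm_sq, he]; ring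
    have hqw : ⟪q, w⟫ = ss e q := by
      rw [hw, inner_sub_right, real_inner_smul_right, real_inner_self_eq_norm_sq,
        real_inner_comm e q]
      unfold ss; ring
    have hww : ‖w‖ ^ 2 = ss e q := by
      rw [← real_inner_self_eq_norm_sq, hw, inner_sub_left, real_inner_smul_left, ← hw, hew, hqw]
      ring
    have hline : ∀ c : ℝ, ⟪e, q + c • w⟫ = ⟪e, q⟫ ∧ ss e (q + c • w) = (1 + c) ^ 2 * ss e q := by
      intro c
      have e1 : ⟪e, q + c • w⟫ = ⟪e, q⟫ := by rw [yy_line, hew]; ring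
      refine ⟨e1, ?_⟩
      conv_lhs => unfold ss
      rw [e1, norm_line, hqw, hww]
      unfold ss; ring
    set lam : ℝ := √(5 / 2) / √(ss e q) with hlam
    have hsp : 0 < ss e q := by linarith
    have hsq : 0 < √(ss e q) := Real.sqrt_pos.2 hsp
    have hl0 : 0 < lam := div_pos (Real.sqrt_pos.2 (by norm_num)) hsq
    have hl1 : lam ≤ 1 := by
      rw [hlam, div_le_one hsq]
      exact Real.sqrt_le_sqrt h2
    have hl2 : lam ^ 2 * ss e q = 5 / 2 := by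
      rw [hlam, div_pow, Real.sq_sqrt (by norm_num), Real.sq_sqrt hs0]
      field_simp
    have h3 : JoinedIn (Om e) q (q + (lam - 1) • w) := by
      refine joined_vert _ fun θ hθ => ?_
      obtain ⟨e1, e2⟩ := hline (θ * (lam - 1))
      have e3 : lam ≤ 1 + θ * (lam - 1) := by nlinarith [hθ.1, hθ.2]
      have e4 : 1 + θ * (lam - 1) ≤ 1 := by nlinarith [hθ.1, hθ.2]
      have e5 : lam ^ 2 ≤ (1 + θ * (lam - 1)) ^ 2 := pow_le_pow_left₀ hl0.le e3 2
      have e6 : (1 + θ * (lam - 1)) ^ 2 ≤ 1 := pow_le_one₀ (hl0.le.trans e3) e4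
      have e7 : 5 / 2 ≤ ss e (q + (θ * (lam - 1)) • w) := by
        rw [e2, ← hl2]
        exact mul_le_mul_of_nonneg_right e5 hs0
      refine ⟨?_, FK_neg_of_ss e7, FK_neg_of_ss (by rw [ss_neg]; exact e7)⟩
      have h5 := hq.1
      rw [GG_eq] at h5 ⊢
      rw [e1, e2]
      nlinarith [mul_le_mul_of_nonneg_right e6 hs0]
    obtain ⟨e1, e2⟩ := hline (lam - 1)
    refine h3.trans (joined_side he ?_ ?_ ?_)
    · rw [e2, ← hl2]; ring
    · rw [e1]; exact hy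
    · rw [e1]; linarith
  rcases le_or_gt (3 / 2) ⟪e, q⟫ with h3 | h3
  · -- upwards
    have h4 : JoinedIn (Om e) q (q + (5 - 2 * ⟪e, q⟫) • e) := by
      refine joined_vert _ fun θ hθ => ?_
      have hs' : ss e (q + (θ * (5 - 2 * ⟪e, q⟫)) • e) = ss e q := ss_vert he _ _
      have hy' : ⟪e, q + (θ * (5 - 2 * ⟪e, q⟫)) • e⟫ = ⟪e, q⟫ + θ * (5 - 2 * ⟪e, q⟫) :=
        yy_vert he _ _
      have e1 : 0 ≤ θ * (5 - 2 * ⟪e, q⟫) := mul_nonneg hθ.1 (by linarith)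
      have e2 : θ * (5 - 2 * ⟪e, q⟫) ≤ 5 - 2 * ⟪e, q⟫ := by
        have := mul_le_mul_of_nonneg_right hθ.2 (show 0 ≤ 5 - 2 * ⟪e, q⟫ by linarith)
        linarith
      refine ⟨?_, FK_mono hq.2.1 hs' ?_, FK_neg_of_lt ?_⟩
      · rw [GG_eq, hs', hy']
        have := gg_le' (y := ⟪e, q⟫ + θ * (5 - 2 * ⟪e, q⟫)) (by linarith) (by linarith)
        linarith
      · rw [hy']
        exact mul_nonneg (by linarith) (by linarith)
      · rw [inner_neg_left, hy']; linarith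
    have h5 := h4.target_mem
    refine h4.trans ((joined_upper he hr hry h5 ?_).trans hr0)
    rw [yy_vert he]; linarith
  · -- downwards
    have h4 : JoinedIn (Om e) q (q + (-⟪e, q⟫) • e) := by
      refine joined_vert _ fun θ hθ => ?_
      have hs' : ss e (q + (θ * -⟪e, q⟫) • e) = ss e q := ss_vert he _ _
      have hy' : ⟪e, q + (θ * -⟪e, q⟫) • e⟫ = ⟪e, q⟫ + θ * -⟪e, q⟫ := yy_vert he _ _
      have e1 : θ * -⟪e, q⟫ ≤ 0 := mul_nonpos_of_nonneg_of_nonpos hθ.1 (by linarith)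
      have e2 : -⟪e, q⟫ ≤ θ * -⟪e, q⟫ := by nlinarith [hθ.2]
      refine ⟨?_, FK_mono hq.2.1 hs' ?_, FK_neg_of_lt ?_⟩
      · rw [GG_eq, hs', hy']
        have := gg_le' (y := ⟪e, q⟫ + θ * -⟪e, q⟫) (by linarith) (by linarith)
        linarith
      · rw [hy']
        exact mul_nonneg_of_nonpos_of_nonpos (by linarith) (by linarith)
      · rw [inner_neg_left, hy']; linarith
    refine h4.trans (joined_plane ?_ ?_ ?_)
    · rw [yy_vert he]; ring
    · rw [ss_vert he]; exact hs0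
    · rw [ss_vert he]; exact h2.le

theorem gg_nonneg (y : ℝ) : 0 ≤ gg y := by
  unfold gg
  have h1 := Real.smoothTransition.nonneg (2 / 5 * y)
  have h2 := Real.smoothTransition.nonneg (2 / 5 * (-y))
  positivity

theorem abs_bound {y : ℝ} (h : 16 * gg y < 240) : y < 13 / 2 := by
  by_contra hcon
  push Not at hcon
  rw [gg_of_ge (by linarith)] at h
  nlinarith

theorem bounded_Om {e : Euc n} (he : ‖e‖ = 1) : Om e ⊆ Metric.ball 0 8 := by
  intro q hq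
  rw [mem_ball_zero_iff]
  have h1 := hq.1
  rw [GG_eq] at h1
  have hs := ss_nonneg he q
  have hg := gg_nonneg ⟪e, q⟫
  have h2 : ⟪e, q⟫ < 13 / 2 := abs_bound (by linarith)
  have h3 : -⟪e, q⟫ < 13 / 2 := abs_bound (by rw [gg_neg]; linarith)
  have h4 : ‖q‖ ^ 2 = ss e q + ⟪e, q⟫ ^ 2 := by unfold ss; ring
  have h5 : ⟪e, q⟫ ^ 2 < 43 := by nlinarith
  by_contra hcon
  push Not at hcon
  nlinarith

theorem zero_mem (e : Euc n) : (0 : Euc n) ∈ Om e := by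
  have h1 : ⟪e, (0 : Euc n)⟫ = 0 := inner_zero_right _
  refine ⟨?_, FK_neg_of_lt (by rw [h1]; norm_num), FK_neg_of_lt (by rw [inner_zero_right]; norm_num)⟩
  unfold GG
  rw [h1, gg_zero, norm_zero]
  norm_num

theorem isSmoothDomain_Om {e e' : Euc n} (he : ‖e‖ = 1) (he' : ‖e'‖ = 1) (hee : ⟪e, e'⟫ = 0) :
    IsSmoothDomain (Om e) := by
  have key : ∀ f : Euc n, ‖f‖ = 1 → ⟪f, e'⟫ = 0 → ∀ q ∈ Om f, 0 ≤ ⟪f, q⟫ → JoinedIn (Om f) q 0 := by
    intro f hf hfe q hq hy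
    have h1 : ⟪f, √(5 / 2) • e' + (7 / 2 : ℝ) • f⟫ = 7 / 2 := by
      rw [inner_add_right, real_inner_smul_right, real_inner_smul_right, hfe,
        real_inner_self_eq_norm_sq, hf]
      ring
    have h2 : ss f (√(5 / 2) • e' + (7 / 2 : ℝ) • f) = 5 / 2 := by
      rw [ss_vert hf]
      unfold ss
      rw [real_inner_smul_right, hfe, norm_smul, he', mul_pow, Real.norm_eq_abs, sq_abs,
        Real.sq_sqrt (by norm_num)]
      ring
    exact joined_half hf h2 h1 hq hy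
  refine ⟨isOpen_Om e, ?_, (Metric.isBounded_ball (x := (0 : Euc n)) (r := 8)).subset (bounded_Om he),
    smooth_Om he⟩
  have hpc : IsPathConnected (Om e) := by
    refine ⟨0, zero_mem e, fun {q} hq => ?_⟩
    rcases le_or_gt 0 ⟪e, q⟫ with h | h
    · exact (key e he hee q hq h).symm
    · have h1 := key (-e) (by rw [norm_neg, he]) (by rw [inner_neg_left, hee, neg_zero]) q
        (by rw [Om_neg]; exact hq) (by rw [inner_neg_left]; linarith)
      rw [Om_neg] at h1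
      exact h1.symm
  exact hpc.isConnected

theorem AA_nonempty {e : Euc n} (he : ‖e‖ = 1) : (AA e).Nonempty := by
  refine ⟨(12 / 5 : ℝ) • e, ?_⟩
  have h1 : ⟪e, (12 / 5 : ℝ) • e⟫ = 12 / 5 := by
    rw [real_inner_smul_right, real_inner_self_eq_norm_sq, he]; ring
  have h2 : ss e ((12 / 5 : ℝ) • e) = 0 := by
    unfold ss
    rw [h1, norm_smul, he]
    norm_num
  refine ⟨⟨?_, ?_, FK_neg_of_lt ?_⟩, by rw [h1]; norm_num, by rw [h1]; norm_num, by rw [h2]; norm_num⟩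
  · rw [GG_eq, h1, h2]
    have := gg_le (y := 12 / 5) (by norm_num) (by norm_num)
    linarith
  · rw [FK_eq, h1, h2]; norm_num
  · rw [inner_neg_left, h1]; norm_num

/-- light from below the hyperplane `y = 5/2`, outside the dent, never enters the dent -/
theorem dark {e : Euc n} (he : ‖e‖ = 1) {P : Euc n} (hP : P ∈ Om e) (hy : ⟪e, P⟫ < 5 / 2)
    (hA : P ∉ AA e) (t : ℝ) : Disjoint (front (Om e) P t) (AA e) := by
  rw [Set.disjoint_left]
  rintro q ⟨v, _, hph⟩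
  refine photon_good he hph (Or.inl ?_)
  rcases cover he hP hy with h | h
  · exact ⟨h.2.1.le, h.2.2⟩
  · exact absurd h hA

theorem dark_cases {e : Euc n} (he : ‖e‖ = 1) {P : Euc n} (hP : P ∈ Om e) :
    (∀ t : ℝ, Disjoint (front (Om e) P t) (AA e)) ∨
      ∀ t : ℝ, Disjoint (front (Om e) P t) (AA (-e)) := by
  by_cases h : ⟪e, P⟫ < 5 / 2 ∧ P ∉ AA e
  · exact Or.inl fun t => dark he hP h.1 h.2 t
  · right
    intro t
    have h1 : 3 / 2 < ⟪e, P⟫ := by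
      by_contra hcon
      push Not at hcon
      refine h ⟨by linarith, fun hA => ?_⟩
      linarith [hA.2.2.1]
    have h2 := dark (e := -e) (by rw [norm_neg, he]) (P := P) (by rw [Om_neg]; exact hP)
      (by rw [inner_neg_left]; linarith) (fun hA => by
        have := hA.2.2.1
        rw [inner_neg_left] at this
        linarith) t
    rw [Om_neg] at h2
    exact h2

theorem not_dense {Ω B : Set (Euc n)} {P : Euc n} (hB : IsOpen B) (hne : B.Nonempty) (hBΩ : B ⊆ Ω)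
    (h : ∀ t : ℝ, Disjoint (front Ω P t) B) : ¬ FrontsBecomeDense Ω P := by
  intro hd
  obtain ⟨x, hx⟩ := hne
  obtain ⟨ε, hε, hball⟩ := Metric.isOpen_iff.1 hB x hx
  obtain ⟨T, hT⟩ := hd ε hε
  obtain ⟨q, hq, hdist⟩ := hT T (le_refl _) x (hBΩ hx)
  refine Set.disjoint_left.1 (h T) hq (hball ?_)
  rw [Metric.mem_ball, dist_comm]
  exact hdist

theorem main (n : ℕ) (hn : 2 ≤ n) : ∃ Ω B₁ B₂ : Set (Euc n), IsSmoothDomain Ω ∧
    (IsOpen B₁ ∧ B₁.Nonempty ∧ B₁ ⊆ Ω) ∧ (IsOpen B₂ ∧ B₂.Nonempty ∧ B₂ ⊆ Ω) ∧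
    (∀ P ∈ Ω, (∀ t : ℝ, Disjoint (front Ω P t) B₁) ∨ ∀ t : ℝ, Disjoint (front Ω P t) B₂) ∧
    ∀ P ∈ Ω, ¬ FrontsBecomeDense Ω P := by
  set e : Euc n := EuclideanSpace.single ⟨0, by omega⟩ 1 with hedef
  set e' : Euc n := EuclideanSpace.single ⟨1, by omega⟩ 1 with hedef'
  have he : ‖e‖ = 1 := by rw [hedef]; simp
  have he' : ‖e'‖ = 1 := by rw [hedef']; simp
  have hee : ⟪e, e'⟫ = 0 := by
    rw [hedef, hedef']
    simp [EuclideanSpace.inner_single_left]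
  have hnm : ‖-e‖ = 1 := by rw [norm_neg, he]
  have hA1 : IsOpen (AA e) ∧ (AA e).Nonempty ∧ AA e ⊆ Om e :=
    ⟨isOpen_AA e, AA_nonempty he, fun q hq => hq.1⟩
  have hA2 : IsOpen (AA (-e)) ∧ (AA (-e)).Nonempty ∧ AA (-e) ⊆ Om e :=
    ⟨isOpen_AA _, AA_nonempty hnm, fun q hq => by rw [← Om_neg]; exact hq.1⟩
  refine ⟨Om e, AA e, AA (-e), isSmoothDomain_Om he he' hee, hA1, hA2,
    fun P hP => dark_cases he hP, fun P hP => ?_⟩
  rcases dark_cases he hP with h | h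
  · exact not_dense hA1.1 hA1.2.1 hA1.2.2 h
  · exact not_dense hA2.1 hA2.2.1 hA2.2.2 h

end Pool.Agent.Run7.h558.Dark
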