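import Mathlib

/-!
# Random walks on products of finite groups: lazy product walk plus uniform jumps
-/

set_option autoImplicit false
set_option linter.unusedSectionVars false
open Finset

namespace Pool.Agent.Run7.h558.Cyc

section general

variable {G : Type} [AddCommGroup G] [Fintype G] [DecidableEq G]

/-- The law of the sum of two independent random elements. -/
def conv (μ ν : G → ℝ) (x : G) : ℝ := ∑ y, μ (x - y) * ν y

/-- The law after `t` steps of the random walk with step law `μ` started at zero. -/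
def law (μ : G → ℝ) : ℕ → G → ℝ
  | 0 => Pi.single 0 1
  | t + 1 => conv (law μ t) μ

/-- Total variation distance to the uniform distribution. -/
noncomputable def tvUnif (ν : G → ℝ) : ℝ := (1 / 2) * ∑ x, |ν x - 1 / Fintype.card G|

/-- Laws of a perturbed walk. -/
theorem law_gen (Fa : ℕ → G → ℝ) (u q : ℝ) (hu : (Fintype.card G : ℝ) * u = 1)
    (hsum : ∀ t, ∑ x, Fa t x = 1) (hconv : ∀ t x, ∑ y, Fa t (x - y) * Fa 1 y = Fa (t + 1) x)
    (h0 : ∀ x, Fa 0 x = if x = 0 then 1 else 0) (t : ℕ) (x : G) :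
    law (fun x => q * Fa 1 x + (1 - q) * u) t x = q ^ t * Fa t x + (1 - q ^ t) * u := by
  induction t generalizing x with
  | zero =>
    simp only [law, pow_zero, one_mul, sub_self, zero_mul, add_zero]
    rw [h0, Pi.single_apply]
  | succ t ih =>
    simp only [law, conv]
    simp only [ih]
    have e1 : ∀ y : G, (q ^ t * Fa t (x - y) + (1 - q ^ t) * u) * (q * Fa 1 y + (1 - q) * u) =
        (q ^ t * q) * (Fa t (x - y) * Fa 1 y) + (q ^ t * (1 - q) * u) * Fa t (x - y) +
        ((1 - q ^ t) * q * u) * Fa 1 y + (1 - q ^ t) * (1 - q) * u * u := by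
      intro y
      ring
    rw [sum_congr rfl fun y _ => e1 y, sum_add_distrib, sum_add_distrib, sum_add_distrib,
      ← mul_sum, ← mul_sum, ← mul_sum, hconv, hsum]
    have e2 : ∑ y, Fa t (x - y) = 1 := by
      rw [← hsum t]
      exact Equiv.sum_comp (Equiv.subLeft x) (fun z => Fa t z)
    rw [e2, sum_const, card_univ, nsmul_eq_mul]
    linear_combination ((1 - q ^ t) * (1 - q) * u) * hu

/-- Distance of the unperturbed walk. -/
noncomputable def dist0 (Fa : ℕ → G → ℝ) (t : ℕ) : ℝ :=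
  (1 / 2) * ∑ x, |Fa t x - 1 / Fintype.card G|

theorem card_ne (G : Type) [AddCommGroup G] [Fintype G] : (Fintype.card G : ℝ) ≠ 0 := by
  have : 0 < Fintype.card G := Fintype.card_pos
  positivity

theorem tv_gen (Fa : ℕ → G → ℝ) (q : ℝ) (hq : 0 ≤ q)
    (hsum : ∀ t, ∑ x, Fa t x = 1) (hconv : ∀ t x, ∑ y, Fa t (x - y) * Fa 1 y = Fa (t + 1) x)
    (h0 : ∀ x, Fa 0 x = if x = 0 then 1 else 0) (t : ℕ) :
    tvUnif (law (fun x => q * Fa 1 x + (1 - q) * (1 / Fintype.card G)) t) =
      q ^ t * dist0 Fa t := by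
  unfold tvUnif dist0
  have h1 : ∀ x : G, |law (fun x => q * Fa 1 x + (1 - q) * (1 / Fintype.card G)) t x -
      1 / Fintype.card G| = q ^ t * |Fa t x - 1 / Fintype.card G| := by
    intro x
    rw [law_gen Fa (1 / Fintype.card G) q (mul_one_div_cancel (card_ne G)) hsum hconv h0]
    generalize (1 : ℝ) / Fintype.card G = u
    have e : q ^ t * Fa t x + (1 - q ^ t) * u - u = q ^ t * (Fa t x - u) := by ring
    rw [e, abs_mul, abs_of_nonneg (pow_nonneg hq t)]
  rw [sum_congr rfl fun x _ => h1 x, ← mul_sum]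
  ring

theorem dist0_le_one (Fa : ℕ → G → ℝ) (hsum : ∀ t, ∑ x, Fa t x = 1) (hnn : ∀ t x, 0 ≤ Fa t x)
    (t : ℕ) : dist0 Fa t ≤ 1 := by
  unfold dist0
  have hu : (Fintype.card G : ℝ) * (1 / Fintype.card G) = 1 := mul_one_div_cancel (card_ne G)
  have hup : 0 ≤ (1 : ℝ) / Fintype.card G := by positivity
  generalize (1 : ℝ) / Fintype.card G = u at hu hup
  have h2 : ∀ x : G, |Fa t x - u| ≤ Fa t x + u := by
    intro x
    have e1 := hnn t x
    rw [abs_le]
    constructor <;> linarith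
  have h3 := sum_le_sum fun x (_ : x ∈ (univ : Finset G)) => h2 x
  rw [sum_add_distrib, hsum, sum_const, card_univ, nsmul_eq_mul, hu] at h3
  linarith

/-- Total variation as a supremum. -/
theorem dist0_ge (Fa : ℕ → G → ℝ) (hsum : ∀ t, ∑ x, Fa t x = 1) (t : ℕ) (B : Finset G) :
    ∑ _x ∈ B, (1 : ℝ) / Fintype.card G - ∑ x ∈ B, Fa t x ≤ dist0 Fa t := by
  unfold dist0
  have hu : (Fintype.card G : ℝ) * (1 / Fintype.card G) = 1 := mul_one_div_cancel (card_ne G)
  generalize (1 : ℝ) / Fintype.card G = u at hu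
  have htot : ∑ x, (u - Fa t x) = 0 := by
    rw [sum_sub_distrib, hsum, sum_const, card_univ, nsmul_eq_mul, hu, sub_self]
  have hsplit := sum_add_sum_compl B (fun x => u - Fa t x)
  rw [htot] at hsplit
  have habs := sum_add_sum_compl B (fun x => |Fa t x - u|)
  have i1 : ∑ x ∈ B, (u - Fa t x) ≤ ∑ x ∈ B, |Fa t x - u| :=
    sum_le_sum fun x _ => by rw [abs_sub_comm]; exact le_abs_self _
  have i2 : ∑ x ∈ Bᶜ, -(u - Fa t x) ≤ ∑ x ∈ Bᶜ, |Fa t x - u| :=
    sum_le_sum fun x _ => by rw [neg_sub]; exact le_abs_self _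
  rw [sum_neg_distrib] at i2
  have i3 : ∑ x ∈ B, (u - Fa t x) = ∑ _x ∈ B, u - ∑ x ∈ B, Fa t x := sum_sub_distrib _ _
  rw [← habs]
  linarith

end general

variable {ι : Type} [Fintype ι] [DecidableEq ι] {K : ι → Type} [∀ i, AddCommGroup (K i)]
  [∀ i, Fintype (K i)] [∀ i, DecidableEq (K i)]

/-- One factor. -/
noncomputable def fac (i : ι) (a : ℝ) (y : K i) : ℝ :=
  a * (if y = 0 then 1 else 0) + (1 - a) / Fintype.card (K i)

/-- Product law. -/
noncomputable def F (a : ℝ) (x : ∀ i, K i) : ℝ := ∏ i, fac i a (x i)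

theorem card_pos' (i : ι) : (0 : ℝ) < Fintype.card (K i) := by
  exact_mod_cast Fintype.card_pos

theorem sum_fac (i : ι) (a : ℝ) : ∑ y : K i, fac i a y = 1 := by
  unfold fac
  rw [sum_add_distrib, ← mul_sum, sum_ite_eq' univ (0 : K i), if_pos (mem_univ _), sum_const,
    card_univ, nsmul_eq_mul]
  have := (card_pos' (K := K) i).ne'
  field_simp
  ring

theorem fac_nonneg (i : ι) {a : ℝ} (h0 : 0 ≤ a) (h1 : a ≤ 1) (y : K i) : 0 ≤ fac i a y := by
  unfold fac
  have := card_pos' (K := K) i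
  have h2 : 0 ≤ 1 - a := by linarith
  split_ifs <;> positivity

theorem conv_fac (i : ι) (a b : ℝ) (x : K i) :
    ∑ y : K i, fac i a (x - y) * fac i b y = fac i (a * b) x := by
  set c : ℝ := ((Fintype.card (K i) : ℕ) : ℝ) with hc
  have hc0 : c ≠ 0 := (card_pos' (K := K) i).ne'
  have h1 : ∀ y : K i, fac i a (x - y) * fac i b y =
      a * (if x = y then fac i b y else 0) +
        ((1 - a) / c) * fac i b y := by
    intro y
    have : (x - y = 0) ↔ x = y := sub_eq_zero
    unfold fac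
    rw [← hc]
    simp only [this]
    split_ifs <;> ring
  rw [sum_congr rfl fun y _ => h1 y, sum_add_distrib, ← mul_sum, ← mul_sum, sum_fac,
    sum_ite_eq univ x, if_pos (mem_univ _)]
  unfold fac
  rw [← hc]
  field_simp
  ring

theorem sum_prod_pi (f : ∀ i, K i → ℝ) : ∑ x : ∀ i, K i, ∏ i, f i (x i) = ∏ i, ∑ y, f i y := by
  rw [prod_univ_sum, Fintype.piFinset_univ]

theorem sum_F (a : ℝ) : ∑ x : ∀ i, K i, F a x = 1 := by
  unfold F
  rw [sum_prod_pi (fun i => fac i a)]
  simp [sum_fac]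

theorem F_nonneg {a : ℝ} (h0 : 0 ≤ a) (h1 : a ≤ 1) (x : ∀ i, K i) : 0 ≤ F a x :=
  prod_nonneg fun i _ => fac_nonneg i h0 h1 (x i)

theorem conv_F (a b : ℝ) (x : ∀ i, K i) : ∑ y : ∀ i, K i, F a (x - y) * F b y = F (a * b) x := by
  unfold F
  simp only [← prod_mul_distrib, Pi.sub_apply]
  rw [sum_prod_pi (fun i y => fac i a (x i - y) * fac i b y)]
  refine prod_congr rfl fun i _ => conv_fac i a b (x i)

theorem F_one (x : ∀ i, K i) : F 1 x = if x = 0 then 1 else 0 := by
  unfold F fac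
  by_cases hx : x = 0
  · subst hx; simp
  · rw [if_neg hx]
    obtain ⟨i, hi⟩ := Function.ne_iff.1 hx
    apply prod_eq_zero (mem_univ i)
    have : x i ≠ 0 := hi
    simp [this]

/-- The family of laws. -/
noncomputable def Fam (K : ι → Type) [∀ i, AddCommGroup (K i)] [∀ i, Fintype (K i)]
    [∀ i, DecidableEq (K i)] (t : ℕ) (x : ∀ i, K i) : ℝ := F ((1 / 2) ^ t) x

theorem half_pow_mem (t : ℕ) : (0 : ℝ) ≤ (1 / 2) ^ t ∧ ((1 : ℝ) / 2) ^ t ≤ 1 :=
  ⟨by positivity, pow_le_one₀ (by norm_num) (by norm_num)⟩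

theorem Fam_sum (t : ℕ) : ∑ x, Fam K t x = 1 := sum_F _

theorem Fam_nonneg (t : ℕ) (x : ∀ i, K i) : 0 ≤ Fam K t x :=
  F_nonneg (half_pow_mem t).1 (half_pow_mem t).2 x

theorem Fam_conv (t : ℕ) (x : ∀ i, K i) : ∑ y, Fam K t (x - y) * Fam K 1 y = Fam K (t + 1) x := by
  unfold Fam
  rw [conv_F, ← pow_add]

theorem Fam_zero (x : ∀ i, K i) : Fam K 0 x = if x = 0 then 1 else 0 := by
  unfold Fam
  rw [pow_zero, F_one]

theorem one_sub_sum_le (s : Finset ι) (f : ι → ℝ) (h0 : ∀ i, 0 ≤ f i) (h1 : ∀ i, f i ≤ 1) :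
    1 - ∑ i ∈ s, f i ≤ ∏ i ∈ s, (1 - f i) := by
  induction s using Finset.induction_on with
  | empty => simp
  | insert j s hj ih =>
    rw [sum_insert hj, prod_insert hj]
    have h2 : ∏ i ∈ s, (1 - f i) ≤ 1 :=
      prod_le_one (fun i _ => by linarith [h1 i]) (fun i _ => by linarith [h0 i])
    have h3 : 0 ≤ ∏ i ∈ s, (1 - f i) := prod_nonneg fun i _ => by linarith [h1 i]
    nlinarith [h0 j, h1 j]

/-- Lower bound for the distance of the unperturbed law. -/
theorem d0_lower (t : ℕ) : 1 - ∑ i, 1 / (Fintype.card (K i) : ℝ) -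
    (1 - (1 / 2) ^ t) ^ Fintype.card ι ≤ dist0 (Fam K) t := by
  obtain ⟨h0, h1⟩ := half_pow_mem t
  have hprod : ∀ f : ∀ i, K i → ℝ,
      ∑ x ∈ univ.filter (fun x : ∀ i, K i => ∀ i, x i ≠ 0), ∏ i, f i (x i) =
      ∏ i, ∑ y : K i, (if y ≠ 0 then f i y else 0) := by
    intro f
    rw [← sum_prod_pi (fun i y => if y ≠ 0 then f i y else 0), sum_filter]
    refine sum_congr rfl fun x _ => ?_
    split_ifs with h
    · refine prod_congr rfl fun i _ => ?_
      rw [if_pos (h i)]
    · push Not at h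
      obtain ⟨i, hi⟩ := h
      symm
      apply prod_eq_zero (mem_univ i)
      rw [if_neg (not_not.2 hi)]
  have hne : ∀ i : ι, ∑ y : K i, (if y ≠ 0 then (1 : ℝ) else 0) = (Fintype.card (K i) : ℝ) - 1 := by
    intro i
    have e1 : ∀ y : K i, (if y ≠ 0 then (1 : ℝ) else 0) = 1 - if y = 0 then 1 else 0 := by
      intro y
      by_cases hy : y = 0 <;> simp [hy]
    rw [sum_congr rfl fun y _ => e1 y, sum_sub_distrib, sum_ite_eq' univ (0 : K i),
      if_pos (mem_univ _), sum_const, card_univ, nsmul_eq_mul, mul_one]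
  have hBu : ∑ _x ∈ univ.filter (fun x : ∀ i, K i => ∀ i, x i ≠ 0),
      (1 : ℝ) / Fintype.card (∀ i, K i) = ∏ i, (1 - 1 / (Fintype.card (K i) : ℝ)) := by
    have e1 : (1 : ℝ) / Fintype.card (∀ i, K i) = ∏ i, 1 / (Fintype.card (K i) : ℝ) := by
      rw [Fintype.card_pi]
      push_cast
      rw [prod_div_distrib, prod_const_one]
    have e2 := hprod (fun i _ => 1 / (Fintype.card (K i) : ℝ))
    rw [e1, e2]
    refine prod_congr rfl fun i _ => ?_
    have e3 : ∀ y : K i, (if y ≠ 0 then 1 / (Fintype.card (K i) : ℝ) else 0) =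
        (1 / (Fintype.card (K i) : ℝ)) * (if y ≠ 0 then 1 else 0) := by
      intro y
      split_ifs <;> ring
    rw [sum_congr rfl fun y _ => e3 y, ← mul_sum, hne]
    have := (card_pos' (K := K) i).ne'
    field_simp
  have hBF : ∑ x ∈ univ.filter (fun x : ∀ i, K i => ∀ i, x i ≠ 0), Fam K t x ≤
      (1 - (1 / 2) ^ t) ^ Fintype.card ι := by
    unfold Fam F
    rw [hprod]
    generalize ((1 : ℝ) / 2) ^ t = a at h0 h1
    have e1 : ∏ i : ι, ∑ y : K i, (if y ≠ 0 then fac i a y else 0) ≤ ∏ _i : ι, (1 - a) := by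
      apply prod_le_prod
      · intro i _
        apply sum_nonneg
        intro y _
        split_ifs
        · exact fac_nonneg i h0 h1 y
        · exact le_rfl
      · intro i _
        have e3 : ∀ y : K i, (if y ≠ 0 then fac i a y else 0) =
            ((1 - a) / (Fintype.card (K i) : ℝ)) * (if y ≠ 0 then 1 else 0) := by
          intro y
          unfold fac
          by_cases hy : y = 0 <;> simp [hy]
        rw [sum_congr rfl fun y _ => e3 y, ← mul_sum, hne]
        have hcp := card_pos' (K := K) i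
        have e4 : (1 - a) / (Fintype.card (K i) : ℝ) * ((Fintype.card (K i) : ℝ) - 1) =
            (1 - a) - (1 - a) / (Fintype.card (K i) : ℝ) := by
          field_simp
        rw [e4]
        have : 0 ≤ (1 - a) / (Fintype.card (K i) : ℝ) := div_nonneg (by linarith) hcp.le
        linarith
    rwa [prod_const, card_univ] at e1
  have hprod1 : 1 - ∑ i, 1 / (Fintype.card (K i) : ℝ) ≤ ∏ i, (1 - 1 / (Fintype.card (K i) : ℝ)) := by
    apply one_sub_sum_le
    · intro i
      have := card_pos' (K := K) i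
      positivity
    · intro i
      rw [div_le_one (card_pos' (K := K) i)]
      have : 1 ≤ Fintype.card (K i) := Fintype.card_pos
      exact_mod_cast this
  have h := dist0_ge (Fam K) Fam_sum t (univ.filter (fun x : ∀ i, K i => ∀ i, x i ≠ 0))
  rw [hBu] at h
  linarith

end Pool.Agent.Run7.h558.Cyc
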