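import Pool.Agent.Run7.h558.CycA

/-!
# The walk on `ℤ/N`, `N` a product of many large primes
-/

set_option autoImplicit false
set_option linter.unusedSectionVars false
open Finset

namespace Pool.Agent.Run7.h558.Cyc

variable {ι : Type} [Fintype ι] [DecidableEq ι] {K : ι → Type} [∀ i, AddCommGroup (K i)]
  [∀ i, Fintype (K i)] [∀ i, DecidableEq (K i)]

theorem char_sum {G : Type} [AddCommGroup G] (χ : AddChar G ℂ) (s : Finset ι) (f : ι → G) :
    χ (∑ i ∈ s, f i) = ∏ i ∈ s, χ (f i) := by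
  induction s using Finset.induction_on with
  | empty => simp
  | insert j s hj ih => rw [sum_insert hj, prod_insert hj, AddChar.map_add_eq_mul, ih]

/-- Fourier coefficients of the product law. -/
theorem fourier_F {a : ℝ} (h0 : 0 ≤ a) (h1 : a ≤ 1) (χ : AddChar (∀ i, K i) ℂ) (hχ : χ ≠ 1) :
    ‖∑ x : ∀ i, K i, (F a x : ℂ) * χ x‖ ≤ a := by
  classical
  set ψ : ∀ i, AddChar (K i) ℂ := fun i =>
    χ.compAddMonoidHom (AddMonoidHom.single (fun i => K i) i) with hψ
  have hprod : ∀ x : ∀ i, K i, χ x = ∏ i, ψ i (x i) := by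
    intro x
    conv_lhs => rw [← univ_sum_single x]
    rw [char_sum]
    rfl
  have e1 : ∑ x : ∀ i, K i, (F a x : ℂ) * χ x = ∏ i, ∑ y : K i, (fac i a y : ℂ) * ψ i y := by
    rw [prod_univ_sum, Fintype.piFinset_univ]
    refine sum_congr rfl fun x _ => ?_
    rw [hprod, prod_mul_distrib]
    unfold F
    push_cast
    rfl
  have e2 : ∀ i, ∑ y : K i, (fac i a y : ℂ) * ψ i y = if ψ i = 0 then 1 else (a : ℂ) := by
    intro i
    have hc : (Fintype.card (K i) : ℂ) ≠ 0 := by
      have := (card_pos' (K := K) i).ne'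
      exact_mod_cast this
    have e3 : ∀ y : K i, (fac i a y : ℂ) * ψ i y =
        (if y = 0 then (a : ℂ) else 0) + ((1 - a) / Fintype.card (K i)) * ψ i y := by
      intro y
      unfold fac
      by_cases hy : y = 0
      · subst hy
        simp
      · simp [hy]
    rw [sum_congr rfl fun y _ => e3 y, sum_add_distrib, ← mul_sum, AddChar.sum_eq_ite,
      sum_ite_eq' univ (0 : K i), if_pos (mem_univ _)]
    split_ifs
    · field_simp
      ring
    · ring
  obtain ⟨i0, hi0⟩ : ∃ i, ψ i ≠ 0 := by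
    by_contra hcon
    push Not at hcon
    apply hχ
    ext x
    rw [hprod]
    have : ∀ i, ψ i (x i) = 1 := by
      intro i
      rw [hcon i]
      simp
    simp [this]
  rw [e1, ← mul_prod_erase univ _ (mem_univ i0), norm_mul]
  have e4 : ‖∑ y : K i0, (fac i0 a y : ℂ) * ψ i0 y‖ = a := by
    rw [e2, if_neg hi0, Complex.norm_real, Real.norm_eq_abs, abs_of_nonneg h0]
  have e5 : ‖∏ i ∈ univ.erase i0, ∑ y : K i, (fac i a y : ℂ) * ψ i y‖ ≤ 1 := by
    rw [norm_prod]
    apply prod_le_one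
    · intro i _
      exact norm_nonneg _
    · intro i _
      rw [e2]
      split_ifs
      · simp
      · rw [Complex.norm_real, Real.norm_eq_abs, abs_of_nonneg h0]
        exact h1
  rw [e4]
  calc a * ‖∏ i ∈ univ.erase i0, ∑ y : K i, (fac i a y : ℂ) * ψ i y‖ ≤ a * 1 := by gcongr
    _ = a := mul_one a

theorem fac_neg (i : ι) (a : ℝ) (y : K i) : fac i a (-y) = fac i a y := by
  unfold fac
  simp only [neg_eq_zero]

theorem F_neg (a : ℝ) (x : ∀ i, K i) : F a (-x) = F a x := by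
  unfold F
  refine prod_congr rfl fun i _ => fac_neg i a (x i)

/-- Transport of the distance. -/
theorem dist0_comp {G : Type} [AddCommGroup G] [Fintype G] (e : G ≃ (∀ i, K i)) (t : ℕ) :
    dist0 (fun t x => Fam K t (e x)) t = dist0 (Fam K) t := by
  unfold dist0
  have hc : Fintype.card G = Fintype.card (∀ i, K i) := Fintype.card_congr e
  rw [hc]
  congr 1
  exact Equiv.sum_comp e (fun z => |Fam K t z - 1 / (Fintype.card (∀ i, K i) : ℝ)|)

/-- The base walk. -/
theorem exists_base (n : ℕ) (hn : 4 ≤ n) : ∃ (N : ℕ) (_ : NeZero N) (Fa : ℕ → ZMod N → ℝ),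
    n ≤ N ∧ (∀ t, ∑ x, Fa t x = 1) ∧ (∀ t x, 0 ≤ Fa t x) ∧
    (∀ t x, ∑ y, Fa t (x - y) * Fa 1 y = Fa (t + 1) x) ∧
    (∀ x, Fa 0 x = if x = 0 then 1 else 0) ∧ (∀ x, Fa 1 (-x) = Fa 1 x) ∧
    (∀ t ≤ n ^ 2, 4 / 5 ≤ dist0 Fa t) ∧
    ∀ j : ZMod N, j ≠ 0 → ‖∑ x, (Fa 1 x : ℂ) * ZMod.stdAddChar (j * x)‖ ≤ 1 / 2 := by
  classical
  set m : ℕ := 4 ^ (n ^ 2) with hm
  have hmp : 0 < m := by rw [hm]; positivity
  set p : Fin m → ℕ := fun i => Nat.nth Nat.Prime (10 * m + i) with hp
  have hpp : ∀ i, (p i).Prime := fun i => Nat.prime_nth_prime _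
  have hmono : StrictMono (Nat.nth Nat.Prime) := Nat.nth_strictMono Nat.infinite_setOfPred_prime
  have hp10 : ∀ i, 10 * m ≤ p i := by
    intro i
    have := hmono.le_apply (x := 10 * m + (i : ℕ))
    simp only [hp]
    omega
  have hco : Pairwise (Function.onFun Nat.Coprime p) := by
    intro i j hij
    show Nat.Coprime (p i) (p j)
    rw [Nat.coprime_primes (hpp i) (hpp j)]
    intro h
    apply hij
    have := hmono.injective h
    exact Fin.ext (by omega)
  have : ∀ i, NeZero (p i) := fun i => ⟨(hpp i).ne_zero⟩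
  set N : ℕ := ∏ i, p i with hN
  have hN0 : N ≠ 0 := by rw [hN]; exact prod_ne_zero_iff.2 fun i _ => (hpp i).ne_zero
  have : NeZero N := ⟨hN0⟩
  set e : ZMod N ≃+* (∀ i, ZMod (p i)) := ZMod.prodEquivPi p hco with he
  refine ⟨N, inferInstance, fun t x => Fam (fun i => ZMod (p i)) t (e x), ?_, ?_, ?_, ?_, ?_, ?_,
    ?_, ?_⟩
  · have h1 : p ⟨0, hmp⟩ ∣ N := by rw [hN]; exact dvd_prod_of_mem p (mem_univ _)
    have h2 : p ⟨0, hmp⟩ ≤ N := Nat.le_of_dvd (Nat.pos_of_ne_zero hN0) h1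
    have h3 := hp10 ⟨0, hmp⟩
    have h4 : n ≤ m := by
      calc n ≤ n ^ 2 := by nlinarith
        _ ≤ 4 ^ (n ^ 2) := (Nat.lt_pow_self (by norm_num)).le
        _ = m := hm.symm
    omega
  · intro t
    rw [← Fam_sum (K := fun i => ZMod (p i)) t]
    exact Equiv.sum_comp e.toEquiv (fun z => Fam (fun i => ZMod (p i)) t z)
  · intro t x
    exact Fam_nonneg t _
  · intro t x
    show ∑ y, Fam (fun i => ZMod (p i)) t (e (x - y)) * Fam (fun i => ZMod (p i)) 1 (e y) =
      Fam (fun i => ZMod (p i)) (t + 1) (e x)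
    rw [← Fam_conv (K := fun i => ZMod (p i)) t (e x)]
    rw [← Equiv.sum_comp e.toEquiv (fun z => Fam (fun i => ZMod (p i)) t (e x - z) *
      Fam (fun i => ZMod (p i)) 1 z)]
    refine sum_congr rfl fun y _ => ?_
    rw [map_sub]
    rfl
  · intro x
    show Fam (fun i => ZMod (p i)) 0 (e x) = _
    rw [Fam_zero]
    by_cases hx : x = 0
    · subst hx; simp
    · rw [if_neg hx, if_neg]
      intro h
      apply hx
      apply e.injective
      rw [h, map_zero]
  · intro x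
    show Fam (fun i => ZMod (p i)) 1 (e (-x)) = Fam (fun i => ZMod (p i)) 1 (e x)
    rw [map_neg]
    exact F_neg _ _
  · intro t ht
    have h0 : dist0 (fun t x => Fam (fun i => ZMod (p i)) t (e x)) t =
        dist0 (Fam (fun i => ZMod (p i))) t := dist0_comp (K := fun i => ZMod (p i)) e.toEquiv t
    rw [h0]
    have h1 := d0_lower (K := fun i => ZMod (p i)) t
    rw [Fintype.card_fin] at h1
    have h2 : ∑ i, 1 / (Fintype.card (ZMod (p i)) : ℝ) ≤ 1 / 10 := by
      have q1 : ∀ i ∈ (univ : Finset (Fin m)), 1 / (Fintype.card (ZMod (p i)) : ℝ) ≤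
          1 / (10 * m) := by
        intro i _
        rw [ZMod.card]
        have q2 : (10 * m : ℝ) ≤ p i := by exact_mod_cast hp10 i
        have q3 : (0 : ℝ) < 10 * m := by positivity
        gcongr
      have q4 := sum_le_sum q1
      rw [sum_const, card_univ, Fintype.card_fin, nsmul_eq_mul] at q4
      refine q4.trans (le_of_eq ?_)
      have : (m : ℝ) ≠ 0 := by positivity
      field_simp
    have h3 : (1 - ((1 : ℝ) / 2) ^ t) ^ m ≤ 1 / 10 := by
      have q1 : 1 - ((1 : ℝ) / 2) ^ t ≤ Real.exp (-((1 / 2) ^ t)) := by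
        have := Real.add_one_le_exp (-(((1 : ℝ) / 2) ^ t))
        linarith
      have q0 : 0 ≤ 1 - ((1 : ℝ) / 2) ^ t := by linarith [(half_pow_mem t).2]
      have q2 : (1 - ((1 : ℝ) / 2) ^ t) ^ m ≤ Real.exp (-((1 / 2) ^ t)) ^ m := by gcongr
      rw [← Real.exp_nat_mul] at q2
      have q3 : (9 : ℝ) ≤ m * (1 / 2) ^ t := by
        have r1 : ((1 : ℝ) / 2) ^ (n ^ 2) ≤ (1 / 2) ^ t :=
          pow_le_pow_of_le_one (by norm_num) (by norm_num) ht
        have r2 : (m : ℝ) * (1 / 2) ^ (n ^ 2) = 2 ^ (n ^ 2) := by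
          rw [hm]; push_cast
          rw [← mul_pow]; norm_num
        have r3 : (9 : ℝ) ≤ 2 ^ (n ^ 2) := by
          have : 4 ≤ n ^ 2 := by nlinarith
          calc (9 : ℝ) ≤ 2 ^ 4 := by norm_num
            _ ≤ 2 ^ (n ^ 2) := pow_le_pow_right₀ (by norm_num) this
        calc (9 : ℝ) ≤ m * (1 / 2) ^ (n ^ 2) := by rw [r2]; exact r3
          _ ≤ _ := by gcongr
      have q4 : (m : ℝ) * -((1 / 2) ^ t) ≤ -9 := by linarith
      have q5 : Real.exp ((m : ℝ) * -((1 / 2) ^ t)) ≤ Real.exp (-9) := Real.exp_le_exp.2 q4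
      have q6 : Real.exp (-9) ≤ 1 / 10 := by
        rw [Real.exp_neg, inv_eq_one_div]
        have := Real.add_one_le_exp (9 : ℝ)
        gcongr
        linarith
      linarith
    linarith
  · intro j hj
    set χ : AddChar (∀ i, ZMod (p i)) ℂ :=
      (AddChar.mulShift (ZMod.stdAddChar (N := N)) j).compAddMonoidHom
        (e.symm : (∀ i, ZMod (p i)) →+ ZMod N) with hχ
    have hne : χ ≠ 1 := by
      intro h
      have h1 : AddChar.mulShift (ZMod.stdAddChar (N := N)) j = 1 := by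
        ext x
        have h2 : χ (e x) = 1 := by rw [h]; rfl
        have h3 : χ (e x) = AddChar.mulShift (ZMod.stdAddChar (N := N)) j (e.symm (e x)) := rfl
        rw [h3, e.symm_apply_apply] at h2
        rw [h2]; rfl
      exact ZMod.isPrimitive_stdAddChar N hj h1
    have h1 := fourier_F (K := fun i => ZMod (p i)) (a := 1 / 2) (by norm_num) (by norm_num) χ hne
    have h2 : ∑ x, ((Fam (fun i => ZMod (p i)) 1 (e x) : ℝ) : ℂ) * ZMod.stdAddChar (j * x) =
        ∑ z : ∀ i, ZMod (p i), (F (1 / 2) z : ℂ) * χ z := by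
      rw [← Equiv.sum_comp e.toEquiv (fun z : ∀ i, ZMod (p i) => (F (1 / 2) z : ℂ) * χ z)]
      refine sum_congr rfl fun x _ => ?_
      have h3 : χ (e x) = AddChar.mulShift (ZMod.stdAddChar (N := N)) j (e.symm (e x)) := rfl
      have h4 : χ (e.toEquiv x) = ZMod.stdAddChar (j * x) := by
        show χ (e x) = _
        rw [h3, e.symm_apply_apply, AddChar.mulShift_apply]
      rw [h4]
      unfold Fam
      rw [pow_one]
      rfl
    show ‖∑ x, ((Fam (fun i => ZMod (p i)) 1 (e x) : ℝ) : ℂ) * ZMod.stdAddChar (j * x)‖ ≤ 1 / 2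
    rw [h2]
    exact h1

end Pool.Agent.Run7.h558.Cyc
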