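import Pool.Agent.Run7.h558.SqB

/-!
# A finite type point which is not strongly pseudoconvex with squeezing function tending to one

The ellipsoid `D = {|z₀|² + |z₁|⁴ < 1}` in `ℂ²` is a bounded convex domain with smooth boundary of
finite type, it is not strongly pseudoconvex at `p = (1, 0)`, and its squeezing function tends to
`1` along some sequence converging to `p`.
-/

set_option autoImplicit false
open Metric Filter Topology Set

namespace Pool.Agent.Results.MP_63facb_an.EllipsoidTangential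

/-- `ℂⁿ` with the Euclidean norm. -/
abbrev Cn (n : ℕ) := EuclideanSpace ℂ (Fin n)

variable {n : ℕ}

/-- Holomorphic embeddings of the open set `D` of `ℂⁿ` into `ℂⁿ`: injective holomorphic
immersions. -/
def IsHolEmbedding (D : Set (Cn n)) (F : Cn n → Cn n) : Prop :=
  DifferentiableOn ℂ F D ∧ InjOn F D ∧ ∀ x ∈ D, Function.Injective (fderiv ℂ F x)

/-- The squeezing function. -/
noncomputable def squeezing (D : Set (Cn n)) (z : Cn n) : ℝ :=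
  sSup {r : ℝ | 0 < r ∧ ∃ F : Cn n → Cn n, IsHolEmbedding D F ∧ MapsTo F D (ball 0 1) ∧
    F z = 0 ∧ ball 0 r ⊆ F '' D}

/-- `ρ` is a smooth local defining function of `D` on the neighbourhood `U` of `p`. -/
def IsDefining (D : Set (Cn n)) (p : Cn n) (U : Set (Cn n)) (ρ : Cn n → ℝ) : Prop :=
  IsOpen U ∧ p ∈ U ∧ ContDiffOn ℝ (⊤ : ℕ∞) ρ U ∧ (∀ z ∈ U, fderiv ℝ ρ z ≠ 0) ∧
    ∀ z ∈ U, z ∈ D ↔ ρ z < 0

/-- The order of vanishing at the origin of a germ `h : ℂ → E`: the supremum of all `m` with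
`h(ζ) = O(|ζ|^m)`. -/
noncomputable def vanishOrder {E : Type*} [NormedAddCommGroup E] (h : ℂ → E) : ℕ∞ :=
  ⨆ m : {m : ℕ // h =O[𝓝 0] fun ζ : ℂ => ‖ζ‖ ^ m}, ((m : ℕ) : ℕ∞)

/-- Finite D'Angelo type of `{ρ = 0}` at `q`: the ratios of the order of vanishing of `ρ ∘ γ` and
that of `γ - q`, over all nonconstant germs of holomorphic curves `γ` through `q`, are bounded. -/
def FiniteDAngeloType (ρ : Cn n → ℝ) (q : Cn n) : Prop :=
  ∃ C : ℕ, ∀ γ : ℂ → Cn n, AnalyticAt ℂ γ 0 → γ 0 = q → (¬ ∀ᶠ ζ in 𝓝 (0 : ℂ), γ ζ = q) →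
    vanishOrder (fun ζ => ρ (γ ζ)) ≤ (C : ℕ∞) * vanishOrder (fun ζ => γ ζ - q)

/-- The Levi form of `ρ` at `p` is positive definite on the complex tangent space. -/
def StronglyPseudoconvexAt (ρ : Cn n → ℝ) (p : Cn n) : Prop :=
  ∀ w : Cn n, w ≠ 0 → fderiv ℝ ρ p w = 0 → fderiv ℝ ρ p (Complex.I • w) = 0 →
    0 < iteratedFDeriv ℝ 2 ρ p ![w, w] + iteratedFDeriv ℝ 2 ρ p ![Complex.I • w, Complex.I • w]

/-- Admissible pairs of kind (C): `D` is a bounded convex domain, and `ρ` is a smooth defining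
function of `D` on the neighbourhood `U` of the boundary point `p`, all boundary points in `U`
being of finite type. -/
def AdmissibleC (D : Set (Cn n)) (p : Cn n) (U : Set (Cn n)) (ρ : Cn n → ℝ) : Prop :=
  2 ≤ n ∧ IsOpen D ∧ D.Nonempty ∧ Convex ℝ D ∧ Bornology.IsBounded D ∧ p ∈ frontier D ∧
    IsDefining D p U ρ ∧ ∀ q ∈ U, q ∈ frontier D → FiniteDAngeloType ρ q

theorem result : ∃ (D : Set (Cn 2)) (p : Cn 2) (U : Set (Cn 2)) (ρ : Cn 2 → ℝ),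
    AdmissibleC D p U ρ ∧
    (∃ z : ℕ → Cn 2, (∀ ν, z ν ∈ D) ∧ Tendsto z atTop (𝓝 p) ∧
      Tendsto (fun ν => squeezing D (z ν)) atTop (𝓝 1)) ∧
    ¬ StronglyPseudoconvexAt ρ p := by
  refine ⟨Run7.h558.Sq.Ell, Run7.h558.Sq.pt, {z | z ≠ 0}, Run7.h558.Sq.rho, ⟨le_rfl,
    Run7.h558.Sq.isOpen_ell, ⟨_, Run7.h558.Sq.zseq_mem 0⟩, Run7.h558.Sq.convex_ell,
    Run7.h558.Sq.bounded_ell, Run7.h558.Sq.pt_frontier, ⟨isOpen_ne, ?_, ?_, ?_, ?_⟩, ?_⟩,
    ⟨Run7.h558.Sq.zseq, Run7.h558.Sq.zseq_mem, Run7.h558.Sq.tendsto_zseq, ?_⟩, ?_⟩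
  · intro h
    have h1 := congrArg (fun z : Cn 2 => z 0) h
    have h2 : (Run7.h558.Sq.pt) 0 = (0 : Cn 2) 0 := h1
    rw [Run7.h558.Sq.pt_zero] at h2
    simp at h2
  · exact Run7.h558.Sq.rho_contDiff.contDiffOn
  · intro z hz
    exact Run7.h558.Sq.fderiv_rho_ne hz
  · intro z _
    show ‖z 0‖ ^ 2 + ‖z 1‖ ^ 4 < 1 ↔ ‖z 0‖ ^ 2 + ‖z 1‖ ^ 4 - 1 < 0
    rw [sub_lt_zero]
  · intro q _ hq
    have hq0 : Run7.h558.Sq.rho q = 0 := by
      have hc : Continuous Run7.h558.Sq.rho := Run7.h558.Sq.rho_contDiff.continuous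
      have h1 : frontier Run7.h558.Sq.Ell ⊆ {z | ‖z 0‖ ^ 2 + ‖z 1‖ ^ 4 = 1} := by
        apply frontier_lt_subset_eq
        · fun_prop
        · fun_prop
      have h2 : ‖q 0‖ ^ 2 + ‖q 1‖ ^ 4 = 1 := h1 hq
      show ‖q 0‖ ^ 2 + ‖q 1‖ ^ 4 - 1 = 0
      linarith
    refine ⟨4, fun γ hγ hγ0 hnc => ?_⟩
    exact Run7.h558.Sq.type_bound hq0 hγ hγ0 hnc
  · have hbdd : ∀ ν, ∀ r ∈ {r : ℝ | 0 < r ∧ ∃ F : Cn 2 → Cn 2,
        IsHolEmbedding Run7.h558.Sq.Ell F ∧ MapsTo F Run7.h558.Sq.Ell (ball 0 1) ∧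
        F (Run7.h558.Sq.zseq ν) = 0 ∧ ball 0 r ⊆ F '' Run7.h558.Sq.Ell}, r ≤ 1 := by
      rintro ν r ⟨hr, F, _, hF2, _, hF4⟩
      by_contra hlt
      push Not at hlt
      have h1 : (!₂[1, 0] : Cn 2) ∈ ball (0 : Cn 2) r := by
        rw [mem_ball_zero_iff]
        have h2 : ‖(!₂[1, 0] : Cn 2)‖ ^ 2 = 1 := by
          rw [EuclideanSpace.norm_sq_eq, Fin.sum_univ_two]
          simp
        nlinarith [norm_nonneg (!₂[1, 0] : Cn 2)]
      obtain ⟨x, hx, hxe⟩ := hF4 h1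
      have h2 := hF2 hx
      rw [hxe, mem_ball_zero_iff] at h2
      have h3 : ‖(!₂[1, 0] : Cn 2)‖ ^ 2 = 1 := by
        rw [EuclideanSpace.norm_sq_eq, Fin.sum_univ_two]
        simp
      nlinarith [norm_nonneg (!₂[1, 0] : Cn 2)]
    have hlow : ∀ ν : ℕ, Real.sqrt (1 - 1 / ((ν : ℝ) + 2)) ≤
        squeezing Run7.h558.Sq.Ell (Run7.h558.Sq.zseq ν) := by
      intro ν
      apply le_csSup ⟨1, hbdd ν⟩
      have hib := Run7.h558.Sq.inv_bounds ν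
      have hpos : 0 < 1 - 1 / ((ν : ℝ) + 2) := by linarith
      have ha := Run7.h558.Sq.aseq_abs ν
      have hc := Run7.h558.Sq.cseq_pow ν
      have hc0 := (Run7.h558.Sq.cseq_pos ν).ne'
      have hb0 := Run7.h558.Sq.bseq_pos ν
      have hb1 := Run7.h558.Sq.bseq_lt ν
      have hs : |(Run7.h558.Sq.bseq ν + 1) / 2| < 1 := by
        rw [abs_of_pos (by linarith)]; linarith
      refine ⟨Real.sqrt_pos.2 hpos, Run7.h558.Sq.Fmap (Run7.h558.Sq.aseq ν)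
        (Run7.h558.Sq.cseq ν) ((Run7.h558.Sq.bseq ν + 1) / 2), ?_, ?_, ?_, ?_⟩
      · have hLI := Run7.h558.Sq.LI_F ha hc hc0 hs
        exact ⟨hLI.1, hLI.injOn, hLI.fderiv_inj Run7.h558.Sq.isOpen_ell⟩
      · exact Run7.h558.Sq.F_mapsTo ha hc hs
      · exact Run7.h558.Sq.F_zpt ha hc0
      · apply Run7.h558.Sq.ball_subset_F ha hc hc0 hb0 hb1
        rw [Real.sq_sqrt hpos.le, Run7.h558.Sq.bseq_eq]
    have hup : ∀ ν : ℕ, squeezing Run7.h558.Sq.Ell (Run7.h558.Sq.zseq ν) ≤ 1 := by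
      intro ν
      apply Real.sSup_le (hbdd ν) zero_le_one
    have hlim : Tendsto (fun ν : ℕ => Real.sqrt (1 - 1 / ((ν : ℝ) + 2))) atTop (𝓝 1) := by
      have h1 := ((tendsto_const_nhds (x := (1 : ℝ)) (f := (atTop : Filter ℕ))).sub
        Run7.h558.Sq.tendsto_inv2).sqrt
      rw [sub_zero, Real.sqrt_one] at h1
      exact h1
    exact tendsto_of_tendsto_of_tendsto_of_le_of_le hlim tendsto_const_nhds hlow hup
  · intro h
    have h1 := h (Run7.h558.Sq.tv 1) (by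
      intro h0
      have h1 : (Run7.h558.Sq.tv 1) 1 = (0 : Cn 2) 1 := by rw [h0]
      have h2 : (Run7.h558.Sq.tv 1) 1 = 1 := rfl
      rw [h2] at h1
      simp at h1) (Run7.h558.Sq.fderiv_tv 1)
      (by rw [Run7.h558.Sq.I_smul_tv]; exact Run7.h558.Sq.fderiv_tv _)
    rw [Run7.h558.Sq.I_smul_tv, Run7.h558.Sq.levi_tv, Run7.h558.Sq.levi_tv] at h1
    linarith

end Pool.Agent.Results.MP_63facb_an.EllipsoidTangential
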