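import Pool.Agent.H337R3.Sid7

/-!
Riesz products and the exponential square integrability of sums over quasi-independent sets.
-/

set_option autoImplicit false

open MeasureTheory ProbabilityTheory Finset

namespace Pool.Agent.Run7.h558.SidA

open Pool.Agent.H337R3.Sid

theorem exp_le_cosh_add (r τ : ℝ) (h : |τ| ≤ 1) :
    Real.exp (r * τ) ≤ Real.cosh r + τ * Real.sinh r := by
  obtain ⟨h1, h2⟩ := abs_le.1 h
  have hc := convexOn_exp.2 (Set.mem_univ r) (Set.mem_univ (-r))
    (by linarith : (0 : ℝ) ≤ (1 + τ) / 2) (by linarith : (0 : ℝ) ≤ (1 - τ) / 2) (by ring)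
  simp only [smul_eq_mul] at hc
  have e1 : (1 + τ) / 2 * r + (1 - τ) / 2 * -r = r * τ := by ring
  rw [e1] at hc
  rw [Real.cosh_eq, Real.sinh_eq]
  linarith

section Riesz

variable {Γ X : Type*} [AddCommGroup Γ] [MeasurableSpace X]

structure CharSys (μ : Measure X) (χ : Γ → X → ℂ) : Prop where
  zero : ∀ x, χ 0 x = 1
  add : ∀ m n x, χ (m + n) x = χ m x * χ n x
  meas : ∀ n, Measurable (χ n)
  norm : ∀ n x, ‖χ n x‖ = 1
  int : ∀ n, n ≠ 0 → ∫ x, χ n x ∂μ = 0

variable {μ : Measure X} {χ : Γ → X → ℂ}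

theorem CharSys.neg (h : CharSys μ χ) (n : Γ) (x : X) : χ (-n) x = (starRingEnd ℂ) (χ n x) := by
  have h1 : χ (-n) x * χ n x = 1 := by rw [← h.add, neg_add_cancel, h.zero]
  have h2 : (starRingEnd ℂ) (χ n x) * χ n x = 1 := by
    rw [mul_comm, Complex.mul_conj, Complex.normSq_eq_norm_sq, h.norm]
    simp
  have h3 : χ n x ≠ 0 := by
    intro h0
    have := h.norm n x
    rw [h0, norm_zero] at this
    exact zero_ne_one this
  exact mul_right_cancel₀ h3 (h1.trans h2.symm)

theorem CharSys.sum (h : CharSys μ χ) {ι : Type*} (s : Finset ι) (f : ι → Γ) (x : X) :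
    χ (∑ i ∈ s, f i) x = ∏ i ∈ s, χ (f i) x := by
  classical
  induction s using Finset.induction_on with
  | empty => simp [h.zero]
  | insert a s ha ih => rw [Finset.sum_insert ha, Finset.prod_insert ha, h.add, ih]

theorem riesz [IsProbabilityMeasure μ] (h : CharSys μ χ) (B : Finset Γ) (hB : QI (B : Set Γ))
    (a : Γ → ℂ) :
    ∫ x, Real.exp ((∑ n ∈ B, a n * χ n x).re) ∂μ ≤ Real.exp ((∑ n ∈ B, ‖a n‖ ^ 2) / 2) := by
  classical
  -- unimodular part
  let u : Γ → ℂ := fun n => if a n = 0 then 1 else a n / ‖a n‖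
  have hu : ∀ n, a n = ‖a n‖ * u n := by
    intro n
    by_cases h0 : a n = 0
    · simp [h0]
    · have : (‖a n‖ : ℂ) ≠ 0 := by exact_mod_cast norm_ne_zero_iff.2 h0
      simp only [u, if_neg h0]
      field_simp
  have hu1 : ∀ n, ‖u n‖ = 1 := by
    intro n
    by_cases h0 : a n = 0
    · simp [u, h0]
    · simp only [u, if_neg h0, norm_div, Complex.norm_real, norm_norm]
      exact div_self (norm_ne_zero_iff.2 h0)
  -- the factors
  let w : Γ → ℤ → ℂ := fun n j =>
    if j = 0 then (Real.cosh ‖a n‖ : ℂ) else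
      if j = 1 then (Real.sinh ‖a n‖ : ℂ) * u n / 2 else
        (Real.sinh ‖a n‖ : ℂ) * (starRingEnd ℂ) (u n) / 2
  let T : Finset ℤ := {-1, 0, 1}
  have hfac : ∀ n x, ∑ j ∈ T, w n j * χ (j • n) x =
      ((Real.cosh ‖a n‖ + (u n * χ n x).re * Real.sinh ‖a n‖ : ℝ) : ℂ) := by
    intro n x
    have hT : ∑ j ∈ T, w n j * χ (j • n) x =
        w n (-1) * χ ((-1 : ℤ) • n) x + (w n 0 * χ ((0 : ℤ) • n) x + w n 1 * χ ((1 : ℤ) • n) x) := by
      simp only [T]
      rw [Finset.sum_insert (by decide), Finset.sum_insert (by decide), Finset.sum_singleton]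
    rw [hT]
    have e1 : w n (-1) = (Real.sinh ‖a n‖ : ℂ) * (starRingEnd ℂ) (u n) / 2 := by
      simp [w]
    have e2 : w n 0 = (Real.cosh ‖a n‖ : ℂ) := by simp [w]
    have e3 : w n 1 = (Real.sinh ‖a n‖ : ℂ) * u n / 2 := by simp [w]
    rw [e1, e2, e3, neg_smul, one_smul, zero_smul, h.zero, h.neg]
    have e4 : (((u n * χ n x).re : ℝ) : ℂ) =
        (u n * χ n x + (starRingEnd ℂ) (u n) * (starRingEnd ℂ) (χ n x)) / 2 := by
      rw [← map_mul, Complex.re_eq_add_conj]
    push_cast
    rw [e4]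
    push_cast
    ring
  let P : X → ℝ := fun x => ∏ n ∈ B, (Real.cosh ‖a n‖ + (u n * χ n x).re * Real.sinh ‖a n‖)
  have hle : ∀ x, Real.exp ((∑ n ∈ B, a n * χ n x).re) ≤ P x := by
    intro x
    rw [Complex.re_sum, Real.exp_sum]
    apply Finset.prod_le_prod
    · intro n _; exact (Real.exp_pos _).le
    · intro n _
      have e1 : (a n * χ n x).re = ‖a n‖ * (u n * χ n x).re := by
        conv_lhs => rw [hu n, mul_assoc, Complex.re_ofReal_mul]
      rw [e1]
      apply exp_le_cosh_add
      calc |(u n * χ n x).re| ≤ ‖u n * χ n x‖ := Complex.abs_re_le_norm _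
        _ = 1 := by rw [norm_mul, hu1, h.norm, mul_one]
        _ ≤ 1 := le_refl _
  have hexpand : ∀ x, ((P x : ℝ) : ℂ) = ∑ ξ ∈ Fintype.piFinset (fun _ : B => T),
      (∏ i : B, w i (ξ i)) * χ (∑ i : B, ξ i • (i : Γ)) x := by
    intro x
    simp only [P]
    rw [Complex.ofReal_prod, ← Finset.prod_coe_sort B]
    have : ∀ i : B, ((Real.cosh ‖a i‖ + (u i * χ i x).re * Real.sinh ‖a i‖ : ℝ) : ℂ) =
        ∑ j ∈ T, w i j * χ (j • (i : Γ)) x := fun i => (hfac i x).symm
    rw [Finset.prod_congr rfl (fun i _ => this i), Finset.prod_univ_sum]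
    apply Finset.sum_congr rfl
    intro ξ _
    rw [Finset.prod_mul_distrib, h.sum]
  have hmP : Measurable P := by
    apply Finset.measurable_prod
    intro n _
    apply Measurable.add measurable_const
    apply Measurable.mul _ measurable_const
    exact Complex.measurable_re.comp ((h.meas n).const_mul _)
  have hint : ∀ n, Integrable (fun x => χ n x) μ := by
    intro n
    refine ⟨(h.meas n).aestronglyMeasurable, ?_⟩
    apply HasFiniteIntegral.of_bounded (C := 1)
    filter_upwards with x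
    rw [h.norm]
  have hintP : Integrable (fun x => ((P x : ℝ) : ℂ)) μ := by
    simp_rw [hexpand]
    apply integrable_finsetSum
    intro ξ _
    exact (hint _).const_mul _
  have hPint : ∫ x, P x ∂μ = ∏ n ∈ B, Real.cosh ‖a n‖ := by
    have h1 : ((∫ x, P x ∂μ : ℝ) : ℂ) = ((∏ n ∈ B, Real.cosh ‖a n‖ : ℝ) : ℂ) := by
      rw [← integral_complex_ofReal]
      simp_rw [hexpand]
      rw [integral_finsetSum _ (fun ξ _ => (hint _).const_mul _)]
      simp_rw [integral_const_mul]
      rw [Finset.sum_eq_single (fun _ => 0)]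
      · simp only [zero_smul, Finset.sum_const_zero]
        have : ∀ i : B, w i 0 = (Real.cosh ‖a i‖ : ℂ) := by
          intro i; simp [w]
        simp_rw [this]
        have h2 : ∫ x, χ 0 x ∂μ = 1 := by
          simp_rw [h.zero]
          simp
        rw [h2, mul_one, Complex.ofReal_prod, ← Finset.prod_coe_sort B]
      · intro ξ hξ hne
        rw [h.int, mul_zero]
        intro h0
        apply hne
        rw [Fintype.mem_piFinset] at hξ
        let ξ' : Γ → ℤ := fun n => if hn : n ∈ B then ξ ⟨n, hn⟩ else 0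
        have e1 : ∀ i : B, ξ' i = ξ i := fun i => by simp [ξ']
        have e2 := hB B (Finset.Subset.refl _) ξ' (by
          intro n hn
          have h3 := hξ ⟨n, hn⟩
          have h4 : ξ' n = ξ ⟨n, hn⟩ := e1 ⟨n, hn⟩
          rw [h4]
          simpa [T] using h3) (by
          rw [← Finset.sum_coe_sort B, ← h0]
          apply Finset.sum_congr rfl
          intro i _
          rw [e1])
        funext i
        have h5 := e2 i i.2
        rwa [e1] at h5
      · intro h0
        exfalso
        apply h0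
        rw [Fintype.mem_piFinset]
        intro i
        simp [T]
    exact_mod_cast h1
  have hintP' : Integrable P μ := by
    have := hintP.re
    simpa using this
  calc ∫ x, Real.exp ((∑ n ∈ B, a n * χ n x).re) ∂μ ≤ ∫ x, P x ∂μ := by
        apply integral_mono_of_nonneg
        · filter_upwards with x
          exact (Real.exp_pos _).le
        · exact hintP'
        · filter_upwards with x
          exact hle x
    _ = ∏ n ∈ B, Real.cosh ‖a n‖ := hPint
    _ ≤ ∏ n ∈ B, Real.exp (‖a n‖ ^ 2 / 2) := by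
        apply Finset.prod_le_prod
        · intro n _; exact (Real.cosh_pos _).le
        · intro n _; exact Real.cosh_le_exp_half_sq _
    _ = Real.exp ((∑ n ∈ B, ‖a n‖ ^ 2) / 2) := by
        rw [← Real.exp_sum, Finset.sum_div]

end Riesz

section Gauss

variable {X : Type*} [MeasurableSpace X] {μ : Measure X}

theorem lintegral_exp_gauss (t : ℝ) :
    ∫⁻ g, ENNReal.ofReal (Real.exp (t * g)) ∂(gaussianReal 0 1) =
      ENNReal.ofReal (Real.exp (t ^ 2 / 2)) := by
  rw [← ofReal_integral_eq_lintegral_ofReal (integrable_exp_mul_gaussianReal t)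
    (by filter_upwards with x; exact (Real.exp_pos _).le)]
  congr 1
  have h := congrFun (mgf_id_gaussianReal (μ := 0) (v := 1)) t
  rw [mgf] at h
  simp only [id] at h
  rw [h]
  simp

theorem lintegral_exp_sq_gauss :
    ∫⁻ g, ENNReal.ofReal (Real.exp (g ^ 2 / 4)) ∂(gaussianReal 0 1) =
      ENNReal.ofReal (Real.sqrt 2) := by
  rw [gaussianReal_of_var_ne_zero 0 one_ne_zero,
    lintegral_withDensity_eq_lintegral_mul _ (measurable_gaussianPDF 0 1) (by fun_prop)]
  have h1 : ∀ g : ℝ, (gaussianPDF 0 1 * fun g => ENNReal.ofReal (Real.exp (g ^ 2 / 4))) g =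
      ENNReal.ofReal ((Real.sqrt (2 * Real.pi))⁻¹ * Real.exp (-(1 / 4) * g ^ 2)) := by
    intro g
    rw [Pi.mul_apply, gaussianPDF_def, ← ENNReal.ofReal_mul (gaussianPDFReal_nonneg _ _ _)]
    congr 1
    rw [gaussianPDFReal]
    simp only [NNReal.coe_one, mul_one, sub_zero]
    rw [mul_assoc, ← Real.exp_add]
    congr 2
    ring
  rw [lintegral_congr h1]
  rw [← ofReal_integral_eq_lintegral_ofReal]
  · congr 1
    rw [integral_const_mul, integral_gaussian]
    have hpi : 0 < Real.pi := Real.pi_pos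
    rw [← Real.sqrt_inv, ← Real.sqrt_mul (by positivity)]
    congr 1
    field_simp
    ring
  · exact (integrable_exp_neg_mul_sq (by norm_num)).const_mul _
  · filter_upwards with x
    positivity

theorem exp_sq [IsProbabilityMeasure μ] (f : X → ℝ) (hf : Measurable f) (M : ℝ)
    (hM : ∀ x, |f x| ≤ M) (σ : ℝ) (hσ : 0 < σ)
    (h : ∀ s : ℝ, ∫ x, Real.exp (s * f x) ∂μ ≤ Real.exp (s ^ 2 * σ / 2)) :
    ∫⁻ x, ENNReal.ofReal (Real.exp (f x ^ 2 / (4 * σ))) ∂μ ≤ ENNReal.ofReal (Real.sqrt 2) := by
  set c : ℝ := Real.sqrt (1 / (2 * σ)) with hc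
  have hc2 : c ^ 2 = 1 / (2 * σ) := Real.sq_sqrt (by positivity)
  have h1 : ∀ x, ENNReal.ofReal (Real.exp (f x ^ 2 / (4 * σ))) =
      ∫⁻ g, ENNReal.ofReal (Real.exp ((c * f x) * g)) ∂(gaussianReal 0 1) := by
    intro x
    rw [lintegral_exp_gauss]
    congr 2
    rw [mul_pow, hc2]
    field_simp
    ring
  rw [lintegral_congr h1, lintegral_lintegral_swap]
  · have h2 : ∀ g : ℝ, ∫⁻ x, ENNReal.ofReal (Real.exp ((c * f x) * g)) ∂μ ≤
        ENNReal.ofReal (Real.exp (g ^ 2 / 4)) := by
      intro g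
      rw [← ofReal_integral_eq_lintegral_ofReal]
      · apply ENNReal.ofReal_le_ofReal
        have h3 := h (c * g)
        have h4 : (c * g) ^ 2 * σ / 2 = g ^ 2 / 4 := by
          rw [mul_pow, hc2]
          field_simp
          ring
        rw [h4] at h3
        refine le_trans (le_of_eq ?_) h3
        congr 1
        funext x
        congr 1
        ring
      · refine ⟨by fun_prop, ?_⟩
        apply HasFiniteIntegral.of_bounded (C := Real.exp (|c| * M * |g|))
        filter_upwards with x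
        rw [Real.norm_eq_abs, abs_of_pos (Real.exp_pos _)]
        apply Real.exp_le_exp.2
        calc c * f x * g ≤ |c * f x * g| := le_abs_self _
          _ = |c| * |f x| * |g| := by rw [abs_mul, abs_mul]
          _ ≤ |c| * M * |g| := by
            apply mul_le_mul_of_nonneg_right _ (abs_nonneg _)
            exact mul_le_mul_of_nonneg_left (hM x) (abs_nonneg _)
      · filter_upwards with x
        exact (Real.exp_pos _).le
    calc _ ≤ ∫⁻ g, ENNReal.ofReal (Real.exp (g ^ 2 / 4)) ∂(gaussianReal 0 1) := lintegral_mono h2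
      _ = _ := lintegral_exp_sq_gauss
  · apply Measurable.aemeasurable
    apply ENNReal.measurable_ofReal.comp
    apply Real.measurable_exp.comp
    exact ((hf.comp measurable_fst).const_mul c).mul measurable_snd

end Gauss

end Pool.Agent.Run7.h558.SidA
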