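import Mathlib

/-!
# Explicit maps for the ellipsoid `|z₀|² + |z₁|⁴ < 1`
-/

set_option autoImplicit false
open Metric Filter Topology Set

namespace Pool.Agent.Run7.h558.Sq

/-- `ℂⁿ` with the Euclidean norm. -/
abbrev Cn (n : ℕ) := EuclideanSpace ℂ (Fin n)

/-- The ellipsoid. -/
def Ell : Set (Cn 2) := {z | ‖z 0‖ ^ 2 + ‖z 1‖ ^ 4 < 1}

theorem normSq_two (z : Cn 2) : ‖z‖ ^ 2 = ‖z 0‖ ^ 2 + ‖z 1‖ ^ 2 := by
  rw [EuclideanSpace.norm_sq_eq, Fin.sum_univ_two]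

theorem mem_ball_iff' (z : Cn 2) : z ∈ ball (0 : Cn 2) 1 ↔ ‖z 0‖ ^ 2 + ‖z 1‖ ^ 2 < 1 := by
  rw [mem_ball_zero_iff, ← normSq_two, sq_lt_one_iff₀ (norm_nonneg _)]

theorem mk2_zero (x y : ℂ) : (!₂[x, y] : Cn 2) 0 = x := rfl
theorem mk2_one (x y : ℂ) : (!₂[x, y] : Cn 2) 1 = y := rfl

theorem ext2 {z w : Cn 2} (h0 : z 0 = w 0) (h1 : z 1 = w 1) : z = w := by
  ext i; fin_cases i
  · exact h0
  · exact h1

/-- Basic identity. -/
theorem key_identity (s : ℝ) (z : ℂ) :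
    ‖z - s‖ ^ 2 = ‖1 - s * z‖ ^ 2 - (1 - s ^ 2) * (1 - ‖z‖ ^ 2) := by
  rw [← Complex.normSq_eq_norm_sq, ← Complex.normSq_eq_norm_sq, ← Complex.normSq_eq_norm_sq]
  simp only [Complex.normSq_apply, Complex.sub_re, Complex.sub_im, Complex.mul_re, Complex.mul_im,
    Complex.ofReal_re, Complex.ofReal_im, Complex.one_re, Complex.one_im]
  ring

theorem one_sub_ne {s : ℝ} (hs : |s| < 1) {z : ℂ} (hz : ‖z‖ < 1) : (1 : ℂ) - s * z ≠ 0 := by
  intro h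
  have h1 : ‖(s : ℂ) * z‖ = 1 := by
    have : (s : ℂ) * z = 1 := by linear_combination -h
    rw [this]; simp
  rw [norm_mul, Complex.norm_real, Real.norm_eq_abs] at h1
  have h2 : |s| * ‖z‖ < 1 := by
    calc |s| * ‖z‖ ≤ |s| * 1 := by gcongr
      _ < 1 := by linarith
  linarith

theorem one_sub_re_pos {s : ℝ} (hs : |s| < 1) {z : ℂ} (hz : ‖z‖ < 1) :
    0 < ((1 : ℂ) - s * z).re := by
  have h1 : ‖(s : ℂ) * z‖ < 1 := by
    rw [norm_mul, Complex.norm_real, Real.norm_eq_abs]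
    calc |s| * ‖z‖ ≤ |s| * 1 := by gcongr
      _ < 1 := by linarith
  have h2 := Complex.re_le_norm ((s : ℂ) * z)
  simp only [Complex.sub_re, Complex.one_re]
  linarith

/-- The holomorphic square root of `1 - a x`. -/
noncomputable def sr (a : ℝ) (x : ℂ) : ℂ := Complex.exp (Complex.log (1 - a * x) / 2)

theorem sr_sq {a : ℝ} {x : ℂ} (h : (1 : ℂ) - a * x ≠ 0) : sr a x ^ 2 = 1 - a * x := by
  unfold sr
  rw [← Complex.exp_nat_mul]
  push_cast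
  rw [mul_div_cancel₀ _ (two_ne_zero), Complex.exp_log h]

theorem sr_ne (a : ℝ) (x : ℂ) : sr a x ≠ 0 := Complex.exp_ne_zero _

theorem sr_diff {a : ℝ} (ha : |a| < 1) {x : ℂ} (hx : ‖x‖ < 1) : DifferentiableAt ℂ (sr a) x := by
  unfold sr
  have h1 : (1 : ℂ) - a * x ∈ Complex.slitPlane := by
    left; exact one_sub_re_pos ha hx
  have h2 : DifferentiableAt ℂ (fun y : ℂ => (1 : ℂ) - a * y) x := by fun_prop
  have h3 : DifferentiableAt ℂ (fun y : ℂ => Complex.log (1 - a * y)) x :=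
    DifferentiableAt.comp x (g := Complex.log) (f := fun y : ℂ => (1 : ℂ) - a * y)
      (Complex.differentiableAt_log h1) h2
  exact (h3.div_const 2).cexp

theorem sr_norm {a : ℝ} {x : ℂ} (h : (1 : ℂ) - a * x ≠ 0) : ‖sr a x‖ ^ 2 = ‖1 - a * x‖ := by
  rw [← norm_pow, sr_sq h]

/-- A map with a holomorphic left inverse. -/
def LI (D : Set (Cn 2)) (F L : Cn 2 → Cn 2) : Prop :=
  DifferentiableOn ℂ F D ∧ (∀ x ∈ D, DifferentiableAt ℂ L (F x)) ∧ ∀ x ∈ D, L (F x) = x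

theorem LI.comp {D D' : Set (Cn 2)} {F L F' L' : Cn 2 → Cn 2} (h : LI D F L) (h' : LI D' F' L')
    (hm : MapsTo F D D') : LI D (F' ∘ F) (L ∘ L') := by
  obtain ⟨h1, h2, h3⟩ := h
  obtain ⟨h1', h2', h3'⟩ := h'
  refine ⟨h1'.comp h1 hm, ?_, ?_⟩
  · intro x hx
    apply DifferentiableAt.comp
    · simp only [Function.comp]
      rw [h3' _ (hm hx)]
      exact h2 x hx
    · exact h2' _ (hm hx)
  · intro x hx
    simp only [Function.comp]
    rw [h3' _ (hm hx), h3 _ hx]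

theorem LI.injOn {D : Set (Cn 2)} {F L : Cn 2 → Cn 2} (h : LI D F L) : InjOn F D := by
  intro x hx y hy hxy
  rw [← h.2.2 x hx, hxy, h.2.2 y hy]

theorem LI.fderiv_inj {D : Set (Cn 2)} (hD : IsOpen D) {F L : Cn 2 → Cn 2} (h : LI D F L) :
    ∀ x ∈ D, Function.Injective (fderiv ℂ F x) := by
  intro x hx
  have hF : DifferentiableAt ℂ F x := (h.1 x hx).differentiableAt (hD.mem_nhds hx)
  have hL := h.2.1 x hx
  have h1 : fderiv ℂ (L ∘ F) x = (fderiv ℂ L (F x)).comp (fderiv ℂ F x) :=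
    fderiv_comp x hL hF
  have h2 : (L ∘ F) =ᶠ[𝓝 x] id := by
    filter_upwards [hD.mem_nhds hx] with y hy
    exact h.2.2 y hy
  have h3 : fderiv ℂ (L ∘ F) x = ContinuousLinearMap.id ℂ (Cn 2) := by
    rw [h2.fderiv_eq, fderiv_id]
  have h4 : Function.LeftInverse (fderiv ℂ L (F x)) (fderiv ℂ F x) := by
    intro v
    have : ((fderiv ℂ L (F x)).comp (fderiv ℂ F x)) v = v := by
      rw [← h1, h3]; rfl
    exact this
  exact h4.injective

/-! ### Scalar algebra -/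

theorem alg1 (a x : ℂ) (h : 1 - a * x ≠ 0) (h2 : 1 - a ^ 2 ≠ 0) :
    ((x - a) / (1 - a * x) + a) / (1 + a * ((x - a) / (1 - a * x))) = x := by
  have h3 : (x - a) / (1 - a * x) + a = (x * (1 - a ^ 2)) / (1 - a * x) := by
    rw [div_add' _ _ _ h]; congr 1; ring
  have h4 : 1 + a * ((x - a) / (1 - a * x)) = (1 - a ^ 2) / (1 - a * x) := by
    apply eq_div_of_mul_eq h
    rw [add_mul, mul_assoc, div_mul_cancel₀ _ h]; ring
  rw [h3, h4, div_div_div_cancel_right₀ h, mul_div_cancel_right₀ _ h2]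

theorem alg2 (a x : ℂ) (h : 1 + a * x ≠ 0) (h2 : 1 - a ^ 2 ≠ 0) :
    ((x + a) / (1 + a * x) - a) / (1 - a * ((x + a) / (1 + a * x))) = x := by
  have := alg1 (-a) x (by simpa using h) (by simpa using h2)
  simp only [neg_mul, sub_neg_eq_add] at this
  simpa [sub_eq_add_neg] using this

theorem alg3 (s x : ℂ) (h : 1 - s * x ≠ 0) :
    1 + s * ((x - s) / (1 - s * x)) = (1 - s ^ 2) / (1 - s * x) := by
  apply eq_div_of_mul_eq h
  rw [add_mul, mul_assoc, div_mul_cancel₀ _ h]; ring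

/-! ### The maps -/

/-- Automorphism-like map of the ellipsoid. -/
noncomputable def Phi (a c : ℝ) (z : Cn 2) : Cn 2 :=
  !₂[(z 0 - a) / (1 - a * z 0), c * z 1 / sr a (z 0)]

/-- Inverse of `Phi`. -/
noncomputable def Psi (a c : ℝ) (w : Cn 2) : Cn 2 :=
  !₂[(w 0 + a) / (1 + a * w 0), (w 1 / c) * sr a ((w 0 + a) / (1 + a * w 0))]

/-- Affine map of the ellipsoid into the ball. -/
noncomputable def iot (w : Cn 2) : Cn 2 := !₂[w 0 / 2, (w 1 + 1) / 2]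

/-- Inverse of `iot`. -/
noncomputable def iotInv (w : Cn 2) : Cn 2 := !₂[2 * w 0, 2 * w 1 - 1]

/-- Automorphism of the ball. -/
noncomputable def aut (s : ℝ) (w : Cn 2) : Cn 2 :=
  !₂[(Real.sqrt (1 - s ^ 2) : ℂ) * w 0 / (1 - s * w 1), (w 1 - s) / (1 - s * w 1)]

theorem ell_norm0 {z : Cn 2} (hz : z ∈ Ell) : ‖z 0‖ < 1 := by
  have h : ‖z 0‖ ^ 2 + ‖z 1‖ ^ 4 < 1 := hz
  have h1 : 0 ≤ ‖z 1‖ ^ 4 := by positivity
  have h2 : ‖z 0‖ ^ 2 < 1 := by linarith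
  exact (sq_lt_one_iff₀ (norm_nonneg _)).1 h2

theorem ball_norm1 {z : Cn 2} (hz : z ∈ ball (0 : Cn 2) 1) : ‖z 1‖ < 1 := by
  rw [mem_ball_iff'] at hz
  have h1 : 0 ≤ ‖z 0‖ ^ 2 := by positivity
  have h2 : ‖z 1‖ ^ 2 < 1 := by linarith
  exact (sq_lt_one_iff₀ (norm_nonneg _)).1 h2

theorem isOpen_ell : IsOpen Ell := by
  apply isOpen_lt
  · fun_prop
  · fun_prop

theorem one_add_ne {s : ℝ} (hs : |s| < 1) {z : ℂ} (hz : ‖z‖ < 1) : (1 : ℂ) + s * z ≠ 0 := by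
  have := one_sub_ne (s := -s) (by simpa using hs) hz
  push_cast at this
  simpa using this

theorem psi_phi {a c : ℝ} (ha : |a| < 1) (hc : c ≠ 0) {z : Cn 2} (hz : ‖z 0‖ < 1) :
    Psi a c (Phi a c z) = z := by
  have h1 := one_sub_ne ha hz
  have ha2 : (1 : ℂ) - a ^ 2 ≠ 0 := by
    have : (1 : ℝ) - a ^ 2 ≠ 0 := by
      have := (sq_lt_one_iff_abs_lt_one a).2 ha
      linarith
    exact_mod_cast this
  have hx : ((Phi a c z) 0 + a) / (1 + a * (Phi a c z) 0) = z 0 := by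
    simp only [Phi, mk2_zero]
    exact alg1 _ _ h1 ha2
  apply ext2
  · simp only [Psi, mk2_zero]
    exact hx
  · simp only [Psi, mk2_one]
    rw [hx]
    simp only [Phi, mk2_one]
    have hc' : (c : ℂ) ≠ 0 := by exact_mod_cast hc
    have := sr_ne a (z 0)
    rw [div_right_comm, div_mul_cancel₀ _ this, mul_div_cancel_left₀ _ hc']

theorem phi_psi {a c : ℝ} (ha : |a| < 1) (hc : c ≠ 0) {w : Cn 2} (hw : ‖w 0‖ < 1) :
    Phi a c (Psi a c w) = w := by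
  have h1 := one_add_ne ha hw
  have ha2 : (1 : ℂ) - a ^ 2 ≠ 0 := by
    have : (1 : ℝ) - a ^ 2 ≠ 0 := by
      have := (sq_lt_one_iff_abs_lt_one a).2 ha
      linarith
    exact_mod_cast this
  apply ext2
  · simp only [Psi, Phi, mk2_zero]
    exact alg2 _ _ h1 ha2
  · simp only [Psi, Phi, mk2_one, mk2_zero]
    have hc' : (c : ℂ) ≠ 0 := by exact_mod_cast hc
    have := sr_ne a ((w 0 + a) / (1 + a * w 0))
    rw [← mul_assoc, mul_div_cancel_right₀ _ this, mul_div_cancel₀ _ hc']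

theorem iotInv_iot (w : Cn 2) : iotInv (iot w) = w := by
  apply ext2
  · simp only [iot, iotInv, mk2_zero]; ring
  · simp only [iot, iotInv, mk2_one]; ring

theorem iot_iotInv (w : Cn 2) : iot (iotInv w) = w := by
  apply ext2
  · simp only [iot, iotInv, mk2_zero]; ring
  · simp only [iot, iotInv, mk2_one]; ring

theorem aut_aut {s : ℝ} (hs : |s| < 1) {w : Cn 2} (hw : ‖w 1‖ < 1) :
    aut (-s) (aut s w) = w := by
  have h1 := one_sub_ne hs hw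
  have hs2 : (0 : ℝ) < 1 - s ^ 2 := by
    have := (sq_lt_one_iff_abs_lt_one s).2 hs
    linarith
  have ha2 : (1 : ℂ) - s ^ 2 ≠ 0 := by
    have : (1 : ℝ) - s ^ 2 ≠ 0 := hs2.ne'
    exact_mod_cast this
  have hsq : (Real.sqrt (1 - s ^ 2) : ℂ) ^ 2 = 1 - s ^ 2 := by
    rw [← Complex.ofReal_pow, Real.sq_sqrt hs2.le]; push_cast; ring
  have h2 : (1 : ℂ) - ((-s : ℝ) : ℂ) * ((w 1 - s) / (1 - s * w 1)) =
      (1 - s ^ 2) / (1 - s * w 1) := by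
    push_cast
    rw [← alg3 _ _ h1]; ring
  apply ext2
  · simp only [aut, mk2_zero, mk2_one]
    rw [h2, neg_sq, ← mul_div_assoc, div_div_div_cancel_right₀ h1, ← mul_assoc, ← sq, hsq,
      mul_div_cancel_left₀ _ ha2]
  · simp only [aut, mk2_one]
    push_cast
    have := alg1 (s : ℂ) (w 1) h1 ha2
    rw [sub_neg_eq_add, neg_mul, sub_neg_eq_add]
    exact this

/-- The defect identity for `Phi`. -/
theorem phi_defect {a c : ℝ} (ha : |a| < 1) (hc : c ^ 4 = 1 - a ^ 2) {z : Cn 2}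
    (hz : ‖z 0‖ < 1) :
    1 - ‖(Phi a c z) 0‖ ^ 2 - ‖(Phi a c z) 1‖ ^ 4 =
      (1 - a ^ 2) * (1 - ‖z 0‖ ^ 2 - ‖z 1‖ ^ 4) / ‖1 - a * z 0‖ ^ 2 := by
  have h1 := one_sub_ne ha hz
  have h1' : ‖1 - a * z 0‖ ≠ 0 := norm_ne_zero_iff.2 h1
  simp only [Phi, mk2_zero, mk2_one]
  rw [norm_div, norm_div, norm_mul, div_pow, div_pow, key_identity]
  have h3 : ‖sr a (z 0)‖ ^ 4 = ‖1 - a * z 0‖ ^ 2 := by
    rw [← sr_norm h1]; ring
  rw [h3, mul_pow, Complex.norm_real, Real.norm_eq_abs]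
  have h4 : |c| ^ 4 = 1 - a ^ 2 := by
    rw [← hc]
    have : |c| ^ 4 = (|c| ^ 2) ^ 2 := by ring
    rw [this, sq_abs]; ring
  rw [h4]
  field_simp
  ring

theorem psi_norm0 {a c : ℝ} (ha : |a| < 1) {w : Cn 2} (hw : ‖w 0‖ < 1) :
    ‖(Psi a c w) 0‖ < 1 := by
  have h1 := one_add_ne ha hw
  have h1' : 0 < ‖1 + a * w 0‖ := norm_pos_iff.2 h1
  have hs2 : (0 : ℝ) < 1 - a ^ 2 := by
    have := (sq_lt_one_iff_abs_lt_one a).2 ha
    linarith
  simp only [Psi, mk2_zero]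
  rw [norm_div, div_lt_one h1']
  have h2 := key_identity (-a) (w 0)
  push_cast at h2
  rw [sub_neg_eq_add, neg_mul, sub_neg_eq_add, neg_sq] at h2
  have h3 : 0 < (1 - a ^ 2) * (1 - ‖w 0‖ ^ 2) := by
    apply mul_pos hs2
    have := (sq_lt_one_iff₀ (norm_nonneg (w 0))).2 hw
    linarith
  exact lt_of_pow_lt_pow_left₀ 2 (norm_nonneg _) (by linarith)

theorem phi_mapsTo {a c : ℝ} (ha : |a| < 1) (hc : c ^ 4 = 1 - a ^ 2) :
    MapsTo (Phi a c) Ell Ell := by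
  intro z hz
  have h0 := ell_norm0 hz
  have h := phi_defect ha hc h0
  have h1 := one_sub_ne ha h0
  have h1' : 0 < ‖1 - a * z 0‖ := norm_pos_iff.2 h1
  have hs2 : (0 : ℝ) < 1 - a ^ 2 := by
    have := (sq_lt_one_iff_abs_lt_one a).2 ha
    linarith
  have hz' : ‖z 0‖ ^ 2 + ‖z 1‖ ^ 4 < 1 := hz
  have h2 : 0 < (1 - a ^ 2) * (1 - ‖z 0‖ ^ 2 - ‖z 1‖ ^ 4) / ‖1 - a * z 0‖ ^ 2 := by
    apply div_pos _ (by positivity)
    apply mul_pos hs2
    linarith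
  show ‖(Phi a c z) 0‖ ^ 2 + ‖(Phi a c z) 1‖ ^ 4 < 1
  linarith

theorem psi_mapsTo {a c : ℝ} (ha : |a| < 1) (hc : c ^ 4 = 1 - a ^ 2) (hc0 : c ≠ 0) :
    MapsTo (Psi a c) Ell Ell := by
  intro w hw
  have h0 := ell_norm0 hw
  have hz0 := psi_norm0 (c := c) ha h0
  have h := phi_defect ha hc hz0
  rw [phi_psi ha hc0 h0] at h
  have h1 := one_sub_ne ha hz0
  have h1' : 0 < ‖1 - a * (Psi a c w) 0‖ := norm_pos_iff.2 h1
  have hs2 : (0 : ℝ) < 1 - a ^ 2 := by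
    have := (sq_lt_one_iff_abs_lt_one a).2 ha
    linarith
  have hw' : ‖w 0‖ ^ 2 + ‖w 1‖ ^ 4 < 1 := hw
  have h2 : 0 < (1 - a ^ 2) * (1 - ‖(Psi a c w) 0‖ ^ 2 - ‖(Psi a c w) 1‖ ^ 4) /
      ‖1 - a * (Psi a c w) 0‖ ^ 2 := by
    rw [← h]; linarith
  have h3 : 0 < (1 - a ^ 2) * (1 - ‖(Psi a c w) 0‖ ^ 2 - ‖(Psi a c w) 1‖ ^ 4) := by
    rcases div_pos_iff.1 h2 with h5 | h5
    · exact h5.1
    · have : 0 ≤ ‖1 - a * (Psi a c w) 0‖ ^ 2 := by positivity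
      linarith [h5.2]
  have h4 := (pos_iff_pos_of_mul_pos h3).1 hs2
  show ‖(Psi a c w) 0‖ ^ 2 + ‖(Psi a c w) 1‖ ^ 4 < 1
  linarith

theorem iot_mapsTo : MapsTo iot Ell (ball (0 : Cn 2) 1) := by
  intro w hw
  rw [mem_ball_iff']
  have hw' : ‖w 0‖ ^ 2 + ‖w 1‖ ^ 4 < 1 := hw
  simp only [iot, mk2_zero, mk2_one]
  rw [norm_div, norm_div, div_pow, div_pow]
  have h2 : ‖(2 : ℂ)‖ = 2 := by simp
  rw [h2]
  have h3 : ‖w 1 + 1‖ ≤ ‖w 1‖ + 1 := by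
    calc ‖w 1 + 1‖ ≤ ‖w 1‖ + ‖(1 : ℂ)‖ := norm_add_le _ _
      _ = ‖w 1‖ + 1 := by simp
  have h4 : ‖w 1 + 1‖ ^ 2 ≤ (‖w 1‖ + 1) ^ 2 := by gcongr
  have h5 : 0 ≤ (‖w 1‖ - 1) ^ 2 * (‖w 1‖ ^ 2 + 2 * ‖w 1‖ + 2) := by positivity
  nlinarith

/-- The defect identity for `aut`. -/
theorem aut_defect {s : ℝ} (hs : |s| < 1) {w : Cn 2} (hw : ‖w 1‖ < 1) :
    1 - (‖(aut s w) 0‖ ^ 2 + ‖(aut s w) 1‖ ^ 2) =
      (1 - s ^ 2) * (1 - (‖w 0‖ ^ 2 + ‖w 1‖ ^ 2)) / ‖1 - s * w 1‖ ^ 2 := by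
  have h1 := one_sub_ne hs hw
  have h1' : ‖1 - s * w 1‖ ≠ 0 := norm_ne_zero_iff.2 h1
  have hs2 : (0 : ℝ) < 1 - s ^ 2 := by
    have := (sq_lt_one_iff_abs_lt_one s).2 hs
    linarith
  simp only [aut, mk2_zero, mk2_one]
  rw [norm_div, norm_div, norm_mul, div_pow, div_pow, key_identity, mul_pow, Complex.norm_real,
    Real.norm_eq_abs, sq_abs, Real.sq_sqrt hs2.le]
  field_simp
  ring

theorem aut_mapsTo {s : ℝ} (hs : |s| < 1) : MapsTo (aut s) (ball (0 : Cn 2) 1) (ball 0 1) := by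
  intro w hw
  have h0 := ball_norm1 hw
  have h := aut_defect hs h0
  rw [mem_ball_iff'] at hw ⊢
  have h1 := one_sub_ne hs h0
  have h1' : 0 < ‖1 - s * w 1‖ := norm_pos_iff.2 h1
  have hs2 : (0 : ℝ) < 1 - s ^ 2 := by
    have := (sq_lt_one_iff_abs_lt_one s).2 hs
    linarith
  have h2 : 0 < (1 - s ^ 2) * (1 - (‖w 0‖ ^ 2 + ‖w 1‖ ^ 2)) / ‖1 - s * w 1‖ ^ 2 := by
    apply div_pos _ (by positivity)
    apply mul_pos hs2
    linarith
  linarith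

/-! ### Differentiability -/

theorem diff_mk2 {f g : Cn 2 → ℂ} {x : Cn 2} (hf : DifferentiableAt ℂ f x)
    (hg : DifferentiableAt ℂ g x) : DifferentiableAt ℂ (fun z => (!₂[f z, g z] : Cn 2)) x := by
  rw [differentiableAt_euclidean]
  intro i
  fin_cases i
  · exact hf
  · exact hg

theorem diff_coord (i : Fin 2) (x : Cn 2) : DifferentiableAt ℂ (fun z : Cn 2 => z i) x := by
  have := (differentiableAt_euclidean (𝕜 := ℂ) (f := fun z : Cn 2 => z) (y := x)).1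
    differentiableAt_id
  exact this i

theorem diff_div {f g : Cn 2 → ℂ} {x : Cn 2} (hf : DifferentiableAt ℂ f x)
    (hg : DifferentiableAt ℂ g x) (h : g x ≠ 0) : DifferentiableAt ℂ (fun z => f z / g z) x := by
  have h1 : DifferentiableAt ℂ (fun z => (g z)⁻¹) x :=
    DifferentiableAt.comp x (g := fun y : ℂ => y⁻¹) (f := g) (differentiableAt_inv h) hg
  have h2 : (fun z => f z / g z) = fun z => f z * (g z)⁻¹ := by
    funext z; rw [div_eq_mul_inv]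
  rw [h2]
  exact hf.mul h1

theorem diff_sr {a : ℝ} (ha : |a| < 1) {g : Cn 2 → ℂ} {x : Cn 2}
    (hg : DifferentiableAt ℂ g x) (h : ‖g x‖ < 1) : DifferentiableAt ℂ (fun z => sr a (g z)) x :=
  DifferentiableAt.comp x (g := sr a) (f := g) (sr_diff ha h) hg

theorem phi_diff {a c : ℝ} (ha : |a| < 1) {x : Cn 2} (hx : ‖x 0‖ < 1) :
    DifferentiableAt ℂ (Phi a c) x := by
  unfold Phi
  have h1 := one_sub_ne ha hx
  have e0 := diff_coord 0 x
  have e1 := diff_coord 1 x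
  apply diff_mk2
  · apply diff_div
    · exact e0.sub_const _
    · exact (differentiableAt_const _).sub (e0.const_mul _)
    · exact h1
  · apply diff_div
    · exact e1.const_mul _
    · exact diff_sr ha e0 hx
    · exact sr_ne _ _

theorem psi_diff {a c : ℝ} (ha : |a| < 1) (hc : c ≠ 0) {x : Cn 2} (hx : ‖x 0‖ < 1) :
    DifferentiableAt ℂ (Psi a c) x := by
  have h2 := psi_norm0 (c := c) ha hx
  simp only [Psi, mk2_zero] at h2
  unfold Psi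
  have h1 := one_add_ne ha hx
  have e0 := diff_coord 0 x
  have e1 := diff_coord 1 x
  have e3 : DifferentiableAt ℂ (fun w : Cn 2 => (w 0 + a) / (1 + a * w 0)) x := by
    apply diff_div
    · exact e0.add_const _
    · exact (differentiableAt_const _).add (e0.const_mul _)
    · exact h1
  have hc' : (c : ℂ) ≠ 0 := by exact_mod_cast hc
  apply diff_mk2
  · exact e3
  · exact (diff_div e1 (differentiableAt_const (c : ℂ)) hc').mul (diff_sr ha e3 h2)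

theorem iot_diff (x : Cn 2) : DifferentiableAt ℂ iot x := by
  unfold iot
  exact diff_mk2 (diff_div (diff_coord 0 x) (differentiableAt_const (2 : ℂ)) two_ne_zero)
    (diff_div ((diff_coord 1 x).add_const _) (differentiableAt_const (2 : ℂ)) two_ne_zero)

theorem iotInv_diff (x : Cn 2) : DifferentiableAt ℂ iotInv x := by
  unfold iotInv
  exact diff_mk2 ((diff_coord 0 x).const_mul _) (((diff_coord 1 x).const_mul _).sub_const _)

theorem aut_diff {s : ℝ} (hs : |s| < 1) {x : Cn 2} (hx : ‖x 1‖ < 1) :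
    DifferentiableAt ℂ (aut s) x := by
  unfold aut
  have h1 := one_sub_ne hs hx
  have e0 := diff_coord 0 x
  have e1 := diff_coord 1 x
  have e2 : DifferentiableAt ℂ (fun w : Cn 2 => (1 : ℂ) - s * w 1) x :=
    (differentiableAt_const _).sub (e1.const_mul _)
  apply diff_mk2
  · exact diff_div (e0.const_mul _) e2 h1
  · exact diff_div (e1.sub_const _) e2 h1

theorem LI_phi {a c : ℝ} (ha : |a| < 1) (hc : c ^ 4 = 1 - a ^ 2) (hc0 : c ≠ 0) :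
    LI Ell (Phi a c) (Psi a c) := by
  refine ⟨?_, ?_, ?_⟩
  · intro x hx
    exact (phi_diff ha (ell_norm0 hx)).differentiableWithinAt
  · intro x hx
    exact psi_diff ha hc0 (ell_norm0 (phi_mapsTo ha hc hx))
  · intro x hx
    exact psi_phi ha hc0 (ell_norm0 hx)

theorem LI_iot : LI Ell iot iotInv :=
  ⟨fun x _ => (iot_diff x).differentiableWithinAt, fun _ _ => iotInv_diff _, fun x _ => iotInv_iot x⟩

theorem LI_aut {s : ℝ} (hs : |s| < 1) : LI (ball 0 1) (aut s) (aut (-s)) := by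
  have hs' : |-s| < 1 := by simpa using hs
  refine ⟨?_, ?_, ?_⟩
  · intro x hx
    exact (aut_diff hs (ball_norm1 hx)).differentiableWithinAt
  · intro x hx
    exact aut_diff hs' (ball_norm1 (aut_mapsTo hs hx))
  · intro x hx
    exact aut_aut hs (ball_norm1 hx)

/-- The composite embedding. -/
noncomputable def Fmap (a c s : ℝ) : Cn 2 → Cn 2 := aut s ∘ (iot ∘ Phi a c)

/-- Its inverse. -/
noncomputable def Gmap (a c s : ℝ) : Cn 2 → Cn 2 := (Psi a c ∘ iotInv) ∘ aut (-s)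

theorem LI_F {a c s : ℝ} (ha : |a| < 1) (hc : c ^ 4 = 1 - a ^ 2) (hc0 : c ≠ 0) (hs : |s| < 1) :
    LI Ell (Fmap a c s) (Gmap a c s) := by
  have h1 := (LI_phi ha hc hc0).comp LI_iot (phi_mapsTo ha hc)
  exact h1.comp (LI_aut hs) (iot_mapsTo.comp (phi_mapsTo ha hc))

theorem F_mapsTo {a c s : ℝ} (ha : |a| < 1) (hc : c ^ 4 = 1 - a ^ 2) (hs : |s| < 1) :
    MapsTo (Fmap a c s) Ell (ball 0 1) :=
  (aut_mapsTo hs).comp (iot_mapsTo.comp (phi_mapsTo ha hc))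

/-- The base point. -/
noncomputable def zpt (a c b : ℝ) : Cn 2 := Psi a c !₂[0, (b : ℂ)]

theorem F_zpt {a c b : ℝ} (ha : |a| < 1) (hc0 : c ≠ 0) :
    Fmap a c ((b + 1) / 2) (zpt a c b) = 0 := by
  have h : Phi a c (zpt a c b) = !₂[0, (b : ℂ)] := by
    unfold zpt
    exact phi_psi ha hc0 (by rw [mk2_zero]; simp)
  simp only [Fmap, Function.comp, h]
  apply ext2
  · simp only [aut, iot, mk2_zero, mk2_one]
    simp
  · simp only [aut, iot, mk2_zero, mk2_one]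
    push_cast
    simp

/-- The core inclusion estimate. -/
theorem iotInv_aut_mem {b : ℝ} (hb0 : 0 < b) (hb1 : b < 1) {η : Cn 2}
    (hη : ‖η 0‖ ^ 2 + ‖η 1‖ ^ 2 < 1 - 42 * (1 - b)) :
    iotInv (aut (-((b + 1) / 2)) η) ∈ Ell := by
  set s : ℝ := (b + 1) / 2 with hs
  have hs0 : 0 < s := by rw [hs]; linarith
  have hs1 : s < 1 := by rw [hs]; linarith
  have hsabs : |(-s)| < 1 := by rw [abs_neg, abs_of_pos hs0]; exact hs1
  have hη1 : ‖η 1‖ < 1 := by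
    have h1 : 0 ≤ ‖η 0‖ ^ 2 := by positivity
    have h2 : ‖η 1‖ ^ 2 < 1 := by nlinarith
    exact (sq_lt_one_iff₀ (norm_nonneg _)).1 h2
  have hηb : η ∈ ball (0 : Cn 2) 1 := by
    rw [mem_ball_iff']; nlinarith
  have hdef := aut_defect hsabs hη1
  have hζb := aut_mapsTo hsabs hηb
  have hζ1 := ball_norm1 hζb
  set ζ := aut (-s) η with hζ
  have hne := one_sub_ne hsabs hη1
  have hv : 1 - ζ 1 = (1 - s) * (1 - η 1) / (1 - ((-s : ℝ) : ℂ) * η 1) := by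
    rw [hζ]
    simp only [aut, mk2_one]
    apply eq_div_of_mul_eq hne
    rw [sub_mul, div_mul_cancel₀ _ hne]
    push_cast
    ring
  set N := ‖1 - ((-s : ℝ) : ℂ) * η 1‖ with hN
  have hNpos : 0 < N := norm_pos_iff.2 hne
  have hvn : ‖1 - ζ 1‖ ^ 2 ≤ 4 * (1 - s) ^ 2 / N ^ 2 := by
    rw [hv, norm_div, div_pow, norm_mul, mul_pow]
    have h1 : ‖(1 : ℂ) - s‖ = 1 - s := by
      have : (1 : ℂ) - s = ((1 - s : ℝ) : ℂ) := by push_cast; ring
      rw [this, Complex.norm_real, Real.norm_eq_abs, abs_of_pos (by linarith)]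
    have h2 : ‖1 - η 1‖ ≤ 2 := by
      calc ‖1 - η 1‖ ≤ ‖(1 : ℂ)‖ + ‖η 1‖ := norm_sub_le _ _
        _ ≤ 2 := by simp only [norm_one]; linarith
    rw [h1]
    have h3 : ‖1 - η 1‖ ^ 2 ≤ 2 ^ 2 := by gcongr
    have h4 : (1 - s) ^ 2 * ‖1 - η 1‖ ^ 2 ≤ 4 * (1 - s) ^ 2 := by nlinarith [sq_nonneg (1 - s)]
    gcongr
  have hdef2 : 84 * ‖1 - ζ 1‖ ^ 2 < 4 * (1 - (‖ζ 0‖ ^ 2 + ‖ζ 1‖ ^ 2)) := by
    rw [hdef]
    have h5 : 84 * (1 - s) < (1 + s) * (1 - (‖η 0‖ ^ 2 + ‖η 1‖ ^ 2)) := by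
      have h6 : 84 * (1 - s) = 42 * (1 - b) := by rw [hs]; ring
      rw [h6]
      have h7 : 42 * (1 - b) < 1 - (‖η 0‖ ^ 2 + ‖η 1‖ ^ 2) := by linarith
      nlinarith
    have h8 : 84 * (4 * (1 - s) ^ 2) < 4 * ((1 - (-s) ^ 2) * (1 - (‖η 0‖ ^ 2 + ‖η 1‖ ^ 2))) := by
      have h9 : (0 : ℝ) < 1 - s := by linarith
      have h10 := mul_lt_mul_of_pos_left h5 h9
      nlinarith
    calc 84 * ‖1 - ζ 1‖ ^ 2 ≤ 84 * (4 * (1 - s) ^ 2 / N ^ 2) := by gcongr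
      _ = 84 * (4 * (1 - s) ^ 2) / N ^ 2 := by ring
      _ < 4 * ((1 - (-s) ^ 2) * (1 - (‖η 0‖ ^ 2 + ‖η 1‖ ^ 2))) / N ^ 2 := by gcongr
      _ = _ := by ring
  -- now the polynomial identity
  show ‖(iotInv ζ) 0‖ ^ 2 + ‖(iotInv ζ) 1‖ ^ 4 < 1
  simp only [iotInv, mk2_zero, mk2_one]
  set x := (ζ 1).re with hx
  set y := (ζ 1).im with hy
  have e1 : ‖ζ 1‖ ^ 2 = x ^ 2 + y ^ 2 := by
    rw [← Complex.normSq_eq_norm_sq, Complex.normSq_apply]; ring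
  have e2 : ‖1 - ζ 1‖ ^ 2 = (1 - x) ^ 2 + y ^ 2 := by
    rw [← Complex.normSq_eq_norm_sq, Complex.normSq_apply]
    simp only [Complex.sub_re, Complex.sub_im, Complex.one_re, Complex.one_im]
    ring
  have e3 : ‖2 * ζ 1 - 1‖ ^ 4 = ((2 * x - 1) ^ 2 + (2 * y) ^ 2) ^ 2 := by
    have : ‖2 * ζ 1 - 1‖ ^ 4 = (‖2 * ζ 1 - 1‖ ^ 2) ^ 2 := by ring
    rw [this, ← Complex.normSq_eq_norm_sq, Complex.normSq_apply]
    simp only [Complex.sub_re, Complex.sub_im, Complex.one_re, Complex.one_im, Complex.mul_re,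
      Complex.mul_im, Complex.re_ofNat, Complex.im_ofNat]
    ring
  have e4 : ‖2 * ζ 0‖ ^ 2 = 4 * ‖ζ 0‖ ^ 2 := by
    rw [norm_mul, mul_pow]; norm_num
  rw [e3, e4]
  rw [e1, e2] at hdef2
  have hx1 : x < 1 := lt_of_le_of_lt (Complex.re_le_norm _) hζ1
  have hxy : x ^ 2 + y ^ 2 < 1 := by
    rw [← e1]; exact (sq_lt_one_iff₀ (norm_nonneg _)).2 hζ1
  set u := (1 - x) ^ 2 + y ^ 2 with hu
  have hu0 : 0 ≤ u := by positivity
  have hxm : -1 < x := by nlinarith [sq_nonneg y]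
  have hu4 : u ≤ 4 := by rw [hu]; nlinarith
  have hre : (1 - x) ^ 2 ≤ u := by rw [hu]; nlinarith [sq_nonneg y]
  have key : 4 * ‖ζ 0‖ ^ 2 + ((2 * x - 1) ^ 2 + (2 * y) ^ 2) ^ 2 =
      1 - 4 * (1 - (‖ζ 0‖ ^ 2 + (x ^ 2 + y ^ 2))) + (4 * u + 16 * (1 - x) ^ 2
        - 32 * (1 - x) * u + 16 * u ^ 2) := by
    rw [hu]; ring
  rw [key]
  have h11 : 0 ≤ 32 * (1 - x) * u := by
    have : 0 ≤ 1 - x := by linarith
    positivity
  have h12 : 16 * u ^ 2 ≤ 64 * u := by nlinarith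
  nlinarith

theorem ball_subset_F {a b c : ℝ} (ha : |a| < 1) (hc : c ^ 4 = 1 - a ^ 2) (hc0 : c ≠ 0)
    (hb0 : 0 < b) (hb1 : b < 1) {r : ℝ} (hr : r ^ 2 ≤ 1 - 42 * (1 - b)) :
    ball (0 : Cn 2) r ⊆ (Fmap a c ((b + 1) / 2)) '' Ell := by
  intro η hη
  rw [mem_ball_zero_iff] at hη
  have hη2 : ‖η 0‖ ^ 2 + ‖η 1‖ ^ 2 < 1 - 42 * (1 - b) := by
    rw [← normSq_two]
    calc ‖η‖ ^ 2 < r ^ 2 := by gcongr
      _ ≤ _ := hr
  have h1 := iotInv_aut_mem hb0 hb1 hη2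
  set s : ℝ := (b + 1) / 2 with hs
  have hs0 : 0 < s := by rw [hs]; linarith
  have hs1 : s < 1 := by rw [hs]; linarith
  have hsabs : |(-s)| < 1 := by rw [abs_neg, abs_of_pos hs0]; exact hs1
  have hη1 : ‖η 1‖ < 1 := by
    have h1 : 0 ≤ ‖η 0‖ ^ 2 := by positivity
    have h2 : ‖η 1‖ ^ 2 < 1 := by nlinarith
    exact (sq_lt_one_iff₀ (norm_nonneg _)).1 h2
  refine ⟨Psi a c (iotInv (aut (-s) η)), psi_mapsTo ha hc hc0 h1, ?_⟩
  simp only [Fmap, Function.comp]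
  rw [phi_psi ha hc0 (ell_norm0 h1), iot_iotInv]
  have := aut_aut hsabs hη1
  rwa [neg_neg] at this

end Pool.Agent.Run7.h558.Sq
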