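import Pool.Agent.Run7.h558.SqA

/-!
# Defining function, Levi form and type of the ellipsoid `|z₀|² + |z₁|⁴ < 1`
-/

set_option autoImplicit false
open Metric Filter Topology Set

namespace Pool.Agent.Run7.h558.Sq

/-- Defining function of the ellipsoid. -/
noncomputable def rho (z : Cn 2) : ℝ := ‖z 0‖ ^ 2 + ‖z 1‖ ^ 4 - 1

/-- Real coordinate projection. -/
noncomputable def P (i : Fin 2) : Cn 2 →L[ℝ] ℂ :=
  (EuclideanSpace.proj i : Cn 2 →L[ℂ] ℂ).restrictScalars ℝ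

theorem P_apply (i : Fin 2) (z : Cn 2) : P i z = z i := rfl

theorem rho_contDiff : ContDiff ℝ (⊤ : ℕ∞) rho := by
  have h0 : ContDiff ℝ (⊤ : ℕ∞) (fun z : Cn 2 => ‖z 0‖ ^ 2) := (P 0).contDiff.norm_sq ℝ
  have h1 : ContDiff ℝ (⊤ : ℕ∞) (fun z : Cn 2 => ‖z 1‖ ^ 2) := (P 1).contDiff.norm_sq ℝ
  have h2 : rho = fun z : Cn 2 => ‖z 0‖ ^ 2 + (‖z 1‖ ^ 2) ^ 2 - 1 := by
    funext z; unfold rho; ring
  rw [h2]
  exact (h0.add (h1.pow 2)).sub contDiff_const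

theorem hasFDerivAt_normsq (i : Fin 2) (z : Cn 2) :
    HasFDerivAt (fun z : Cn 2 => ‖z i‖ ^ 2) (2 • (innerSL ℝ (z i)).comp (P i)) z :=
  (P i).hasFDerivAt.norm_sq

theorem hasFDerivAt_rho (z : Cn 2) :
    HasFDerivAt rho (2 • (innerSL ℝ (z 0)).comp (P 0) +
      (4 * ‖z 1‖ ^ 2) • (innerSL ℝ (z 1)).comp (P 1)) z := by
  have h0 := hasFDerivAt_normsq 0 z
  have h1 := (hasFDerivAt_normsq 1 z).pow 2
  have h2 : rho = fun z : Cn 2 => ‖z 0‖ ^ 2 + (‖z 1‖ ^ 2) ^ 2 - 1 := by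
    funext z; unfold rho; ring
  rw [h2]
  have h3 := (h0.add h1).sub_const 1
  refine HasFDerivAt.congr_fderiv (f := fun z : Cn 2 => ‖z 0‖ ^ 2 + (‖z 1‖ ^ 2) ^ 2 - 1) h3 ?_
  ext u
  simp only [add_apply, smul_apply,
    ContinuousLinearMap.comp_apply, innerSL_apply_apply, P_apply, smul_eq_mul, nsmul_eq_mul]
  push_cast
  ring

theorem fderiv_rho_apply (z u : Cn 2) :
    fderiv ℝ rho z u = 2 * inner ℝ (z 0) (u 0) + 4 * ‖z 1‖ ^ 2 * inner ℝ (z 1) (u 1) := by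
  rw [(hasFDerivAt_rho z).fderiv]
  simp only [add_apply, smul_apply,
    ContinuousLinearMap.comp_apply, innerSL_apply_apply, P_apply, smul_eq_mul, nsmul_eq_mul]
  push_cast
  ring

theorem fderiv_rho_ne {z : Cn 2} (hz : z ≠ 0) : fderiv ℝ rho z ≠ 0 := by
  intro h
  have h1 := fderiv_rho_apply z z
  rw [h, real_inner_self_eq_norm_sq, real_inner_self_eq_norm_sq] at h1
  simp only [zero_apply] at h1
  have h2 : 0 ≤ ‖z 0‖ ^ 2 := by positivity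
  have h3 : 0 ≤ ‖z 1‖ ^ 2 * ‖z 1‖ ^ 2 := by positivity
  have h4 : ‖z 0‖ ^ 2 = 0 := by nlinarith
  have h5 : ‖z 1‖ ^ 2 * ‖z 1‖ ^ 2 = 0 := by nlinarith
  apply hz
  apply ext2
  · simpa using h4
  · simpa using h5

/-- The boundary point. -/
noncomputable def pt : Cn 2 := !₂[1, 0]

theorem pt_zero : pt 0 = 1 := rfl
theorem pt_one : pt 1 = 0 := rfl

/-- The tangent vectors. -/
noncomputable def tv (v : ℂ) : Cn 2 := !₂[0, v]

theorem I_smul_tv (v : ℂ) : Complex.I • tv v = tv (Complex.I * v) := by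
  apply ext2
  · simp [tv]
  · simp [tv]

theorem fderiv_tv (v : ℂ) : fderiv ℝ rho pt (tv v) = 0 := by
  rw [fderiv_rho_apply]
  simp [pt, tv]

theorem levi_tv (v : ℂ) : iteratedFDeriv ℝ 2 rho pt ![tv v, tv v] = 0 := by
  rw [iteratedFDeriv_two_apply]
  simp only [Matrix.cons_val_zero, Matrix.cons_val_one]
  have hd : DifferentiableAt ℝ (fderiv ℝ rho) pt := by
    have h1 : ContDiff ℝ 1 (fderiv ℝ rho) := by
      exact rho_contDiff.fderiv_right (m := 1) (by norm_cast)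
    exact (h1.differentiable one_ne_zero) pt
  have h1 : HasFDerivAt (fun z => fderiv ℝ rho z (tv v))
      ((fderiv ℝ (fderiv ℝ rho) pt).flip (tv v)) pt := by
    have := hd.hasFDerivAt.clm_apply (hasFDerivAt_const (tv v) pt)
    simpa using this
  have h2 : (fun z : Cn 2 => fderiv ℝ rho z (tv v)) =
      fun z : Cn 2 => (4 * ‖z 1‖ ^ 2) * inner ℝ (z 1) v := by
    funext z
    rw [fderiv_rho_apply]
    simp [tv]
  rw [h2] at h1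
  have h3 : HasFDerivAt (fun z : Cn 2 => (4 * ‖z 1‖ ^ 2) * inner ℝ (z 1) v)
      (0 : Cn 2 →L[ℝ] ℝ) pt := by
    have e1 := (hasFDerivAt_normsq 1 pt).const_mul 4
    have e2 : HasFDerivAt (fun z : Cn 2 => inner ℝ (z 1) v)
        ((innerSL ℝ v).comp (P 1)) pt := by
      have := ((innerSL ℝ v).comp (P 1)).hasFDerivAt (x := pt)
      refine this.congr_of_eventuallyEq (Filter.Eventually.of_forall fun z => ?_)
      simp [P_apply, real_inner_comm]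
    refine HasFDerivAt.congr_fderiv (f := fun z : Cn 2 => (4 * ‖z 1‖ ^ 2) * inner ℝ (z 1) v)
      (e1.mul e2) ?_
    ext u
    simp [pt_one]
  have h4 := h1.unique h3
  have h5 := congrArg (fun L : Cn 2 →L[ℝ] ℝ => L (tv v)) h4
  simpa using h5

/-- The order of vanishing at the origin of a germ `h`. -/
noncomputable def vanishOrder {E : Type*} [NormedAddCommGroup E] (h : ℂ → E) : ℕ∞ :=
  ⨆ m : {m : ℕ // h =O[𝓝 0] fun ζ : ℂ => ‖ζ‖ ^ m}, ((m : ℕ) : ℕ∞)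

/-- Real-power comparison. -/
theorem le_of_pow_bound {m k : ℕ} {c K : ℝ} (hc : 0 < c)
    (h : ∀ᶠ r : ℝ in 𝓝[>] 0, c * r ^ k ≤ K * r ^ m) : m ≤ k := by
  by_contra hlt
  push Not at hlt
  obtain ⟨j, rfl⟩ := Nat.exists_eq_add_of_lt hlt
  have h1 : ∀ᶠ r : ℝ in 𝓝[>] 0, c ≤ K * r ^ (j + 1) := by
    filter_upwards [h, self_mem_nhdsWithin] with r hr hr0
    have hr0' : (0 : ℝ) < r := hr0
    have h2 : K * r ^ (k + j + 1) = (K * r ^ (j + 1)) * r ^ k := by ring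
    rw [h2] at hr
    exact le_of_mul_le_mul_right hr (by positivity)
  have h2 : Tendsto (fun r : ℝ => K * r ^ (j + 1)) (𝓝[>] 0) (𝓝 (K * 0 ^ (j + 1))) := by
    apply Tendsto.mono_left _ nhdsWithin_le_nhds
    exact (continuous_const.mul (continuous_pow _)).tendsto 0
  have h3 := ge_of_tendsto h2 h1
  simp at h3
  linarith

/-- Pointwise lower bound. -/
theorem lower_bound {q : Cn 2} {γ G : ℂ → Cn 2} {n : ℕ} (hn : 1 ≤ n)
    (hG : ContinuousAt G 0) (hG0 : G 0 ≠ 0)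
    (hev : ∀ᶠ ζ in 𝓝 (0 : ℂ), γ ζ - q = ζ ^ n • G ζ) :
    ∃ c : ℝ, 0 < c ∧ ∀ᶠ ζ in 𝓝 (0 : ℂ), c * ‖ζ‖ ^ (4 * n) ≤
      ‖γ ζ 0 - q 0‖ ^ 2 + ‖(γ ζ 1) ^ 2 - (q 1) ^ 2‖ ^ 2 := by
  have hGi : ∀ i, ContinuousAt (fun ζ => G ζ i) 0 := by
    intro i
    exact (P i).continuous.continuousAt.comp hG
  have hsmall : ∀ᶠ ζ in 𝓝 (0 : ℂ), ‖ζ‖ < 1 := by
    have : Tendsto (fun ζ : ℂ => ‖ζ‖) (𝓝 0) (𝓝 0) := by
      simpa using (continuous_norm (E := ℂ)).tendsto 0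
    exact this.eventually_lt_const one_pos
  have hpowle : ∀ (ζ : ℂ), ‖ζ‖ < 1 → ‖ζ‖ ^ (4 * n) ≤ ‖ζ‖ ^ (2 * n) := by
    intro ζ hζ
    exact pow_le_pow_of_le_one (norm_nonneg _) hζ.le (by omega)
  by_cases h0 : G 0 0 = 0
  · have h1 : G 0 1 ≠ 0 := by
      intro h1
      exact hG0 (ext2 (by simpa using h0) (by simpa using h1))
    have hlow : ∀ᶠ ζ in 𝓝 (0 : ℂ), ‖G 0 1‖ / 2 < ‖G ζ 1‖ := by
      have h2 : Tendsto (fun ζ => ‖G ζ 1‖) (𝓝 0) (𝓝 ‖G 0 1‖) := (hGi 1).norm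
      exact h2.eventually_const_lt (half_lt_self (norm_pos_iff.2 h1))
    by_cases hq : q 1 = 0
    · refine ⟨(‖G 0 1‖ / 2) ^ 4, by have := norm_pos_iff.2 h1; positivity, ?_⟩
      filter_upwards [hev, hlow] with ζ h3 h4
      have h5 : γ ζ 1 = ζ ^ n * G ζ 1 := by
        have := congrArg (fun z : Cn 2 => z 1) h3
        simpa [hq] using this
      rw [h5, hq]
      have h6 : ‖(ζ ^ n * G ζ 1) ^ 2 - 0 ^ 2‖ ^ 2 = ‖ζ‖ ^ (4 * n) * ‖G ζ 1‖ ^ 4 := by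
        rw [zero_pow two_ne_zero, sub_zero, norm_pow, norm_mul, norm_pow]
        ring
      rw [h6]
      have h7 : (‖G 0 1‖ / 2) ^ 4 ≤ ‖G ζ 1‖ ^ 4 := by gcongr
      have h8 : 0 ≤ ‖γ ζ 0 - q 0‖ ^ 2 := by positivity
      have h9 : (‖G 0 1‖ / 2) ^ 4 * ‖ζ‖ ^ (4 * n) ≤ ‖G ζ 1‖ ^ 4 * ‖ζ‖ ^ (4 * n) := by gcongr
      linarith
    · -- `γ₁ + q₁` stays away from zero
      have hpos : 0 < ‖q 1‖ := norm_pos_iff.2 hq
      have hs : ∀ᶠ ζ in 𝓝 (0 : ℂ), ‖q 1‖ < ‖2 * q 1 + ζ ^ n * G ζ 1‖ := by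
        have h2 : Tendsto (fun ζ : ℂ => ‖2 * q 1 + ζ ^ n * G ζ 1‖) (𝓝 0)
            (𝓝 ‖2 * q 1 + 0 ^ n * G 0 1‖) := by
          apply Tendsto.norm
          apply Tendsto.add tendsto_const_nhds
          exact ((continuous_pow n).tendsto 0).mul (hGi 1)
        rw [zero_pow (by omega), zero_mul, add_zero, norm_mul] at h2
        apply h2.eventually_const_lt
        norm_num
        linarith
      refine ⟨(‖G 0 1‖ / 2) ^ 2 * ‖q 1‖ ^ 2, by have := norm_pos_iff.2 h1; positivity, ?_⟩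
      filter_upwards [hev, hlow, hs, hsmall] with ζ h3 h4 h5 h6
      have h7 : γ ζ 1 = q 1 + ζ ^ n * G ζ 1 := by
        have := congrArg (fun z : Cn 2 => z 1) h3
        have h8 : γ ζ 1 - q 1 = ζ ^ n * G ζ 1 := by simpa using this
        linear_combination h8
      have h8 : ‖(γ ζ 1) ^ 2 - (q 1) ^ 2‖ ^ 2 =
          ‖ζ‖ ^ (2 * n) * (‖G ζ 1‖ ^ 2 * ‖2 * q 1 + ζ ^ n * G ζ 1‖ ^ 2) := by
        have : (γ ζ 1) ^ 2 - (q 1) ^ 2 = ζ ^ n * (G ζ 1 * (2 * q 1 + ζ ^ n * G ζ 1)) := by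
          rw [h7]; ring
        rw [this, norm_mul, norm_mul, norm_pow]
        ring
      rw [h8]
      have h9 : (‖G 0 1‖ / 2) ^ 2 * ‖q 1‖ ^ 2 ≤
          ‖G ζ 1‖ ^ 2 * ‖2 * q 1 + ζ ^ n * G ζ 1‖ ^ 2 := by gcongr
      have h10 : 0 ≤ ‖γ ζ 0 - q 0‖ ^ 2 := by positivity
      calc (‖G 0 1‖ / 2) ^ 2 * ‖q 1‖ ^ 2 * ‖ζ‖ ^ (4 * n)
          ≤ (‖G ζ 1‖ ^ 2 * ‖2 * q 1 + ζ ^ n * G ζ 1‖ ^ 2) * ‖ζ‖ ^ (2 * n) := by
            gcongr ?_ * ?_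
            exact hpowle ζ h6
        _ = ‖ζ‖ ^ (2 * n) * (‖G ζ 1‖ ^ 2 * ‖2 * q 1 + ζ ^ n * G ζ 1‖ ^ 2) := by ring
        _ ≤ _ := by linarith
  · have hlow : ∀ᶠ ζ in 𝓝 (0 : ℂ), ‖G 0 0‖ / 2 < ‖G ζ 0‖ := by
      have h2 : Tendsto (fun ζ => ‖G ζ 0‖) (𝓝 0) (𝓝 ‖G 0 0‖) := (hGi 0).norm
      exact h2.eventually_const_lt (half_lt_self (norm_pos_iff.2 h0))
    refine ⟨(‖G 0 0‖ / 2) ^ 2, by have := norm_pos_iff.2 h0; positivity, ?_⟩
    filter_upwards [hev, hlow, hsmall] with ζ h3 h4 h6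
    have h5 : γ ζ 0 - q 0 = ζ ^ n * G ζ 0 := by
      have := congrArg (fun z : Cn 2 => z 0) h3
      simpa using this
    rw [h5, norm_mul, norm_pow]
    have h7 : (‖G 0 0‖ / 2) ^ 2 ≤ ‖G ζ 0‖ ^ 2 := by gcongr
    have h8 : 0 ≤ ‖(γ ζ 1) ^ 2 - (q 1) ^ 2‖ ^ 2 := by positivity
    calc (‖G 0 0‖ / 2) ^ 2 * ‖ζ‖ ^ (4 * n) ≤ ‖G ζ 0‖ ^ 2 * ‖ζ‖ ^ (2 * n) := by
          gcongr ?_ * ?_
          exact hpowle ζ h6
      _ = (‖ζ‖ ^ n * ‖G ζ 0‖) ^ 2 := by ring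
      _ ≤ _ := by linarith

/-- Expansion of the defining function at a boundary point. -/
theorem rho_expand {q : Cn 2} (hq : rho q = 0) (z : Cn 2) :
    rho z = (2 * ((starRingEnd ℂ) (q 0) * (z 0 - q 0) +
      (starRingEnd ℂ) ((q 1) ^ 2) * ((z 1) ^ 2 - (q 1) ^ 2))).re +
      (‖z 0 - q 0‖ ^ 2 + ‖(z 1) ^ 2 - (q 1) ^ 2‖ ^ 2) := by
  have e1 : ∀ x y : ℂ, ‖x‖ ^ 2 = ‖y‖ ^ 2 + 2 * ((starRingEnd ℂ) y * (x - y)).re + ‖x - y‖ ^ 2 := by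
    intro x y
    rw [← Complex.normSq_eq_norm_sq, ← Complex.normSq_eq_norm_sq, ← Complex.normSq_eq_norm_sq]
    simp only [Complex.normSq_apply, Complex.sub_re, Complex.sub_im, Complex.mul_re,
      Complex.conj_re, Complex.conj_im]
    ring
  have h0 := e1 (z 0) (q 0)
  have h1 := e1 ((z 1) ^ 2) ((q 1) ^ 2)
  have e2 : ∀ x : ℂ, ‖x ^ 2‖ ^ 2 = ‖x‖ ^ 4 := by
    intro x; rw [norm_pow]; ring
  rw [e2, e2] at h1
  unfold rho at hq ⊢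
  have e3 : ∀ x : ℂ, (2 * x).re = 2 * x.re := by
    intro x; simp
  rw [e3, Complex.add_re]
  linarith

/-- Main bound on the order of contact. -/
theorem contact_bound {q : Cn 2} (hq : rho q = 0) {γ : ℂ → Cn 2} (hγ : AnalyticAt ℂ γ 0)
    (hγ0 : γ 0 = q) {k : ℕ} {c : ℝ} (hc : 0 < c)
    (hlow : ∀ᶠ ζ in 𝓝 (0 : ℂ), c * ‖ζ‖ ^ k ≤
      ‖γ ζ 0 - q 0‖ ^ 2 + ‖(γ ζ 1) ^ 2 - (q 1) ^ 2‖ ^ 2)
    {m : ℕ} (hm : (fun ζ => rho (γ ζ)) =O[𝓝 0] fun ζ : ℂ => ‖ζ‖ ^ m) : m ≤ k := by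
  obtain ⟨K, hK⟩ := hm.bound
  set H : ℂ → ℂ := fun ζ => 2 * ((starRingEnd ℂ) (q 0) * (γ ζ 0 - q 0) +
      (starRingEnd ℂ) ((q 1) ^ 2) * ((γ ζ 1) ^ 2 - (q 1) ^ 2)) with hH
  have hγi : ∀ i, AnalyticAt ℂ (fun ζ => γ ζ i) 0 := by
    intro i
    exact ((EuclideanSpace.proj i : Cn 2 →L[ℂ] ℂ).analyticAt _).comp hγ
  have hHa : AnalyticAt ℂ H 0 := by
    have e0 := hγi 0
    have e1 := hγi 1
    rw [hH]
    fun_prop
  have hH0 : H 0 = 0 := by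
    rw [hH]; simp [hγ0]
  have hev : ∀ᶠ ζ in 𝓝 (0 : ℂ), (H ζ).re ≤ K * ‖ζ‖ ^ m - c * ‖ζ‖ ^ k := by
    filter_upwards [hK, hlow] with ζ h1 h2
    have h3 := rho_expand hq (γ ζ)
    have h4 : rho (γ ζ) ≤ K * ‖ζ‖ ^ m := by
      have h5 : ‖(‖ζ‖ ^ m : ℝ)‖ = ‖ζ‖ ^ m := by simp
      rw [h5] at h1
      exact (Real.le_norm_self _).trans h1
    show (2 * ((starRingEnd ℂ) (q 0) * (γ ζ 0 - q 0) +
      (starRingEnd ℂ) ((q 1) ^ 2) * ((γ ζ 1) ^ 2 - (q 1) ^ 2))).re ≤ _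
    linarith
  obtain ⟨r0, hr0, hball⟩ := Metric.eventually_nhds_iff_ball.1 (hev.and hHa.eventually_analyticAt)
  apply le_of_pow_bound (c := c) (K := K) hc
  have hr0' : ∀ᶠ r : ℝ in 𝓝[>] 0, r < r0 := by
    apply nhdsWithin_le_nhds
    exact Iio_mem_nhds hr0
  filter_upwards [hr0', self_mem_nhdsWithin] with r hrr hr
  have hr' : (0 : ℝ) < r := hr
  have habs : |r| = r := abs_of_pos hr'
  have hharm : InnerProductSpace.HarmonicOnNhd (fun ζ => (H ζ).re) (closedBall 0 |r|) := by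
    intro ζ hζ
    rw [habs, mem_closedBall_zero_iff] at hζ
    have h1 := (hball ζ (mem_ball_zero_iff.2 (lt_of_le_of_lt hζ hrr))).2
    exact h1.harmonicAt_re
  have h1 := InnerProductSpace.HarmonicOnNhd.circleAverage_eq hharm
  rw [hH0] at h1
  have hint : CircleIntegrable (fun ζ => (H ζ).re) 0 r := by
    apply ContinuousOn.circleIntegrable hr'.le
    intro ζ hζ
    have hζ' : ‖ζ‖ = r := by simpa using hζ
    have h2 := (hball ζ (mem_ball_zero_iff.2 (by rw [hζ']; exact hrr))).2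
    exact (Complex.continuous_re.continuousAt.comp h2.continuousAt).continuousWithinAt
  have h2 := Real.circleAverage_mono_on_of_le_circle (a := K * r ^ m - c * r ^ k) hint (by
    intro ζ hζ
    have hζ' : ‖ζ‖ = r := by simpa [habs] using hζ
    have h3 := (hball ζ (mem_ball_zero_iff.2 (by rw [hζ']; exact hrr))).1
    rw [hζ'] at h3
    exact h3)
  rw [h1] at h2
  simp only [Complex.zero_re] at h2
  linarith

/-- The ellipsoid has type at most four at every boundary point. -/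
theorem type_bound {q : Cn 2} (hq : rho q = 0) {γ : ℂ → Cn 2} (hγ : AnalyticAt ℂ γ 0)
    (hγ0 : γ 0 = q) (hnc : ¬ ∀ᶠ ζ in 𝓝 (0 : ℂ), γ ζ = q) :
    vanishOrder (fun ζ => rho (γ ζ)) ≤ (4 : ℕ) * vanishOrder (fun ζ => γ ζ - q) := by
  have hδ : AnalyticAt ℂ (fun ζ => γ ζ - q) 0 := hγ.sub analyticAt_const
  have hord : analyticOrderAt (fun ζ => γ ζ - q) 0 ≠ ⊤ := by
    intro h
    rw [analyticOrderAt_eq_top] at h
    apply hnc
    filter_upwards [h] with ζ hζ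
    exact sub_eq_zero.1 hζ
  obtain ⟨G, hG, hG0, hev⟩ := hδ.analyticOrderAt_ne_top.1 hord
  set n := analyticOrderNatAt (fun ζ => γ ζ - q) 0 with hn
  have hev' : ∀ᶠ ζ in 𝓝 (0 : ℂ), γ ζ - q = ζ ^ n • G ζ := by
    filter_upwards [hev] with ζ hζ
    simpa using hζ
  have hn1 : 1 ≤ n := by
    by_contra hlt
    have hn0 : n = 0 := by omega
    have := hev'.self_of_nhds
    rw [hn0, hγ0] at this
    simp at this
    exact hG0 this.symm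
  have h1 : (n : ℕ∞) ≤ vanishOrder (fun ζ => γ ζ - q) := by
    unfold vanishOrder
    have hO : (fun ζ => γ ζ - q) =O[𝓝 0] fun ζ : ℂ => ‖ζ‖ ^ n := by
      have e1 : (fun ζ => γ ζ - q) =ᶠ[𝓝 0] fun ζ : ℂ => ζ ^ n • G ζ := hev'
      apply e1.trans_isBigO
      have e2 : (fun ζ : ℂ => ζ ^ n • G ζ) =O[𝓝 0] fun ζ : ℂ => (‖ζ‖ ^ n : ℝ) • (1 : ℝ) := by
        apply Asymptotics.IsBigO.smul
        · apply Asymptotics.IsBigO.of_bound 1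
          exact Filter.Eventually.of_forall fun ζ => by simp
        · exact hG.continuousAt.isBigO_one ℝ
      simpa using e2
    exact le_iSup (fun m : {m : ℕ // (fun ζ => γ ζ - q) =O[𝓝 0] fun ζ : ℂ => ‖ζ‖ ^ m} =>
      ((m : ℕ) : ℕ∞)) ⟨n, hO⟩
  obtain ⟨c, hc, hlow⟩ := lower_bound hn1 hG.continuousAt hG0 hev'
  have h2 : vanishOrder (fun ζ => rho (γ ζ)) ≤ ((4 * n : ℕ) : ℕ∞) := by
    unfold vanishOrder
    apply iSup_le
    rintro ⟨m, hm⟩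
    exact_mod_cast contact_bound hq hγ hγ0 hc hlow hm
  calc vanishOrder (fun ζ => rho (γ ζ)) ≤ ((4 * n : ℕ) : ℕ∞) := h2
    _ = (4 : ℕ) * (n : ℕ∞) := by push_cast; ring
    _ ≤ _ := by gcongr

/-! ### Convexity, boundedness -/

theorem convex_ell : Convex ℝ Ell := by
  have h0 : ConvexOn ℝ univ (fun z : Cn 2 => ‖z 0‖) :=
    (convexOn_univ_norm (E := ℂ)).comp_linearMap (P 0 : Cn 2 →ₗ[ℝ] ℂ)
  have h1 : ConvexOn ℝ univ (fun z : Cn 2 => ‖z 1‖) :=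
    (convexOn_univ_norm (E := ℂ)).comp_linearMap (P 1 : Cn 2 →ₗ[ℝ] ℂ)
  have h2 := (h0.pow (fun _ _ => norm_nonneg _) 2).add (h1.pow (fun _ _ => norm_nonneg _) 4)
  have h3 := h2.convex_lt 1
  have h4 : Ell = {x | x ∈ univ ∧ ((fun z : Cn 2 => ‖z 0‖) ^ 2 +
      (fun z : Cn 2 => ‖z 1‖) ^ 4) x < 1} := by
    ext z
    simp [Ell]
  rw [h4]
  exact h3

theorem bounded_ell : Bornology.IsBounded Ell := by
  apply (isBounded_closedBall (x := (0 : Cn 2)) (r := 2)).subset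
  intro z hz
  rw [mem_closedBall_zero_iff]
  have h0 := ell_norm0 hz
  have hz' : ‖z 0‖ ^ 2 + ‖z 1‖ ^ 4 < 1 := hz
  have h1 : ‖z 1‖ ^ 4 < 1 := by nlinarith [sq_nonneg ‖z 0‖]
  have h2 : ‖z 1‖ < 1 := (pow_lt_one_iff_of_nonneg (norm_nonneg _) (by norm_num)).1 h1
  have h3 := normSq_two z
  have h4 : ‖z 0‖ ^ 2 < 1 := (sq_lt_one_iff₀ (norm_nonneg _)).2 h0
  have h5 : ‖z 1‖ ^ 2 < 1 := (sq_lt_one_iff₀ (norm_nonneg _)).2 h2
  nlinarith [norm_nonneg z]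

/-! ### The sequence -/

/-- Parameters. -/
noncomputable def aseq (ν : ℕ) : ℝ := 1 - 1 / ((ν : ℝ) + 2)
/-- Parameters. -/
noncomputable def bseq (ν : ℕ) : ℝ := 1 - 1 / (42 * ((ν : ℝ) + 2))
/-- Parameters. -/
noncomputable def cseq (ν : ℕ) : ℝ := Real.sqrt (Real.sqrt (1 - aseq ν ^ 2))
/-- The sequence of points. -/
noncomputable def zseq (ν : ℕ) : Cn 2 := zpt (aseq ν) (cseq ν) (bseq ν)

theorem inv_bounds (ν : ℕ) : 0 < 1 / ((ν : ℝ) + 2) ∧ 1 / ((ν : ℝ) + 2) ≤ 1 / 2 := by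
  have h : (0 : ℝ) ≤ ν := Nat.cast_nonneg ν
  constructor
  · positivity
  · apply one_div_le_one_div_of_le <;> linarith

theorem aseq_pos (ν : ℕ) : 0 < aseq ν := by
  have := inv_bounds ν
  unfold aseq; linarith

theorem aseq_lt (ν : ℕ) : aseq ν < 1 := by
  have := inv_bounds ν
  unfold aseq; linarith

theorem aseq_abs (ν : ℕ) : |aseq ν| < 1 := by
  rw [abs_of_pos (aseq_pos ν)]; exact aseq_lt ν

theorem aseq_sq (ν : ℕ) : 0 < 1 - aseq ν ^ 2 := by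
  have h1 := aseq_pos ν
  have h2 := aseq_lt ν
  nlinarith

theorem bseq_eq (ν : ℕ) : 42 * (1 - bseq ν) = 1 / ((ν : ℝ) + 2) := by
  have h : (0 : ℝ) ≤ ν := Nat.cast_nonneg ν
  unfold bseq
  field_simp
  ring

theorem bseq_pos (ν : ℕ) : 0 < bseq ν := by
  have := inv_bounds ν
  have := bseq_eq ν
  linarith

theorem bseq_lt (ν : ℕ) : bseq ν < 1 := by
  have := inv_bounds ν
  have := bseq_eq ν
  linarith

theorem cseq_pos (ν : ℕ) : 0 < cseq ν :=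
  Real.sqrt_pos.2 (Real.sqrt_pos.2 (aseq_sq ν))

theorem cseq_pow (ν : ℕ) : cseq ν ^ 4 = 1 - aseq ν ^ 2 := by
  have h1 : cseq ν ^ 4 = (cseq ν ^ 2) ^ 2 := by ring
  rw [h1]
  unfold cseq
  rw [Real.sq_sqrt (Real.sqrt_nonneg _), Real.sq_sqrt (aseq_sq ν).le]

theorem pre_mem (ν : ℕ) : (!₂[0, (bseq ν : ℂ)] : Cn 2) ∈ Ell := by
  show ‖(!₂[0, (bseq ν : ℂ)] : Cn 2) 0‖ ^ 2 + ‖(!₂[0, (bseq ν : ℂ)] : Cn 2) 1‖ ^ 4 < 1
  rw [mk2_zero, mk2_one, Complex.norm_real, Real.norm_eq_abs, abs_of_pos (bseq_pos ν)]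
  have h := pow_lt_one₀ (bseq_pos ν).le (bseq_lt ν) (n := 4) (by norm_num)
  simpa using h

theorem zseq_mem (ν : ℕ) : zseq ν ∈ Ell :=
  psi_mapsTo (aseq_abs ν) (cseq_pow ν) (cseq_pos ν).ne' (pre_mem ν)

theorem zseq_zero (ν : ℕ) : (zseq ν) 0 = aseq ν := by
  simp only [zseq, zpt, Psi, mk2_zero]
  simp

theorem zseq_one (ν : ℕ) : ‖(zseq ν) 1‖ ≤ cseq ν := by
  have h : ‖(zseq ν) 0‖ ^ 2 + ‖(zseq ν) 1‖ ^ 4 < 1 := zseq_mem ν
  rw [zseq_zero, Complex.norm_real, Real.norm_eq_abs, sq_abs] at h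
  have h2 : ‖(zseq ν) 1‖ ^ 4 ≤ cseq ν ^ 4 := by rw [cseq_pow]; linarith
  exact le_of_pow_le_pow_left₀ (by norm_num) (cseq_pos ν).le h2

theorem tendsto_inv2 : Tendsto (fun ν : ℕ => 1 / ((ν : ℝ) + 2)) atTop (𝓝 0) := by
  have h1 : Tendsto (fun ν : ℕ => (ν : ℝ) + 2) atTop atTop :=
    tendsto_atTop_add_const_right _ _ tendsto_natCast_atTop_atTop
  have h2 := h1.inv_tendsto_atTop
  refine h2.congr fun ν => ?_
  simp

theorem tendsto_aseq : Tendsto aseq atTop (𝓝 1) := by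
  have h := (tendsto_const_nhds (x := (1 : ℝ)) (f := (atTop : Filter ℕ))).sub tendsto_inv2
  rw [sub_zero] at h
  exact h

theorem tendsto_cseq : Tendsto cseq atTop (𝓝 0) := by
  have h1 : Tendsto (fun ν => Real.sqrt (Real.sqrt (1 - aseq ν ^ 2))) atTop
      (𝓝 (Real.sqrt (Real.sqrt (1 - 1 ^ 2)))) :=
    ((tendsto_const_nhds.sub (tendsto_aseq.pow 2)).sqrt).sqrt
  have h2 : Real.sqrt (Real.sqrt (1 - 1 ^ 2)) = 0 := by simp
  rw [h2] at h1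
  exact h1

theorem tendsto_zseq : Tendsto zseq atTop (𝓝 pt) := by
  rw [tendsto_iff_norm_sub_tendsto_zero]
  have h1 : ∀ ν, ‖zseq ν - pt‖ ≤ |aseq ν - 1| + cseq ν := by
    intro ν
    have e := normSq_two (zseq ν - pt)
    have e0 : (zseq ν - pt) 0 = ((aseq ν - 1 : ℝ) : ℂ) := by
      have : (zseq ν - pt) 0 = (zseq ν) 0 - pt 0 := rfl
      rw [this, zseq_zero, pt_zero]; push_cast; ring
    have e1 : (zseq ν - pt) 1 = (zseq ν) 1 := by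
      have : (zseq ν - pt) 1 = (zseq ν) 1 - pt 1 := rfl
      rw [this, pt_one, sub_zero]
    rw [e0, e1, Complex.norm_real, Real.norm_eq_abs] at e
    have h2 := zseq_one ν
    have h3 := cseq_pos ν
    have h4 : ‖(zseq ν) 1‖ ^ 2 ≤ cseq ν ^ 2 := by gcongr
    have h5 : 0 ≤ |aseq ν - 1| := abs_nonneg _
    have h6 : 0 ≤ |aseq ν - 1| + cseq ν := by positivity
    apply le_of_pow_le_pow_left₀ two_ne_zero h6
    nlinarith
  have h2 : Tendsto (fun ν => |aseq ν - 1| + cseq ν) atTop (𝓝 0) := by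
    have e1 := (tendsto_aseq.sub_const 1).abs.add tendsto_cseq
    simpa using e1
  exact squeeze_zero (fun _ => norm_nonneg _) h1 h2

theorem pt_frontier : pt ∈ frontier Ell := by
  rw [isOpen_ell.frontier_eq]
  refine ⟨mem_closure_of_tendsto tendsto_zseq (Filter.Eventually.of_forall zseq_mem), ?_⟩
  intro h
  have : ‖pt 0‖ ^ 2 + ‖pt 1‖ ^ 4 < 1 := h
  rw [pt_zero, pt_one] at this
  norm_num at this

end Pool.Agent.Run7.h558.Sq
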