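import Mathlib

/-!
# Loads of random buckets: first and second moments
-/

set_option autoImplicit false
open Finset

namespace Pool.Agent.Run7.h558.Ss

/-- Resampling one coordinate. -/
theorem resample {n b : ℕ} (k : Fin n) (f : (Fin n → Fin b) → ℝ) :
    ∑ h : Fin n → Fin b, ∑ v : Fin b, f (Function.update h k v) = b * ∑ h, f h := by
  classical
  have h1 : ∑ h : Fin n → Fin b, ∑ v : Fin b, f (Function.update h k v) =
      ∑ q : (Fin n → Fin b) × Fin b, f (Function.update q.1 k q.2) := by
    rw [Fintype.sum_prod_type]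
  let e : ((Fin n → Fin b) × Fin b) ≃ ((Fin n → Fin b) × Fin b) :=
    { toFun := fun q => (Function.update q.1 k q.2, q.1 k)
      invFun := fun q => (Function.update q.1 k q.2, q.1 k)
      left_inv := by
        rintro ⟨h, v⟩
        simp
      right_inv := by
        rintro ⟨h, v⟩
        simp }
  have h2 : ∑ q : (Fin n → Fin b) × Fin b, f (Function.update q.1 k q.2) =
      ∑ q : (Fin n → Fin b) × Fin b, f q.1 :=
    Equiv.sum_comp e (fun q => f q.1)
  rw [h1, h2, Fintype.sum_prod_type]
  simp only [sum_const, card_univ, Fintype.card_fin, nsmul_eq_mul]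
  rw [← mul_sum]

/-- The number of elements of `F` in the bucket `β`. -/
def load {n b : ℕ} (F : Finset (Fin n)) (h : Fin n → Fin b) (β : Fin b) : ℕ :=
  (F.filter (fun k => h k = β)).card

theorem load_insert {n b : ℕ} {F : Finset (Fin n)} {k : Fin n} (hk : k ∉ F)
    (h : Fin n → Fin b) (v β : Fin b) :
    load (insert k F) (Function.update h k v) β = load F h β + (if v = β then 1 else 0) := by
  classical
  unfold load
  have h1 : (insert k F).filter (fun i => Function.update h k v i = β) =
      if v = β then insert k (F.filter (fun i => h i = β)) else F.filter (fun i => h i = β) := by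
    ext i
    by_cases hik : i = k
    · subst hik
      by_cases hv : v = β
      · simp [hv]
      · simp [hv, hk]
    · by_cases hv : v = β
      · simp [hv, hik]
      · simp [hv, hik]
  rw [h1]
  split_ifs with hv
  · rw [card_insert_of_notMem]
    simp [hk]
  · rfl

/-- Binomial tail probabilities. -/
def G (p : ℝ) : ℕ → ℕ → ℝ
  | 0, 0 => 1
  | 0, _ + 1 => 0
  | _ + 1, 0 => 1
  | m + 1, a + 1 => (1 - p) * G p m (a + 1) + p * G p m a

theorem G_zero (p : ℝ) (m : ℕ) : G p m 0 = 1 := by
  cases m <;> rfl

theorem G_succ (p : ℝ) (m a : ℕ) : G p (m + 1) (a + 1) = (1 - p) * G p m (a + 1) + p * G p m a :=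
  rfl

theorem G_nonneg {p : ℝ} (hp0 : 0 ≤ p) (hp1 : p ≤ 1) : ∀ m a : ℕ, 0 ≤ G p m a
  | 0, 0 => by simp [G]
  | 0, a + 1 => by simp [G]
  | m + 1, 0 => by simp [G]
  | m + 1, a + 1 => by
    have h1 := G_nonneg hp0 hp1 m (a + 1)
    have h2 := G_nonneg hp0 hp1 m a
    rw [G_succ]
    have : 0 ≤ 1 - p := by linarith
    positivity

theorem G_anti {p : ℝ} (hp0 : 0 ≤ p) (hp1 : p ≤ 1) : ∀ m a : ℕ, G p m (a + 1) ≤ G p m a
  | 0, 0 => by simp [G]
  | 0, a + 1 => by simp [G]
  | m + 1, 0 => by
    have h1 := G_anti hp0 hp1 m 0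
    rw [G_succ, G_zero, G_zero]
    rw [G_zero] at h1
    have : 0 ≤ 1 - p := by linarith
    nlinarith
  | m + 1, a + 1 => by
    have h1 := G_anti hp0 hp1 m (a + 1)
    have h2 := G_anti hp0 hp1 m a
    rw [G_succ, G_succ]
    have : 0 ≤ 1 - p := by linarith
    nlinarith

theorem G_le_one {p : ℝ} (hp0 : 0 ≤ p) (hp1 : p ≤ 1) (m : ℕ) : ∀ a : ℕ, G p m a ≤ 1
  | 0 => by rw [G_zero]
  | a + 1 => (G_anti hp0 hp1 m a).trans (G_le_one hp0 hp1 m a)

/-- Lower bound by the binomial probability. -/
theorem G_lower {p : ℝ} (hp0 : 0 ≤ p) (hp1 : p ≤ 1) :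
    ∀ m a : ℕ, (m.choose a : ℝ) * p ^ a * (1 - p) ^ m ≤ G p m a
  | 0, 0 => by simp [G]
  | 0, a + 1 => by simp [G]
  | m + 1, 0 => by
    rw [G_zero, Nat.choose_zero_right]
    have h1 : (1 - p) ^ (m + 1) ≤ 1 := pow_le_one₀ (by linarith) (by linarith)
    simpa using h1
  | m + 1, a + 1 => by
    have h1 := G_lower hp0 hp1 m (a + 1)
    have h2 := G_lower hp0 hp1 m a
    rw [G_succ, Nat.choose_succ_succ]
    have hq : 0 ≤ 1 - p := by linarith
    have e1 : (1 - p) * ((m.choose (a + 1) : ℝ) * p ^ (a + 1) * (1 - p) ^ m) ≤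
        (1 - p) * G p m (a + 1) := by gcongr
    have e2 : p * ((m.choose a : ℝ) * p ^ a * (1 - p) ^ m) ≤ p * G p m a := by gcongr
    have e3 : p * ((m.choose a : ℝ) * p ^ a * (1 - p) ^ (m + 1)) ≤
        p * ((m.choose a : ℝ) * p ^ a * (1 - p) ^ m) := by
      gcongr ?_ * (?_ * ?_)
      rw [pow_succ]
      have : 0 ≤ (1 - p) ^ m := by positivity
      nlinarith
    push_cast
    calc ((m.choose a : ℝ) + (m.choose (a + 1) : ℝ)) * p ^ (a + 1) * (1 - p) ^ (m + 1)
        = p * ((m.choose a : ℝ) * p ^ a * (1 - p) ^ (m + 1)) +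
          (1 - p) * ((m.choose (a + 1) : ℝ) * p ^ (a + 1) * (1 - p) ^ m) := by ring
      _ ≤ _ := by linarith

/-- Real indicator. -/
noncomputable def ind (P : Prop) : ℝ := open Classical in if P then 1 else 0

theorem ind_nonneg (P : Prop) : 0 ≤ ind P := by unfold ind; split_ifs <;> norm_num

theorem ind_le_one (P : Prop) : ind P ≤ 1 := by unfold ind; split_ifs <;> norm_num

theorem ind_true {P : Prop} (h : P) : ind P = 1 := by unfold ind; rw [if_pos h]

theorem ind_false {P : Prop} (h : ¬ P) : ind P = 0 := by unfold ind; rw [if_neg h]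

theorem ind_mono {P Q : Prop} (h : P → Q) : ind P ≤ ind Q := by
  by_cases hP : P
  · rw [ind_true hP, ind_true (h hP)]
  · rw [ind_false hP]; exact ind_nonneg _

/-- First moment of one block. -/
theorem first_block {n b : ℕ} (hb : 1 ≤ b) (i : Fin n) (F : Finset (Fin n)) (hi : i ∉ F) (a : ℕ) :
    ∑ h : Fin n → Fin b, ind (a ≤ load F h (h i)) = (b : ℝ) ^ n * G (1 / b) F.card a := by
  classical
  have hb' : (b : ℝ) ≠ 0 := by positivity
  induction F using Finset.induction_on generalizing a with
  | empty =>
    cases a with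
    | zero =>
      rw [G_zero]
      have : ∀ h : Fin n → Fin b, ind (0 ≤ load ∅ h (h i)) = 1 := fun h => ind_true (Nat.zero_le _)
      simp only [this]
      simp
    | succ a =>
      have : ∀ h : Fin n → Fin b, ind (a + 1 ≤ load ∅ h (h i)) = 0 := by
        intro h
        apply ind_false
        simp [load]
      simp only [this]
      simp [G]
  | insert k F hk ih =>
    have hik : i ≠ k := by rintro rfl; exact hi (mem_insert_self _ _)
    have hiF : i ∉ F := fun h => hi (mem_insert_of_mem h)
    cases a with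
    | zero =>
      rw [G_zero]
      have : ∀ h : Fin n → Fin b, ind (0 ≤ load (insert k F) h (h i)) = 1 :=
        fun h => ind_true (Nat.zero_le _)
      simp only [this]
      simp
    | succ a =>
      rw [card_insert_of_notMem hk, G_succ]
      have h1 := resample k (fun h : Fin n → Fin b => ind (a + 1 ≤ load (insert k F) h (h i)))
      have h2 : ∀ h : Fin n → Fin b, ∑ v : Fin b,
          ind (a + 1 ≤ load (insert k F) (Function.update h k v) (Function.update h k v i)) =
          ((b : ℝ) - 1) * ind (a + 1 ≤ load F h (h i)) + ind (a ≤ load F h (h i)) := by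
        intro h
        have h3 : ∀ v : Fin b,
            ind (a + 1 ≤ load (insert k F) (Function.update h k v) (Function.update h k v i)) =
            ind (a + 1 ≤ load F h (h i)) +
              (if v = h i then ind (a ≤ load F h (h i)) - ind (a + 1 ≤ load F h (h i)) else 0) := by
          intro v
          rw [Function.update_of_ne hik, load_insert hk]
          by_cases hv : v = h i
          · rw [if_pos hv, if_pos hv]
            have : ind (a + 1 ≤ load F h (h i) + 1) = ind (a ≤ load F h (h i)) := by
              congr 1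
              apply propext
              omega
            rw [this]; ring
          · rw [if_neg hv, if_neg hv]; simp
        simp only [h3]
        rw [sum_add_distrib, sum_ite_eq' univ (h i)]
        simp
        ring
      simp only [h2] at h1
      rw [sum_add_distrib, ← mul_sum, ih hiF (a + 1), ih hiF a] at h1
      have h4 : ∑ h : Fin n → Fin b, ind (a + 1 ≤ load (insert k F) h (h i)) =
          (((b : ℝ) - 1) * ((b : ℝ) ^ n * G (1 / b) F.card (a + 1)) +
            (b : ℝ) ^ n * G (1 / b) F.card a) / b := by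
        rw [h1]; field_simp
      rw [h4]
      field_simp

/-- Negative correlation for two different buckets. -/
theorem pair_block {n b : ℕ} (hb : 2 ≤ b) (i i' : Fin n) (F : Finset (Fin n))
    (hi : i ∉ F) (hi' : i' ∉ F) (a c : ℕ) :
    ∑ h : Fin n → Fin b, ind (h i ≠ h i' ∧ a ≤ load F h (h i) ∧ c ≤ load F h (h i')) ≤
      (b : ℝ) ^ n * (G (1 / b) F.card a * G (1 / b) F.card c) := by
  classical
  have hb0 : (b : ℝ) ≠ 0 := by positivity
  have hbp : (0 : ℝ) < b := by positivity
  have hb2 : (2 : ℝ) ≤ b := by exact_mod_cast hb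
  have hp0 : (0 : ℝ) ≤ 1 / b := by positivity
  have hp1 : (1 : ℝ) / b ≤ 1 := by rw [div_le_one hbp]; linarith
  induction F using Finset.induction_on generalizing a c with
  | empty =>
    by_cases hac : a = 0 ∧ c = 0
    · obtain ⟨rfl, rfl⟩ := hac
      rw [G_zero]
      calc ∑ h : Fin n → Fin b, ind (h i ≠ h i' ∧ 0 ≤ load ∅ h (h i) ∧ 0 ≤ load ∅ h (h i'))
          ≤ ∑ _h : Fin n → Fin b, (1 : ℝ) := sum_le_sum fun h _ => ind_le_one _
        _ = (b : ℝ) ^ n * (1 * 1) := by simp
    · have : ∀ h : Fin n → Fin b,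
          ind (h i ≠ h i' ∧ a ≤ load ∅ h (h i) ∧ c ≤ load ∅ h (h i')) = 0 := by
        intro h
        apply ind_false
        rintro ⟨_, h1, h2⟩
        apply hac
        simp only [load, filter_empty, card_empty] at h1 h2
        omega
      simp only [this, sum_const_zero]
      have := G_nonneg hp0 hp1 (∅ : Finset (Fin n)).card a
      have := G_nonneg hp0 hp1 (∅ : Finset (Fin n)).card c
      positivity
  | insert k F hk ih =>
    have hik : i ≠ k := by rintro rfl; exact hi (mem_insert_self _ _)
    have hiF : i ∉ F := fun h => hi (mem_insert_of_mem h)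
    have hik' : i' ≠ k := by rintro rfl; exact hi' (mem_insert_self _ _)
    have hiF' : i' ∉ F := fun h => hi' (mem_insert_of_mem h)
    cases a with
    | zero =>
      calc ∑ h : Fin n → Fin b,
            ind (h i ≠ h i' ∧ 0 ≤ load (insert k F) h (h i) ∧ c ≤ load (insert k F) h (h i'))
          ≤ ∑ h : Fin n → Fin b, ind (c ≤ load (insert k F) h (h i')) :=
            sum_le_sum fun h _ => ind_mono fun h1 => h1.2.2
        _ = (b : ℝ) ^ n * (G (1 / b) (insert k F).card 0 * G (1 / b) (insert k F).card c) := by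
            rw [first_block (by omega) i' _ hi', G_zero, one_mul]
        _ ≤ _ := le_rfl
    | succ a =>
      cases c with
      | zero =>
        calc ∑ h : Fin n → Fin b, ind (h i ≠ h i' ∧ a + 1 ≤ load (insert k F) h (h i) ∧
              0 ≤ load (insert k F) h (h i'))
            ≤ ∑ h : Fin n → Fin b, ind (a + 1 ≤ load (insert k F) h (h i)) :=
              sum_le_sum fun h _ => ind_mono fun h1 => h1.2.1
          _ = (b : ℝ) ^ n * (G (1 / b) (insert k F).card (a + 1) *
                G (1 / b) (insert k F).card 0) := by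
              rw [first_block (by omega) i _ hi, G_zero, mul_one]
          _ ≤ _ := le_rfl
      | succ c =>
        have h1 := resample k (fun h : Fin n → Fin b => ind (h i ≠ h i' ∧
          a + 1 ≤ load (insert k F) h (h i) ∧ c + 1 ≤ load (insert k F) h (h i')))
        have h2 : ∀ h : Fin n → Fin b, ∑ v : Fin b,
            ind (Function.update h k v i ≠ Function.update h k v i' ∧
              a + 1 ≤ load (insert k F) (Function.update h k v) (Function.update h k v i) ∧
              c + 1 ≤ load (insert k F) (Function.update h k v) (Function.update h k v i')) =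
            ((b : ℝ) - 2) * ind (h i ≠ h i' ∧ a + 1 ≤ load F h (h i) ∧ c + 1 ≤ load F h (h i')) +
              ind (h i ≠ h i' ∧ a ≤ load F h (h i) ∧ c + 1 ≤ load F h (h i')) +
              ind (h i ≠ h i' ∧ a + 1 ≤ load F h (h i) ∧ c ≤ load F h (h i')) := by
          intro h
          have h3 : ∀ v : Fin b,
              ind (Function.update h k v i ≠ Function.update h k v i' ∧
                a + 1 ≤ load (insert k F) (Function.update h k v) (Function.update h k v i) ∧
                c + 1 ≤ load (insert k F) (Function.update h k v) (Function.update h k v i')) =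
              ind (h i ≠ h i' ∧ a + 1 ≤ load F h (h i) ∧ c + 1 ≤ load F h (h i')) +
                (if v = h i then
                  ind (h i ≠ h i' ∧ a ≤ load F h (h i) ∧ c + 1 ≤ load F h (h i')) -
                  ind (h i ≠ h i' ∧ a + 1 ≤ load F h (h i) ∧ c + 1 ≤ load F h (h i')) else 0) +
                (if v = h i' then
                  ind (h i ≠ h i' ∧ a + 1 ≤ load F h (h i) ∧ c ≤ load F h (h i')) -
                  ind (h i ≠ h i' ∧ a + 1 ≤ load F h (h i) ∧ c + 1 ≤ load F h (h i')) else 0) := by
            intro v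
            rw [Function.update_of_ne hik, Function.update_of_ne hik', load_insert hk,
              load_insert hk]
            by_cases hne : h i = h i'
            · have hf : ∀ P : Prop, ind (h i ≠ h i' ∧ P) = 0 := fun P =>
                ind_false fun h4 => h4.1 hne
              simp only [hf]
              simp
            · by_cases hv : v = h i
              · have hv' : v ≠ h i' := fun h4 => hne (hv.symm.trans h4)
                rw [if_pos hv, if_neg hv', if_pos hv, if_neg hv']
                have : ind (h i ≠ h i' ∧ a + 1 ≤ load F h (h i) + 1 ∧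
                    c + 1 ≤ load F h (h i') + 0) =
                    ind (h i ≠ h i' ∧ a ≤ load F h (h i) ∧ c + 1 ≤ load F h (h i')) := by
                  congr 1
                  apply propext
                  constructor
                  · rintro ⟨q1, q2, q3⟩; exact ⟨q1, by omega, by omega⟩
                  · rintro ⟨q1, q2, q3⟩; exact ⟨q1, by omega, by omega⟩
                rw [this]; ring
              · by_cases hv' : v = h i'
                · rw [if_neg hv, if_pos hv', if_neg hv, if_pos hv']
                  have : ind (h i ≠ h i' ∧ a + 1 ≤ load F h (h i) + 0 ∧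
                      c + 1 ≤ load F h (h i') + 1) =
                      ind (h i ≠ h i' ∧ a + 1 ≤ load F h (h i) ∧ c ≤ load F h (h i')) := by
                    congr 1
                    apply propext
                    constructor
                    · rintro ⟨q1, q2, q3⟩; exact ⟨q1, by omega, by omega⟩
                    · rintro ⟨q1, q2, q3⟩; exact ⟨q1, by omega, by omega⟩
                  rw [this]; ring
                · rw [if_neg hv, if_neg hv', if_neg hv, if_neg hv']
                  simp
          simp only [h3]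
          rw [sum_add_distrib, sum_add_distrib, sum_ite_eq' univ (h i), sum_ite_eq' univ (h i')]
          simp
          ring
        simp only [h2] at h1
        rw [sum_add_distrib, sum_add_distrib, ← mul_sum] at h1
        have i1 := ih hiF hiF' (a + 1) (c + 1)
        have i2 := ih hiF hiF' a (c + 1)
        have i3 := ih hiF hiF' (a + 1) c
        rw [card_insert_of_notMem hk, G_succ, G_succ]
        set p : ℝ := 1 / b with hp
        have hpb : (b : ℝ) * p = 1 := by rw [hp]; field_simp
        have hb2' : (0 : ℝ) ≤ (b : ℝ) - 2 := by linarith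
        set x := G p F.card (a + 1) with hx
        set x' := G p F.card a with hx'
        set y := G p F.card (c + 1) with hy
        set y' := G p F.card c with hy'
        have hxx : x ≤ x' := G_anti hp0 hp1 _ _
        have hyy : y ≤ y' := G_anti hp0 hp1 _ _
        have hbn : (0 : ℝ) < (b : ℝ) ^ n := by positivity
        have key : (b : ℝ) * ∑ h : Fin n → Fin b, ind (h i ≠ h i' ∧
            a + 1 ≤ load (insert k F) h (h i) ∧ c + 1 ≤ load (insert k F) h (h i')) ≤
            (b : ℝ) * ((b : ℝ) ^ n *
              (((1 - p) * x + p * x') * ((1 - p) * y + p * y'))) := by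
          rw [← h1]
          calc _ ≤ ((b : ℝ) - 2) * ((b : ℝ) ^ n * (x * y)) + (b : ℝ) ^ n * (x' * y) +
                (b : ℝ) ^ n * (x * y') := by gcongr
            _ = (b : ℝ) ^ n * (((b : ℝ) - 2) * (x * y) + x' * y + x * y') := by ring
            _ ≤ (b : ℝ) ^ n * ((b : ℝ) * (((1 - p) * x + p * x') * ((1 - p) * y + p * y'))) := by
                gcongr
                have e1 : (b : ℝ) * (((1 - p) * x + p * x') * ((1 - p) * y + p * y')) =
                    ((b : ℝ) - 2 * ((b : ℝ) * p)) * (x * y) + (b : ℝ) * p * (x' * y) +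
                      (b : ℝ) * p * (x * y') + ((b : ℝ) * p) * p * ((x' - x) * (y' - y)) := by
                  ring
                rw [e1, hpb]
                have : 0 ≤ 1 * p * ((x' - x) * (y' - y)) := by
                  have q1 : 0 ≤ x' - x := by linarith
                  have q2 : 0 ≤ y' - y := by linarith
                  positivity
                linarith
            _ = _ := by ring
        exact le_of_mul_le_mul_left key hbp

/-- Second moment of one block. -/
theorem second_block {n b : ℕ} (hb : 2 ≤ b) (i i' : Fin n) (hii : i ≠ i') (F : Finset (Fin n))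
    (hi : i ∉ F) (hi' : i' ∉ F) (a : ℕ) :
    ∑ h : Fin n → Fin b, ind (a ≤ load F h (h i)) * ind (a ≤ load F h (h i')) ≤
      (b : ℝ) ^ n * (G (1 / b) F.card a ^ 2 + G (1 / b) F.card a / b) := by
  classical
  have hb0 : (b : ℝ) ≠ 0 := by positivity
  have h1 : ∀ h : Fin n → Fin b, ind (a ≤ load F h (h i)) * ind (a ≤ load F h (h i')) ≤
      ind (h i ≠ h i' ∧ a ≤ load F h (h i) ∧ a ≤ load F h (h i')) +
        ind (h i' = h i) * ind (a ≤ load F h (h i)) := by
    intro h
    by_cases hne : h i' = h i
    · rw [ind_true hne, one_mul]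
      have e1 := ind_nonneg (h i ≠ h i' ∧ a ≤ load F h (h i) ∧ a ≤ load F h (h i'))
      have e2 := ind_nonneg (a ≤ load F h (h i))
      have e3 := ind_le_one (a ≤ load F h (h i'))
      nlinarith
    · have hne' : h i ≠ h i' := fun h2 => hne h2.symm
      by_cases q1 : a ≤ load F h (h i)
      · by_cases q2 : a ≤ load F h (h i')
        · rw [ind_true q1, ind_true q2, ind_true ⟨hne', q1, q2⟩]
          have := ind_nonneg (h i' = h i)
          linarith
        · rw [ind_false q2, mul_zero]
          have e1 := ind_nonneg (h i ≠ h i' ∧ a ≤ load F h (h i) ∧ a ≤ load F h (h i'))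
          have e2 := ind_nonneg (h i' = h i)
          have e3 := ind_nonneg (a ≤ load F h (h i))
          positivity
      · rw [ind_false q1, zero_mul, mul_zero, add_zero]
        exact ind_nonneg _
  have h2 : ∑ h : Fin n → Fin b, ind (h i' = h i) * ind (a ≤ load F h (h i)) =
      (b : ℝ) ^ n * G (1 / b) F.card a / b := by
    have e1 := resample i' (fun h : Fin n → Fin b =>
      ind (h i' = h i) * ind (a ≤ load F h (h i)))
    have e2 : ∀ h : Fin n → Fin b, ∑ v : Fin b,
        ind (Function.update h i' v i' = Function.update h i' v i) *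
          ind (a ≤ load F (Function.update h i' v) (Function.update h i' v i)) =
        ind (a ≤ load F h (h i)) := by
      intro h
      have e3 : ∀ v : Fin b, ind (Function.update h i' v i' = Function.update h i' v i) *
          ind (a ≤ load F (Function.update h i' v) (Function.update h i' v i)) =
          if v = h i then ind (a ≤ load F h (h i)) else 0 := by
        intro v
        rw [Function.update_self, Function.update_of_ne hii]
        have e4 : load F (Function.update h i' v) (h i) = load F h (h i) := by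
          unfold load
          congr 1
          apply filter_congr
          intro k hk
          have : k ≠ i' := by rintro rfl; exact hi' hk
          rw [Function.update_of_ne this]
        rw [e4]
        by_cases hv : v = h i
        · rw [if_pos hv, ind_true hv, one_mul]
        · rw [if_neg hv, ind_false hv, zero_mul]
      simp only [e3]
      rw [sum_ite_eq' univ (h i)]
      simp
    simp only [e2] at e1
    rw [first_block (by omega) i F hi] at e1
    field_simp
    linarith
  calc ∑ h : Fin n → Fin b, ind (a ≤ load F h (h i)) * ind (a ≤ load F h (h i'))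
      ≤ ∑ h : Fin n → Fin b, (ind (h i ≠ h i' ∧ a ≤ load F h (h i) ∧ a ≤ load F h (h i')) +
        ind (h i' = h i) * ind (a ≤ load F h (h i))) := sum_le_sum fun h _ => h1 h
    _ ≤ (b : ℝ) ^ n * (G (1 / b) F.card a * G (1 / b) F.card a) +
        (b : ℝ) ^ n * G (1 / b) F.card a / b := by
        rw [sum_add_distrib, h2]
        gcongr
        exact pair_block hb i i' F hi hi' a a
    _ = _ := by ring

/-- The number of elements of `S` all of whose buckets are heavy. -/
noncomputable def cnt {n b ζ : ℕ} (F S : Finset (Fin n)) (D : ℕ) (s : Fin ζ → Fin n → Fin b) : ℝ :=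
  ∑ i ∈ S, ∏ j, ind (D ≤ load F (s j) (s j i))

theorem cnt_first {n b ζ : ℕ} (hb : 1 ≤ b) (F S : Finset (Fin n)) (hFS : Disjoint F S) (D : ℕ) :
    ∑ s : Fin ζ → Fin n → Fin b, cnt F S D s =
      S.card * ((b : ℝ) ^ n * G (1 / b) F.card D) ^ ζ := by
  unfold cnt
  rw [sum_comm]
  have h1 : ∀ i ∈ S, ∑ s : Fin ζ → Fin n → Fin b, ∏ j, ind (D ≤ load F (s j) (s j i)) =
      ((b : ℝ) ^ n * G (1 / b) F.card D) ^ ζ := by
    intro i hi
    have hiF : i ∉ F := fun h => (disjoint_left.1 hFS) h hi
    rw [← first_block hb i F hiF D]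
    exact (Fintype.sum_pow (fun h : Fin n → Fin b => ind (D ≤ load F h (h i))) ζ).symm
  rw [sum_congr rfl h1, sum_const, nsmul_eq_mul]

theorem cnt_second {n b ζ : ℕ} (hb : 2 ≤ b) (F S : Finset (Fin n)) (hFS : Disjoint F S) (D : ℕ) :
    ∑ s : Fin ζ → Fin n → Fin b, cnt F S D s ^ 2 ≤
      S.card * ((b : ℝ) ^ n * G (1 / b) F.card D) ^ ζ +
      S.card ^ 2 * ((b : ℝ) ^ n * (G (1 / b) F.card D ^ 2 + G (1 / b) F.card D / b)) ^ ζ := by
  classical
  have hbp : (0 : ℝ) < b := by positivity
  have hp0 : (0 : ℝ) ≤ 1 / b := by positivity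
  have hp1 : (1 : ℝ) / b ≤ 1 := by
    rw [div_le_one hbp]
    exact_mod_cast (by omega : 1 ≤ b)
  have hG := G_nonneg hp0 hp1 F.card D
  have h0 : ∀ s : Fin ζ → Fin n → Fin b, cnt F S D s ^ 2 =
      ∑ i ∈ S, ∑ i' ∈ S, ∏ j, (ind (D ≤ load F (s j) (s j i)) *
        ind (D ≤ load F (s j) (s j i'))) := by
    intro s
    unfold cnt
    rw [sq, sum_mul_sum]
    refine sum_congr rfl fun i _ => sum_congr rfl fun i' _ => ?_
    rw [prod_mul_distrib]
  simp only [h0]
  rw [sum_comm]
  have h1 : ∀ i ∈ S, ∑ s : Fin ζ → Fin n → Fin b, ∑ i' ∈ S,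
      ∏ j, (ind (D ≤ load F (s j) (s j i)) * ind (D ≤ load F (s j) (s j i'))) ≤
      ((b : ℝ) ^ n * G (1 / b) F.card D) ^ ζ +
      S.card * ((b : ℝ) ^ n * (G (1 / b) F.card D ^ 2 + G (1 / b) F.card D / b)) ^ ζ := by
    intro i hi
    have hiF : i ∉ F := fun h => (disjoint_left.1 hFS) h hi
    rw [sum_comm]
    have h2 : ∀ i' ∈ S, ∑ s : Fin ζ → Fin n → Fin b,
        ∏ j, (ind (D ≤ load F (s j) (s j i)) * ind (D ≤ load F (s j) (s j i'))) ≤
        (if i' = i then ((b : ℝ) ^ n * G (1 / b) F.card D) ^ ζ else 0) +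
        ((b : ℝ) ^ n * (G (1 / b) F.card D ^ 2 + G (1 / b) F.card D / b)) ^ ζ := by
      intro i' hi'
      have hiF' : i' ∉ F := fun h => (disjoint_left.1 hFS) h hi'
      have h3 : ∑ s : Fin ζ → Fin n → Fin b,
          ∏ j, (ind (D ≤ load F (s j) (s j i)) * ind (D ≤ load F (s j) (s j i'))) =
          (∑ h : Fin n → Fin b, ind (D ≤ load F h (h i)) * ind (D ≤ load F h (h i'))) ^ ζ :=
        (Fintype.sum_pow (fun h : Fin n → Fin b =>
          ind (D ≤ load F h (h i)) * ind (D ≤ load F h (h i'))) ζ).symm
      rw [h3]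
      by_cases hii : i' = i
      · rw [if_pos hii, hii]
        have h4 : ∀ h : Fin n → Fin b, ind (D ≤ load F h (h i)) * ind (D ≤ load F h (h i)) =
            ind (D ≤ load F h (h i)) := by
          intro h
          by_cases q : D ≤ load F h (h i)
          · rw [ind_true q]; ring
          · rw [ind_false q]; ring
        simp only [h4]
        rw [first_block (by omega) i F hiF D]
        have : 0 ≤ ((b : ℝ) ^ n * (G (1 / b) F.card D ^ 2 + G (1 / b) F.card D / b)) ^ ζ := by
          positivity
        linarith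
      · rw [if_neg hii, zero_add]
        apply pow_le_pow_left₀
        · apply sum_nonneg
          intro h _
          exact mul_nonneg (ind_nonneg _) (ind_nonneg _)
        · exact second_block hb i i' (fun h => hii h.symm) F hiF hiF' D
    refine (sum_le_sum h2).trans ?_
    rw [sum_add_distrib, sum_ite_eq' S i, if_pos hi, sum_const, nsmul_eq_mul]
  refine (sum_le_sum h1).trans ?_
  rw [sum_const, nsmul_eq_mul]
  apply le_of_eq
  ring

/-- Chebyshev: few samples have no good element. -/
theorem few_bad {n b ζ : ℕ} (hb : 2 ≤ b) (F S : Finset (Fin n)) (hFS : Disjoint F S) (D : ℕ)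
    (hS : 0 < S.card) (hG : 0 < G (1 / b) F.card D) :
    ((univ.filter (fun s : Fin ζ → Fin n → Fin b => cnt F S D s = 0)).card : ℝ) ≤
      (1 / (S.card * G (1 / b) F.card D ^ ζ) + ((1 + 1 / (b * G (1 / b) F.card D)) ^ ζ - 1)) *
        ((b : ℝ) ^ n) ^ ζ := by
  classical
  set g := G (1 / (b : ℝ)) F.card D with hg
  set K : ℝ := ((S.card : ℕ) : ℝ) with hK
  have hKp : 0 < K := by rw [hK]; exact_mod_cast hS
  have hbp : (0 : ℝ) < b := by positivity
  set T : ℝ := ((b : ℝ) ^ n) ^ ζ with hT
  have hTp : 0 < T := by rw [hT]; positivity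
  set μ : ℝ := K * g ^ ζ with hμ
  have hμp : 0 < μ := by rw [hμ]; positivity
  have h1 := cnt_first (ζ := ζ) (b := b) (by omega) F S hFS D
  have h2 := cnt_second (ζ := ζ) hb F S hFS D
  rw [← hg, ← hK] at h1 h2
  have hcard : ((univ : Finset (Fin ζ → Fin n → Fin b)).card : ℝ) = T := by
    rw [card_univ, hT]
    simp
  have h3 : ∑ s : Fin ζ → Fin n → Fin b, (cnt F S D s - μ) ^ 2 =
      ∑ s : Fin ζ → Fin n → Fin b, cnt F S D s ^ 2 - T * μ ^ 2 := by
    have e1 : ∀ s : Fin ζ → Fin n → Fin b, (cnt F S D s - μ) ^ 2 =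
        cnt F S D s ^ 2 - 2 * μ * cnt F S D s + μ ^ 2 := by intro s; ring
    simp only [e1]
    rw [sum_add_distrib, sum_sub_distrib, ← mul_sum, h1, sum_const, nsmul_eq_mul, hcard, mul_pow,
      ← hT]
    rw [hμ]; ring
  have h4 : ((univ.filter (fun s : Fin ζ → Fin n → Fin b => cnt F S D s = 0)).card : ℝ) * μ ^ 2 ≤
      ∑ s : Fin ζ → Fin n → Fin b, (cnt F S D s - μ) ^ 2 := by
    calc ((univ.filter (fun s : Fin ζ → Fin n → Fin b => cnt F S D s = 0)).card : ℝ) * μ ^ 2
        = ∑ s ∈ univ.filter (fun s : Fin ζ → Fin n → Fin b => cnt F S D s = 0),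
            (cnt F S D s - μ) ^ 2 := by
          rw [← nsmul_eq_mul, ← sum_const]
          refine sum_congr rfl fun s hs => ?_
          rw [mem_filter] at hs
          rw [hs.2]; ring
      _ ≤ _ := sum_le_sum_of_subset_of_nonneg (filter_subset _ _) fun s _ _ => sq_nonneg _
  have h5 : ∑ s : Fin ζ → Fin n → Fin b, cnt F S D s ^ 2 - T * μ ^ 2 ≤
      T * (K * g ^ ζ + K ^ 2 * ((g ^ 2 + g / b) ^ ζ - (g ^ 2) ^ ζ)) := by
    have e1 : T * μ ^ 2 = T * (K ^ 2 * (g ^ 2) ^ ζ) := by
      rw [hμ]; ring
    rw [e1]
    calc _ ≤ K * ((b : ℝ) ^ n * g) ^ ζ + K ^ 2 * ((b : ℝ) ^ n * (g ^ 2 + g / b)) ^ ζ -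
          T * (K ^ 2 * (g ^ 2) ^ ζ) := by linarith
      _ = _ := by rw [mul_pow, mul_pow, ← hT]; ring
  have h6 : (g ^ 2 + g / b) ^ ζ = (g ^ 2) ^ ζ * (1 + 1 / (b * g)) ^ ζ := by
    rw [← mul_pow]
    congr 1
    field_simp
  have h7 : T * (K * g ^ ζ + K ^ 2 * ((g ^ 2 + g / b) ^ ζ - (g ^ 2) ^ ζ)) =
      (1 / (K * g ^ ζ) + ((1 + 1 / (b * g)) ^ ζ - 1)) * T * μ ^ 2 := by
    have e1 : (g ^ 2) ^ ζ = (g ^ ζ) ^ 2 := by rw [← pow_mul, ← pow_mul, mul_comm]
    rw [h6, hμ, e1]
    generalize (1 + 1 / ((b : ℝ) * g)) ^ ζ = y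
    have hq : g ^ ζ ≠ 0 := by positivity
    generalize g ^ ζ = q at hq
    field_simp
  have h8 := (h4.trans_eq h3).trans (h5.trans_eq h7)
  exact le_of_mul_le_mul_right h8 (by positivity)

end Pool.Agent.Run7.h558.Ss
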