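import Pool.Agent.Run7.h558.SsA

/-!
# Random signs: an approximate kernel vector
-/

set_option autoImplicit false
open Finset

namespace Pool.Agent.Run7.h558.Ss

/-- The sign of a Boolean. -/
def sg (t : Bool) : ℝ := if t then 1 else -1

theorem sg_sq (t : Bool) : sg t ^ 2 = 1 := by cases t <;> simp [sg]

theorem sg_mul_self (t : Bool) : sg t * sg t = 1 := by cases t <;> simp [sg]

theorem sg_not (t : Bool) : sg (!t) = - sg t := by cases t <;> simp [sg]

variable {n b ζ : ℕ}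

/-- Flip one sign. -/
def flip (j : Fin ζ) (i : Fin n) (ρ : Fin ζ → Fin n → Bool) : Fin ζ → Fin n → Bool :=
  Function.update ρ j (Function.update (ρ j) i (!ρ j i))

theorem flip_self (j : Fin ζ) (i : Fin n) (ρ : Fin ζ → Fin n → Bool) : flip j i ρ j i = !ρ j i := by
  simp [flip]

theorem flip_row (j j' : Fin ζ) (i : Fin n) (h : j' ≠ j) (ρ : Fin ζ → Fin n → Bool) :
    flip j i ρ j' = ρ j' := by
  simp [flip, h]

theorem flip_col (j : Fin ζ) (i i' : Fin n) (h : i' ≠ i) (ρ : Fin ζ → Fin n → Bool) :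
    flip j i ρ j i' = ρ j i' := by
  simp [flip, h]

theorem flip_flip (j : Fin ζ) (i : Fin n) (ρ : Fin ζ → Fin n → Bool) :
    flip j i (flip j i ρ) = ρ := by
  funext j' i'
  by_cases hj : j' = j
  · subst hj
    by_cases hi : i' = i
    · subst hi
      rw [flip_self, flip_self, Bool.not_not]
    · rw [flip_col _ _ _ hi, flip_col _ _ _ hi]
  · rw [flip_row _ _ _ hj, flip_row _ _ _ hj]

theorem sum_flip (j : Fin ζ) (i : Fin n) (f : (Fin ζ → Fin n → Bool) → ℝ)
    (hf : ∀ ρ, f (flip j i ρ) = - f ρ) : ∑ ρ, f ρ = 0 := by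
  have h1 : ∑ ρ, f ρ = ∑ ρ, f (flip j i ρ) := by
    let e : (Fin ζ → Fin n → Bool) ≃ (Fin ζ → Fin n → Bool) :=
      ⟨flip j i, flip j i, flip_flip j i, flip_flip j i⟩
    exact (Equiv.sum_comp e f).symm
  simp only [hf, sum_neg_distrib] at h1
  linarith

/-- The coefficient. -/
noncomputable def Y (R : Fin ζ → Finset (Fin n)) (i0 : Fin n) (ρ : Fin ζ → Fin n → Bool)
    (j : Fin ζ) (i : Fin n) : ℝ :=
  ∑ j' ∈ univ.erase j, if i ∈ R j' then sg (ρ j' i0) * sg (ρ j' i) else 0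

theorem Y_flip (R : Fin ζ → Finset (Fin n)) (i0 : Fin n) (ρ : Fin ζ → Fin n → Bool)
    (j : Fin ζ) (i i' : Fin n) : Y R i0 (flip j i ρ) j i' = Y R i0 ρ j i' := by
  unfold Y
  refine sum_congr rfl fun j' hj' => ?_
  rw [mem_erase] at hj'
  rw [flip_row _ _ _ hj'.1]

theorem Y_sq (R : Fin ζ → Finset (Fin n)) (i0 : Fin n) (ρ : Fin ζ → Fin n → Bool)
    (j : Fin ζ) (i : Fin n) :
    Y R i0 ρ j i ^ 2 ≤ ζ * ∑ j', if i ∈ R j' then (1 : ℝ) else 0 := by
  unfold Y
  calc (∑ j' ∈ univ.erase j, if i ∈ R j' then sg (ρ j' i0) * sg (ρ j' i) else 0) ^ 2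
      ≤ ((univ.erase j).card : ℝ) *
          ∑ j' ∈ univ.erase j, (if i ∈ R j' then sg (ρ j' i0) * sg (ρ j' i) else 0) ^ 2 :=
        sq_sum_le_card_mul_sum_sq
    _ = ((univ.erase j).card : ℝ) * ∑ j' ∈ univ.erase j, if i ∈ R j' then (1 : ℝ) else 0 := by
        congr 1
        refine sum_congr rfl fun j' _ => ?_
        split_ifs
        · rw [mul_pow, sg_sq, sg_sq, one_mul]
        · simp
    _ ≤ ζ * ∑ j', if i ∈ R j' then (1 : ℝ) else 0 := by
        have q1 : ((univ.erase j).card : ℝ) ≤ ζ := by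
          have := card_le_card (erase_subset j (univ : Finset (Fin ζ)))
          rw [card_univ, Fintype.card_fin] at this
          exact_mod_cast this
        have q2 : ∑ j' ∈ univ.erase j, (if i ∈ R j' then (1 : ℝ) else 0) ≤
            ∑ j', if i ∈ R j' then (1 : ℝ) else 0 := by
          apply sum_le_sum_of_subset_of_nonneg (erase_subset _ _)
          intro j' _ _
          split_ifs <;> norm_num
        have q3 : 0 ≤ ∑ j' ∈ univ.erase j, (if i ∈ R j' then (1 : ℝ) else 0) := by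
          apply sum_nonneg
          intro j' _
          split_ifs <;> norm_num
        exact mul_le_mul q1 q2 q3 (Nat.cast_nonneg _)

/-- The approximate kernel vector. -/
noncomputable def xv (R : Fin ζ → Finset (Fin n)) (D : ℕ) (i0 : Fin n)
    (ρ : Fin ζ → Fin n → Bool) (i : Fin n) : ℝ :=
  (if i = i0 then 1 else 0) -
    (1 / D) * ∑ j, if i ∈ R j then sg (ρ j i0) * sg (ρ j i) else 0

theorem xv_self (R : Fin ζ → Finset (Fin n)) (D : ℕ) (i0 : Fin n) (hR : ∀ j, i0 ∉ R j)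
    (ρ : Fin ζ → Fin n → Bool) : xv R D i0 ρ i0 = 1 := by
  unfold xv
  have : ∀ j, (if i0 ∈ R j then sg (ρ j i0) * sg (ρ j i0) else 0) = 0 := fun j => if_neg (hR j)
  simp [this]

/-- One coordinate of the image, up to the normalisation. -/
noncomputable def Z (s : Fin ζ → Fin n → Fin b) (ρ : Fin ζ → Fin n → Bool) (x : Fin n → ℝ)
    (j : Fin ζ) (l : Fin b) : ℝ :=
  ∑ i, if s j i = l then sg (ρ j i) * x i else 0

theorem Z_xv (s : Fin ζ → Fin n → Fin b) (R : Fin ζ → Finset (Fin n)) (D : ℕ) (hD : 0 < D)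
    (i0 : Fin n) (hR : ∀ j, i0 ∉ R j) (hcard : ∀ j, (R j).card = D)
    (hs : ∀ j, ∀ i ∈ R j, s j i = s j i0) (ρ : Fin ζ → Fin n → Bool) (j : Fin ζ) (l : Fin b) :
    Z s ρ (xv R D i0 ρ) j l =
      - (1 / D) * ∑ i, if s j i = l then sg (ρ j i) * Y R i0 ρ j i else 0 := by
  have hD' : (D : ℝ) ≠ 0 := by positivity
  unfold Z
  have h1 : ∀ i, xv R D i0 ρ i = (if i = i0 then 1 else 0) -
      (1 / D) * (if i ∈ R j then sg (ρ j i0) * sg (ρ j i) else 0) - (1 / D) * Y R i0 ρ j i := by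
    intro i
    unfold xv Y
    rw [← add_sum_erase univ (fun j => if i ∈ R j then sg (ρ j i0) * sg (ρ j i) else 0)
      (mem_univ j)]
    ring
  have h2 : ∀ i, (if s j i = l then sg (ρ j i) * xv R D i0 ρ i else 0) =
      (if i = i0 then (if s j i0 = l then sg (ρ j i0) else 0) else 0) -
        (1 / D) * (if i ∈ R j then (if s j i0 = l then sg (ρ j i0) else 0) else 0) +
        (- (1 / D)) * (if s j i = l then sg (ρ j i) * Y R i0 ρ j i else 0) := by
    intro i
    rw [h1 i]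
    by_cases hi : i = i0
    · subst hi
      have := hR j
      rw [if_neg this, if_neg this]
      split_ifs <;> ring
    · rw [if_neg hi, if_neg hi]
      by_cases hiR : i ∈ R j
      · rw [if_pos hiR, if_pos hiR, hs j i hiR]
        split_ifs
        · have := sg_mul_self (ρ j i)
          linear_combination (-(1 / (D : ℝ)) * sg (ρ j i0)) * this
        · ring
      · rw [if_neg hiR, if_neg hiR]
        split_ifs <;> ring
  rw [sum_congr rfl fun i _ => h2 i, sum_add_distrib, sum_sub_distrib, ← mul_sum, ← mul_sum,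
    sum_ite_eq' univ i0, if_pos (mem_univ _), sum_ite_mem, univ_inter, sum_const, hcard j,
    nsmul_eq_mul]
  field_simp
  ring

/-- The second moment over the signs. -/
theorem sum_Z_sq (s : Fin ζ → Fin n → Fin b) (R : Fin ζ → Finset (Fin n)) (D : ℕ) (hD : 0 < D)
    (i0 : Fin n) (hR : ∀ j, i0 ∉ R j) (hcard : ∀ j, (R j).card = D)
    (hs : ∀ j, ∀ i ∈ R j, s j i = s j i0) (j : Fin ζ) :
    ∑ l, ∑ ρ : Fin ζ → Fin n → Bool, Z s ρ (xv R D i0 ρ) j l ^ 2 ≤
      (ζ : ℝ) ^ 2 / D * Fintype.card (Fin ζ → Fin n → Bool) := by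
  have hD' : (D : ℝ) ≠ 0 := by positivity
  set w : (Fin ζ → Fin n → Bool) → Fin b → Fin n → ℝ :=
    fun ρ l i => if s j i = l then sg (ρ j i) * Y R i0 ρ j i else 0 with hw
  have h1 : ∀ l, ∑ ρ : Fin ζ → Fin n → Bool, Z s ρ (xv R D i0 ρ) j l ^ 2 =
      (1 / D) ^ 2 * ∑ i, ∑ ρ : Fin ζ → Fin n → Bool, w ρ l i ^ 2 := by
    intro l
    have e1 : ∀ ρ : Fin ζ → Fin n → Bool, Z s ρ (xv R D i0 ρ) j l ^ 2 =
        (1 / D) ^ 2 * ∑ i, ∑ i', w ρ l i * w ρ l i' := by
      intro ρ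
      rw [Z_xv s R D hD i0 hR hcard hs ρ j l, mul_pow, neg_sq, ← sum_mul_sum, ← sq]
    simp only [e1]
    rw [← mul_sum, sum_comm]
    congr 1
    refine sum_congr rfl fun i _ => ?_
    rw [sum_comm]
    rw [← add_sum_erase univ (fun i' => ∑ ρ : Fin ζ → Fin n → Bool, w ρ l i * w ρ l i')
      (mem_univ i)]
    have e2 : ∑ i' ∈ univ.erase i, ∑ ρ : Fin ζ → Fin n → Bool, w ρ l i * w ρ l i' = 0 := by
      apply sum_eq_zero
      intro i' hi'
      rw [mem_erase] at hi'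
      apply sum_flip j i
      intro ρ
      simp only [hw]
      rw [Y_flip, Y_flip, flip_self, sg_not, flip_col _ _ _ hi'.1]
      split_ifs <;> ring
    rw [e2, add_zero]
    refine sum_congr rfl fun ρ _ => ?_
    rw [sq]
  simp only [h1]
  rw [← mul_sum, sum_comm]
  have h2 : ∀ i, ∑ l, ∑ ρ : Fin ζ → Fin n → Bool, w ρ l i ^ 2 =
      ∑ ρ : Fin ζ → Fin n → Bool, Y R i0 ρ j i ^ 2 := by
    intro i
    rw [sum_comm]
    refine sum_congr rfl fun ρ _ => ?_
    have e1 : ∀ l, w ρ l i ^ 2 = if s j i = l then Y R i0 ρ j i ^ 2 else 0 := by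
      intro l
      simp only [hw]
      split_ifs
      · rw [mul_pow, sg_sq, one_mul]
      · simp
    simp only [e1]
    rw [sum_ite_eq univ (s j i)]
    simp
  simp only [h2]
  rw [sum_comm]
  have h3 : ∀ ρ : Fin ζ → Fin n → Bool, ∑ i, Y R i0 ρ j i ^ 2 ≤ (ζ : ℝ) ^ 2 * D := by
    intro ρ
    calc ∑ i, Y R i0 ρ j i ^ 2 ≤ ∑ i, (ζ * ∑ j', if i ∈ R j' then (1 : ℝ) else 0) :=
          sum_le_sum fun i _ => Y_sq R i0 ρ j i
      _ = ζ * ∑ j', ∑ i, (if i ∈ R j' then (1 : ℝ) else 0) := by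
          rw [← mul_sum, sum_comm]
      _ = ζ * ∑ _j' : Fin ζ, (D : ℝ) := by
          congr 1
          refine sum_congr rfl fun j' _ => ?_
          rw [sum_ite_mem, univ_inter, sum_const, hcard j']
          simp
      _ = (ζ : ℝ) ^ 2 * D := by
          rw [sum_const, card_univ, Fintype.card_fin, nsmul_eq_mul]; ring
  calc (1 / (D : ℝ)) ^ 2 * ∑ ρ : Fin ζ → Fin n → Bool, ∑ i, Y R i0 ρ j i ^ 2
      ≤ (1 / (D : ℝ)) ^ 2 * ∑ _ρ : Fin ζ → Fin n → Bool, (ζ : ℝ) ^ 2 * D := by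
        gcongr with ρ _
        exact h3 ρ
    _ = (ζ : ℝ) ^ 2 / D * Fintype.card (Fin ζ → Fin n → Bool) := by
        rw [sum_const, card_univ, nsmul_eq_mul]
        field_simp

end Pool.Agent.Run7.h558.Ss
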