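import Pool.Agent.Run7.h558.SsB

/-!
# SparseStack matrices of constant sparsity are not injective on coordinate subspaces
-/

set_option autoImplicit false
open Finset

namespace Pool.Agent.Run7.h558.Ss

variable {n b ζ : ℕ}

/-- Injectivity on the first `r` coordinates. -/
def Inj (r : ℕ) (α : ℝ) (s : Fin ζ → Fin n → Fin b) (ρ : Fin ζ → Fin n → Bool) : Prop :=
  ∀ x : Fin n → ℝ, (∀ i : Fin n, r ≤ (i : ℕ) → x i = 0) →
    α * ∑ i, x i ^ 2 ≤ (1 / ζ) * ∑ j, ∑ l, Z s ρ x j l ^ 2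

open Classical in
/-- For a sample with a good element most sign patterns fail. -/
theorem signs_fail (hζ : 1 ≤ ζ) {r : ℕ} {α : ℝ} (hα : 0 < α) (F S : Finset (Fin n))
    (hFS : Disjoint F S) (hF : ∀ i ∈ F, (i : ℕ) < r) (hS : ∀ i ∈ S, (i : ℕ) < r) {D : ℕ}
    (hD : 0 < D) (s : Fin ζ → Fin n → Fin b) (hs : cnt F S D s ≠ 0) :
    ((univ.filter (fun ρ : Fin ζ → Fin n → Bool => Inj r α s ρ)).card : ℝ) ≤
      (ζ : ℝ) ^ 2 / (D * α) * Fintype.card (Fin ζ → Fin n → Bool) := by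
  obtain ⟨i0, hi0, hprod⟩ : ∃ i ∈ S, ∏ j, ind (D ≤ load F (s j) (s j i)) ≠ 0 := by
    by_contra hcon
    push Not at hcon
    exact hs (sum_eq_zero hcon)
  have hload : ∀ j, D ≤ load F (s j) (s j i0) := by
    intro j
    by_contra hcon
    apply hprod
    exact prod_eq_zero (mem_univ j) (ind_false hcon)
  have hch : ∀ j, ∃ R : Finset (Fin n), R ⊆ F.filter (fun k => s j k = s j i0) ∧ R.card = D :=
    fun j => exists_subset_card_eq (hload j)
  choose R hRsub hRcard using hch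
  have hi0F : i0 ∉ F := fun h => disjoint_left.1 hFS h hi0
  have hRi0 : ∀ j, i0 ∉ R j := fun j h => hi0F (mem_filter.1 (hRsub j h)).1
  have hRs : ∀ j, ∀ i ∈ R j, s j i = s j i0 := fun j i h => (mem_filter.1 (hRsub j h)).2
  have hζ' : (0 : ℝ) < ζ := by positivity
  have hD' : (0 : ℝ) < D := by positivity
  have hvan : ∀ ρ : Fin ζ → Fin n → Bool, ∀ i : Fin n, r ≤ (i : ℕ) → xv R D i0 ρ i = 0 := by
    intro ρ i hi
    have h1 : i ≠ i0 := by
      rintro rfl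
      exact absurd (hS i hi0) (by omega)
    have h2 : ∀ j, i ∉ R j := by
      intro j h
      exact absurd (hF i (mem_filter.1 (hRsub j h)).1) (by omega)
    unfold xv
    rw [if_neg h1]
    have h3 : ∀ j, (if i ∈ R j then sg (ρ j i0) * sg (ρ j i) else 0) = 0 := fun j => if_neg (h2 j)
    simp [h3]
  have hnorm : ∀ ρ : Fin ζ → Fin n → Bool, 1 ≤ ∑ i, xv R D i0 ρ i ^ 2 := by
    intro ρ
    have h1 := single_le_sum (f := fun i => xv R D i0 ρ i ^ 2) (fun i _ => sq_nonneg _)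
      (mem_univ i0)
    have h2 : xv R D i0 ρ i0 ^ 2 = 1 := by rw [xv_self R D i0 hRi0]; ring
    calc (1 : ℝ) = xv R D i0 ρ i0 ^ 2 := h2.symm
      _ ≤ _ := h1
  have hsum : ∑ ρ : Fin ζ → Fin n → Bool,
      ((1 / ζ : ℝ) * ∑ j, ∑ l, Z s ρ (xv R D i0 ρ) j l ^ 2) ≤
      (ζ : ℝ) ^ 2 / D * Fintype.card (Fin ζ → Fin n → Bool) := by
    rw [← mul_sum, sum_comm]
    have h1 : ∀ j, ∑ ρ : Fin ζ → Fin n → Bool, ∑ l, Z s ρ (xv R D i0 ρ) j l ^ 2 ≤
        (ζ : ℝ) ^ 2 / D * Fintype.card (Fin ζ → Fin n → Bool) := by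
      intro j
      rw [sum_comm]
      exact sum_Z_sq s R D hD i0 hRi0 hRcard hRs j
    calc (1 / ζ : ℝ) * ∑ j, ∑ ρ : Fin ζ → Fin n → Bool, ∑ l, Z s ρ (xv R D i0 ρ) j l ^ 2
        ≤ (1 / ζ : ℝ) * ∑ _j : Fin ζ, (ζ : ℝ) ^ 2 / D * Fintype.card (Fin ζ → Fin n → Bool) := by
          gcongr with j _
          exact h1 j
      _ = _ := by
          rw [sum_const, card_univ, Fintype.card_fin, nsmul_eq_mul]
          field_simp
  have hmark : α * ((univ.filter (fun ρ : Fin ζ → Fin n → Bool => Inj r α s ρ)).card : ℝ) ≤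
      ∑ ρ : Fin ζ → Fin n → Bool, ((1 / ζ : ℝ) * ∑ j, ∑ l, Z s ρ (xv R D i0 ρ) j l ^ 2) := by
    calc α * ((univ.filter (fun ρ : Fin ζ → Fin n → Bool => Inj r α s ρ)).card : ℝ)
        = ∑ ρ ∈ univ.filter (fun ρ : Fin ζ → Fin n → Bool => Inj r α s ρ), α := by
          rw [sum_const, nsmul_eq_mul]; ring
      _ ≤ ∑ ρ ∈ univ.filter (fun ρ : Fin ζ → Fin n → Bool => Inj r α s ρ),
            ((1 / ζ : ℝ) * ∑ j, ∑ l, Z s ρ (xv R D i0 ρ) j l ^ 2) := by
          refine sum_le_sum fun ρ hρ => ?_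
          have h1 := (mem_filter.1 hρ).2 (xv R D i0 ρ) (hvan ρ)
          have h2 := hnorm ρ
          nlinarith
      _ ≤ _ := by
          apply sum_le_sum_of_subset_of_nonneg (filter_subset _ _)
          intro ρ _ _
          have : 0 ≤ ∑ j, ∑ l, Z s ρ (xv R D i0 ρ) j l ^ 2 :=
            sum_nonneg fun j _ => sum_nonneg fun l _ => sq_nonneg _
          positivity
  have h := hmark.trans hsum
  have e : (ζ : ℝ) ^ 2 / (D * α) * Fintype.card (Fin ζ → Fin n → Bool) =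
      ((ζ : ℝ) ^ 2 / D * Fintype.card (Fin ζ → Fin n → Bool)) / α := by
    field_simp
  rw [e, le_div_iff₀ hα]
  linarith

open Classical in
/-- Upper bound for the number of samples which are injective on the first `r` coordinates. -/
theorem total_bound (hb : 2 ≤ b) (hζ : 1 ≤ ζ) {r : ℕ} {α : ℝ} (hα : 0 < α) (F S : Finset (Fin n))
    (hFS : Disjoint F S) (hF : ∀ i ∈ F, (i : ℕ) < r) (hS : ∀ i ∈ S, (i : ℕ) < r)
    (hSc : 0 < S.card) {D : ℕ} (hD : 0 < D) (hG : 0 < G (1 / b) F.card D) :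
    ((univ.filter (fun ω : (Fin ζ → Fin n → Fin b) × (Fin ζ → Fin n → Bool) =>
      Inj r α ω.1 ω.2)).card : ℝ) ≤
      ((1 / (S.card * G (1 / b) F.card D ^ ζ) + ((1 + 1 / (b * G (1 / b) F.card D)) ^ ζ - 1)) +
        (ζ : ℝ) ^ 2 / (D * α)) *
      Fintype.card ((Fin ζ → Fin n → Fin b) × (Fin ζ → Fin n → Bool)) := by
  set P : ℝ := (Fintype.card (Fin ζ → Fin n → Bool) : ℝ) with hP
  set T : ℝ := (Fintype.card (Fin ζ → Fin n → Fin b) : ℝ) with hT
  have hTe : T = ((b : ℝ) ^ n) ^ ζ := by rw [hT]; simp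
  have hPn : 0 ≤ P := Nat.cast_nonneg _
  have hTn : 0 ≤ T := Nat.cast_nonneg _
  have h1 : ((univ.filter (fun ω : (Fin ζ → Fin n → Fin b) × (Fin ζ → Fin n → Bool) =>
      Inj r α ω.1 ω.2)).card : ℝ) = ∑ s : Fin ζ → Fin n → Fin b,
        ((univ.filter (fun ρ : Fin ζ → Fin n → Bool => Inj r α s ρ)).card : ℝ) := by
    rw [card_filter]
    push_cast
    rw [Fintype.sum_prod_type]
    refine sum_congr rfl fun s _ => ?_
    rw [card_filter]
    push_cast
    rfl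
  have h2 : ∀ s : Fin ζ → Fin n → Fin b,
      ((univ.filter (fun ρ : Fin ζ → Fin n → Bool => Inj r α s ρ)).card : ℝ) ≤
      (if cnt F S D s = 0 then P else 0) + (ζ : ℝ) ^ 2 / (D * α) * P := by
    intro s
    split_ifs with h
    · have q1 : ((univ.filter (fun ρ : Fin ζ → Fin n → Bool => Inj r α s ρ)).card : ℝ) ≤ P := by
        rw [hP]
        exact_mod_cast card_le_univ _
      have q2 : 0 ≤ (ζ : ℝ) ^ 2 / (D * α) * P := by positivity
      linarith
    · rw [zero_add]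
      exact signs_fail hζ hα F S hFS hF hS hD s h
  rw [h1]
  refine (sum_le_sum fun s _ => h2 s).trans ?_
  rw [sum_add_distrib, sum_const, card_univ, nsmul_eq_mul, ← hT, ← sum_filter, sum_const,
    nsmul_eq_mul]
  have h3 := few_bad (ζ := ζ) hb F S hFS D hSc hG
  rw [← hTe] at h3
  rw [Fintype.card_prod]
  push_cast
  rw [← hT, ← hP]
  have h4 := mul_le_mul_of_nonneg_right h3 hPn
  linarith

/-- Lower bound for the tail of the binomial distribution. -/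
theorem G_big {C₂ : ℝ} (hC₂ : 0 < C₂) {L D r M : ℕ} (hζ : 1 ≤ ζ) (hζL : ζ ≤ L) (hr : r ≤ b * ζ)
    (hb2 : 2 ≤ b) (hbC : ((b * ζ : ℕ) : ℝ) ≤ C₂ * r) (hM : (r : ℝ) / 4 ≤ ((M + 1 - D : ℕ) : ℝ))
    (hMr : M ≤ r) :
    (1 / (4 * C₂)) ^ D / (D.factorial : ℝ) * Real.exp (-(2 * L)) ≤ G (1 / b) M D := by
  have hbp : (0 : ℝ) < b := by positivity
  have hb2' : (2 : ℝ) ≤ b := by exact_mod_cast hb2
  have hp0 : (0 : ℝ) ≤ 1 / b := by positivity
  have hp1 : (1 : ℝ) / b ≤ 1 := by rw [div_le_one hbp]; linarith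
  refine le_trans ?_ (G_lower hp0 hp1 M D)
  have hζ1 : (1 : ℝ) ≤ ζ := by exact_mod_cast hζ
  have hbC' : (b : ℝ) ≤ C₂ * r := by
    have : (b : ℝ) * 1 ≤ b * ζ := by gcongr
    push_cast at hbC
    linarith
  have hC2r : 0 < C₂ * r := by linarith
  have hfac : (0 : ℝ) < D.factorial := by exact_mod_cast Nat.factorial_pos D
  have h1 : ((M + 1 - D : ℕ) : ℝ) ^ D ≤ (D.factorial : ℝ) * M.choose D := by
    have := Nat.pow_sub_le_descFactorial M D
    rw [Nat.descFactorial_eq_factorial_mul_choose] at this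
    exact_mod_cast this
  have h2 : ((r : ℝ) / 4) ^ D / (D.factorial : ℝ) ≤ M.choose D := by
    rw [div_le_iff₀ hfac]
    calc ((r : ℝ) / 4) ^ D ≤ ((M + 1 - D : ℕ) : ℝ) ^ D := by gcongr
      _ ≤ _ := by rw [mul_comm]; exact h1
  have h3 : (1 / (C₂ * r)) ^ D ≤ (1 / (b : ℝ)) ^ D := by gcongr
  have h4 : (1 / (4 * C₂)) ^ D / (D.factorial : ℝ) ≤ M.choose D * (1 / (b : ℝ)) ^ D := by
    have hrp : (0 : ℝ) < r := by
      by_contra hcon
      have : (r : ℝ) = 0 := le_antisymm (not_lt.1 hcon) (Nat.cast_nonneg _)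
      rw [this, mul_zero] at hC2r
      exact lt_irrefl _ hC2r
    calc (1 / (4 * C₂)) ^ D / (D.factorial : ℝ)
        = ((r : ℝ) / 4) ^ D / (D.factorial : ℝ) * (1 / (C₂ * r)) ^ D := by
          rw [div_mul_eq_mul_div, ← mul_pow]
          congr 2
          field_simp
      _ ≤ _ := by gcongr
  have h5 : Real.exp (-(2 * L)) ≤ (1 - 1 / (b : ℝ)) ^ M := by
    have hq : 0 < 1 - 1 / (b : ℝ) := by
      have : 1 / (b : ℝ) ≤ 1 / 2 := by gcongr
      linarith
    rw [← Real.exp_log (pow_pos hq M), Real.log_pow]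
    apply Real.exp_le_exp.2
    have h6 := Real.one_sub_inv_le_log_of_pos hq
    have h7 : 1 - (1 - 1 / (b : ℝ))⁻¹ = - (1 / ((b : ℝ) - 1)) := by
      have : (b : ℝ) - 1 ≠ 0 := by linarith
      field_simp
      ring
    rw [h7] at h6
    have h8 : - (2 / (b : ℝ)) ≤ - (1 / ((b : ℝ) - 1)) := by
      apply neg_le_neg
      rw [div_le_div_iff₀ (by linarith) hbp]
      linarith
    have h9 : (M : ℝ) * (2 / (b : ℝ)) ≤ 2 * L := by
      have q1 : (M : ℝ) ≤ b * L := by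
        have : M ≤ b * L := hMr.trans (hr.trans (Nat.mul_le_mul_left b hζL))
        exact_mod_cast this
      calc (M : ℝ) * (2 / (b : ℝ)) ≤ (b * L) * (2 / (b : ℝ)) := by gcongr
        _ = 2 * L := by field_simp
    have h10 : (M : ℝ) * (- (2 / (b : ℝ))) ≤ M * Real.log (1 - 1 / (b : ℝ)) := by
      gcongr
      linarith
    linarith
  calc (1 / (4 * C₂)) ^ D / (D.factorial : ℝ) * Real.exp (-(2 * L))
      ≤ (M.choose D * (1 / (b : ℝ)) ^ D) * (1 - 1 / (b : ℝ)) ^ M := by gcongr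
    _ = _ := by ring

end Pool.Agent.Run7.h558.Ss
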