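import Pool.Agent.Run7.h558.SsC

/-!
# Choice of the parameters
-/

set_option autoImplicit false
open Finset Filter Topology

namespace Pool.Agent.Run7.h558.Ss

/-- The error function. -/
noncomputable def errf (γ : ℝ) (L : ℕ) (r : ℕ) : ℝ :=
  4 / (r * γ ^ L) + ((1 + L / (r * γ)) ^ L - 1)

theorem errf_tendsto {γ : ℝ} (hγ : 0 < γ) (L : ℕ) : Tendsto (errf γ L) atTop (𝓝 0) := by
  have h1 : Tendsto (fun r : ℕ => (r : ℝ) * γ ^ L) atTop atTop :=
    tendsto_natCast_atTop_atTop.atTop_mul_const (pow_pos hγ L)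
  have h2 : Tendsto (fun r : ℕ => (4 : ℝ) / (r * γ ^ L)) atTop (𝓝 0) := h1.const_div_atTop 4
  have h3 : Tendsto (fun r : ℕ => (r : ℝ) * γ) atTop atTop :=
    tendsto_natCast_atTop_atTop.atTop_mul_const hγ
  have h4 : Tendsto (fun r : ℕ => (L : ℝ) / (r * γ)) atTop (𝓝 0) := h3.const_div_atTop _
  have h5 : Tendsto (fun r : ℕ => (1 + (L : ℝ) / (r * γ)) ^ L - 1) atTop (𝓝 ((1 + 0) ^ L - 1)) :=
    ((tendsto_const_nhds.add h4).pow L).sub_const 1
  have h6 := h2.add h5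
  simp only [add_zero, one_pow, sub_self] at h6
  exact h6

open Classical in
/-- The main estimate, in the case where there are at least `r` columns. -/
theorem main_core (C₁ C₂ α δ : ℝ) (hα : 0 < α) (hδ : δ < 1) : ∃ R : ℕ, ∀ r ≥ R, ∀ n ≥ r,
    ∀ ζ b : ℕ, 1 ≤ ζ → 1 ≤ b → (ζ : ℝ) ≤ C₁ → ((b * ζ : ℕ) : ℝ) ≤ C₂ * r → r ≤ b * ζ →
      ((univ.filter (fun ω : (Fin ζ → Fin n → Fin b) × (Fin ζ → Fin n → Bool) =>
        Inj r α ω.1 ω.2)).card : ℝ) <
        (1 - δ) * Fintype.card ((Fin ζ → Fin n → Fin b) × (Fin ζ → Fin n → Bool)) := by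
  by_cases hC₂ : 0 < C₂
  swap
  · refine ⟨0, fun r _ n _ ζ b hζ hb _ hbC _ => ?_⟩
    exfalso
    have h1 : 1 ≤ b * ζ := Nat.mul_pos hb hζ
    have h2 : (1 : ℝ) ≤ ((b * ζ : ℕ) : ℝ) := by exact_mod_cast h1
    have h3 : C₂ * r ≤ 0 := mul_nonpos_of_nonpos_of_nonneg (not_lt.1 hC₂) (Nat.cast_nonneg _)
    linarith
  set L : ℕ := ⌊C₁⌋₊ with hL
  set η : ℝ := (1 - δ) / 4 with hη
  have hηp : 0 < η := by rw [hη]; linarith
  set D : ℕ := ⌈(L : ℝ) ^ 2 / (α * η)⌉₊ + 1 with hD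
  have hDp : 0 < D := by rw [hD]; omega
  have hDη : (L : ℝ) ^ 2 ≤ D * α * η := by
    have h1 : (L : ℝ) ^ 2 / (α * η) ≤ D := by
      rw [hD]; push_cast
      have := Nat.le_ceil ((L : ℝ) ^ 2 / (α * η))
      linarith
    rw [div_le_iff₀ (by positivity)] at h1
    linarith
  set γ : ℝ := (1 / (4 * C₂)) ^ D / (D.factorial : ℝ) * Real.exp (-(2 * L)) with hγ
  have hfac : (0 : ℝ) < D.factorial := by exact_mod_cast Nat.factorial_pos D
  have hγp : 0 < γ := by rw [hγ]; positivity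
  have hev : ∀ᶠ r in atTop, errf γ L r < η := (errf_tendsto hγp L).eventually_lt_const hηp
  obtain ⟨R0, hR0⟩ := eventually_atTop.1 hev
  refine ⟨R0 + 4 * D + L + 2, fun r hr n hn ζ b hζ hb hζC hbC hrb => ?_⟩
  have hζL : ζ ≤ L := Nat.le_floor hζC
  have hLp : 1 ≤ L := hζ.trans hζL
  have hb2 : 2 ≤ b := by
    by_contra hcon
    have hb1 : b = 1 := by omega
    rw [hb1, one_mul] at hrb
    omega
  set K : ℕ := r / 2 with hK
  set M : ℕ := r - K with hM
  have hKr : K ≤ r := Nat.div_le_self _ _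
  have hMr : M ≤ r := Nat.sub_le _ _
  set F : Finset (Fin n) := (range M).attachFin (fun m hm => by rw [mem_range] at hm; omega)
    with hF
  set S : Finset (Fin n) := (Ico M r).attachFin (fun m hm => by rw [mem_Ico] at hm; omega)
    with hS
  have hFc : F.card = M := by rw [hF, card_attachFin, card_range]
  have hSc : S.card = K := by rw [hS, card_attachFin, Nat.card_Ico]; omega
  have hFS : Disjoint F S := by
    rw [disjoint_left]
    intro i hi hi'
    rw [hF, mem_attachFin, mem_range] at hi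
    rw [hS, mem_attachFin, mem_Ico] at hi'
    omega
  have hFr : ∀ i ∈ F, (i : ℕ) < r := by
    intro i hi
    rw [hF, mem_attachFin, mem_range] at hi
    omega
  have hSr : ∀ i ∈ S, (i : ℕ) < r := by
    intro i hi
    rw [hS, mem_attachFin, mem_Ico] at hi
    omega
  have hM4 : (r : ℝ) / 4 ≤ ((M + 1 - D : ℕ) : ℝ) := by
    have h1 : r ≤ 4 * (M + 1 - D) := by omega
    have h2 : (r : ℝ) ≤ 4 * ((M + 1 - D : ℕ) : ℝ) := by exact_mod_cast h1
    linarith
  have hK4 : (r : ℝ) / 4 ≤ (K : ℝ) := by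
    have h1 : r ≤ 4 * K := by omega
    have h2 : (r : ℝ) ≤ 4 * (K : ℝ) := by exact_mod_cast h1
    linarith
  have hbp : (0 : ℝ) < b := by positivity
  have hp0 : (0 : ℝ) ≤ 1 / b := by positivity
  have hp1 : (1 : ℝ) / b ≤ 1 := by
    rw [div_le_one hbp]; exact_mod_cast (by omega : 1 ≤ b)
  have hGbig := G_big (ζ := ζ) (b := b) hC₂ (L := L) (D := D) (r := r) (M := M) hζ hζL hrb hb2 hbC
    hM4 hMr
  rw [← hγ] at hGbig
  have hG1 := G_le_one hp0 hp1 M D
  have hGp : 0 < G (1 / (b : ℝ)) M D := lt_of_lt_of_le hγp hGbig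
  have hγ1 : γ ≤ 1 := hGbig.trans hG1
  have hKp : 0 < K := by omega
  have htot := total_bound (ζ := ζ) (b := b) hb2 hζ hα F S hFS hFr hSr (by rw [hSc]; exact hKp)
    hDp (by rw [hFc]; exact hGp)
  rw [hFc, hSc] at htot
  refine lt_of_le_of_lt htot ?_
  have hcardpos : (0 : ℝ) < Fintype.card ((Fin ζ → Fin n → Fin b) × (Fin ζ → Fin n → Bool)) := by
    have : Nonempty (Fin b) := ⟨⟨0, by omega⟩⟩
    exact_mod_cast Fintype.card_pos
  apply mul_lt_mul_of_pos_right _ hcardpos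
  set g := G (1 / (b : ℝ)) M D with hg
  have hrp : (0 : ℝ) < r := by
    have : 0 < r := by omega
    exact_mod_cast this
  have e1 : 1 / ((K : ℝ) * g ^ ζ) ≤ 4 / (r * γ ^ L) := by
    have q1 : γ ^ L ≤ g ^ ζ := by
      calc γ ^ L ≤ γ ^ ζ := pow_le_pow_of_le_one hγp.le hγ1 hζL
        _ ≤ g ^ ζ := by gcongr
    have q2 : (r : ℝ) * γ ^ L ≤ 4 * (K * g ^ ζ) := by
      calc (r : ℝ) * γ ^ L ≤ (4 * K) * g ^ ζ := by
            gcongr
            linarith
        _ = _ := by ring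
    rw [div_le_div_iff₀ (by positivity) (by positivity)]
    linarith
  have e2 : (1 + 1 / ((b : ℝ) * g)) ^ ζ ≤ (1 + L / (r * γ)) ^ L := by
    have q1 : 1 / ((b : ℝ) * g) ≤ L / (r * γ) := by
      rw [div_le_div_iff₀ (by positivity) (by positivity)]
      have q2 : (r : ℝ) ≤ L * b := by
        have : r ≤ L * b := by
          calc r ≤ b * ζ := hrb
            _ ≤ b * L := Nat.mul_le_mul_left b hζL
            _ = L * b := Nat.mul_comm _ _
        exact_mod_cast this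
      calc 1 * ((r : ℝ) * γ) = r * γ := by ring
        _ ≤ (L * b) * g := by gcongr
        _ = _ := by ring
    calc (1 + 1 / ((b : ℝ) * g)) ^ ζ ≤ (1 + 1 / ((b : ℝ) * g)) ^ L := by
          apply pow_le_pow_right₀ _ hζL
          have : 0 < 1 / ((b : ℝ) * g) := by positivity
          linarith
      _ ≤ _ := by gcongr
  have e3 : (ζ : ℝ) ^ 2 / (D * α) ≤ η := by
    rw [div_le_iff₀ (by positivity)]
    have : (ζ : ℝ) ^ 2 ≤ (L : ℝ) ^ 2 := by gcongr
    linarith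
  have e4 := hR0 r (by omega)
  unfold errf at e4
  have e5 : 1 - δ = 4 * η := by rw [hη]; ring
  rw [e5]
  linarith

end Pool.Agent.Run7.h558.Ss
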