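import Mathlib

/-!
# The doubling chain on `ZMod (2 ^ n)` with refreshments

Matrix facts used for MP_d1aba8_pr: powers of the doubling chain, exponential of the generator,
lower bound for the distance to the uniform distribution, eigenvalues.
-/

set_option autoImplicit false
open Finset Filter Topology

namespace Pool.Agent.Run7.h558.Typ

variable (n : ℕ)

instance instNZ : NeZero (2 ^ n) := ⟨by positivity⟩

/-- `k` steps of the doubling chain. -/
noncomputable def Pk (k : ℕ) : Matrix (ZMod (2 ^ n)) (ZMod (2 ^ n)) ℝ :=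
  fun x y => ∑ c ∈ range (2 ^ k), if y = (2 : ZMod (2 ^ n)) ^ k * x + (c : ZMod (2 ^ n)) then
    ((1 : ℝ) / 2 ^ k) else 0

/-- The uniform projection. -/
noncomputable def Un : Matrix (ZMod (2 ^ n)) (ZMod (2 ^ n)) ℝ := fun _ _ => 1 / 2 ^ n

lemma Pk_zero : Pk n 0 = 1 := by
  ext x y
  simp only [Pk, pow_zero, range_one, sum_singleton, one_mul, Nat.cast_zero, add_zero, div_one,
    Matrix.one_apply]
  by_cases h : x = y
  · simp [h]
  · simp [h, Ne.symm h]

lemma Pk_succ (k : ℕ) : Pk n (k + 1) = Pk n 1 * Pk n k := by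
  ext x y
  rw [Matrix.mul_apply]
  have h1 : ∀ z, Pk n 1 x z = (if z = 2 * x then (1 : ℝ) / 2 else 0) +
      (if z = 2 * x + 1 then (1 : ℝ) / 2 else 0) := by
    intro z
    simp only [Pk, pow_one, sum_range_succ, range_zero, sum_empty, Nat.cast_zero, add_zero,
      Nat.cast_one, zero_add, show (2 : ℕ) = 1 + 1 from rfl]
  simp only [h1, add_mul, sum_add_distrib, ite_mul, zero_mul, sum_ite_eq', mem_univ, if_true]
  unfold Pk
  rw [pow_succ (2 : ℕ) k, mul_two, sum_range_add, mul_sum, mul_sum]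
  congr 1
  · refine sum_congr rfl fun c _ => ?_
    have e : (2 : ZMod (2 ^ n)) ^ (k + 1) * x + (c : ZMod (2 ^ n)) =
        2 ^ k * (2 * x) + (c : ZMod (2 ^ n)) := by ring
    rw [e]
    split_ifs
    · rw [pow_succ]; field_simp
    · simp
  · refine sum_congr rfl fun c _ => ?_
    have e : (2 : ZMod (2 ^ n)) ^ (k + 1) * x + ((2 ^ k + c : ℕ) : ZMod (2 ^ n)) =
        2 ^ k * (2 * x + 1) + (c : ZMod (2 ^ n)) := by push_cast; ring
    rw [e]
    split_ifs
    · rw [pow_succ]; field_simp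
    · simp

lemma Pk_eq (k : ℕ) : Pk n k = Pk n 1 ^ k := by
  induction k with
  | zero => rw [Pk_zero, pow_zero]
  | succ k ih => rw [Pk_succ, ih, pow_succ']

lemma Pk_nonneg (k : ℕ) (x y : ZMod (2 ^ n)) : 0 ≤ Pk n k x y := by
  unfold Pk
  refine sum_nonneg fun c _ => ?_
  split_ifs
  · positivity
  · exact le_rfl

lemma Pk_row (k : ℕ) (x : ZMod (2 ^ n)) : ∑ y, Pk n k x y = 1 := by
  unfold Pk
  rw [sum_comm]
  simp only [sum_ite_eq', mem_univ, if_true, sum_const, card_range, nsmul_eq_mul]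
  push_cast
  field_simp

lemma Pk_top : Pk n n = Un n := by
  ext x y
  unfold Pk Un
  have h0 : (2 : ZMod (2 ^ n)) ^ n = 0 := by
    have := ZMod.natCast_self (2 ^ n)
    push_cast at this
    exact this
  simp only [h0, zero_mul, zero_add]
  rw [sum_eq_single (ZMod.val y)]
  · rw [if_pos (by rw [ZMod.natCast_zmod_val])]
  · intro c hc hne
    rw [if_neg]
    intro h
    apply hne
    rw [h, ZMod.val_natCast, Nat.mod_eq_of_lt (mem_range.1 hc)]
  · intro h
    exact absurd (mem_range.2 (ZMod.val_lt y)) h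

lemma P_mul_Un (k : ℕ) : Pk n k * Un n = Un n := by
  ext x y
  rw [Matrix.mul_apply]
  simp only [Un]
  rw [← sum_mul, Pk_row, one_mul]

lemma Un_mul_P : Un n * Pk n 1 = Un n := by
  have h : Un n = Pk n 1 ^ n := by rw [← Pk_eq, Pk_top]
  rw [h, ← pow_succ, pow_succ', ← h, P_mul_Un]

lemma Un_mul_Un : Un n * Un n = Un n := by
  ext x y
  rw [Matrix.mul_apply]
  simp only [Un, sum_const, card_univ, ZMod.card, nsmul_eq_mul]
  push_cast
  field_simp

/-- The generator with refreshment rate `r`. -/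
noncomputable def Gen (r : ℝ) : Matrix (ZMod (2 ^ n)) (ZMod (2 ^ n)) ℝ :=
  Pk n 1 + r • Un n - (1 + r) • 1

section
variable {S : Type} [Fintype S] [DecidableEq S]

lemma hasSum_exp_entry (A : Matrix S S ℝ) (x y : S) :
    HasSum (fun k : ℕ => ((k.factorial : ℝ)⁻¹ • A ^ k) x y) (NormedSpace.exp A x y) := by
  let _ : NormedRing (Matrix S S ℝ) := Matrix.linftyOpNormedRing
  let _ : NormedAlgebra ℝ (Matrix S S ℝ) := Matrix.linftyOpNormedAlgebra
  have h := NormedSpace.exp_series_hasSum_exp' (𝕂 := ℝ) A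
  have h2 := Pi.hasSum.1 h x
  exact Pi.hasSum.1 h2 y

lemma exp_smul_one (c : ℝ) :
    NormedSpace.exp (c • (1 : Matrix S S ℝ)) = Real.exp c • (1 : Matrix S S ℝ) := by
  let _ : NormedRing (Matrix S S ℝ) := Matrix.linftyOpNormedRing
  let _ : NormedAlgebra ℝ (Matrix S S ℝ) := Matrix.linftyOpNormedAlgebra
  have h := NormedSpace.algebraMap_exp_comm (𝕂 := ℝ) (𝔸 := Matrix S S ℝ) c
  rw [Algebra.algebraMap_eq_smul_one, Algebra.algebraMap_eq_smul_one] at h
  rw [Real.exp_eq_exp_ℝ]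
  exact h.symm

lemma exp_idem (U : Matrix S S ℝ) (hU : U * U = U) (s : ℝ) :
    NormedSpace.exp (s • U) = 1 + (Real.exp s - 1) • U := by
  have hp : ∀ k : ℕ, U ^ (k + 1) = U := by
    intro k
    induction k with
    | zero => simp
    | succ k ih => rw [pow_succ, ih, hU]
  ext x y
  have h1 := hasSum_exp_entry (s • U) x y
  have h2 : HasSum (fun k : ℕ => s ^ k / k.factorial * U x y) (Real.exp s * U x y) := by
    refine HasSum.mul_right _ ?_
    rw [Real.exp_eq_exp_ℝ]
    exact NormedSpace.expSeries_div_hasSum_exp s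
  have h3 : HasSum (fun k : ℕ => if k = 0 then (1 - U) x y else 0) ((1 - U) x y) :=
    hasSum_ite_eq 0 _
  have h4 := h2.add h3
  have h5 : (fun k : ℕ => ((k.factorial : ℝ)⁻¹ • (s • U) ^ k) x y) =
      fun k : ℕ => s ^ k / k.factorial * U x y + if k = 0 then (1 - U) x y else 0 := by
    funext k
    rcases k with _ | k
    · simp
    · rw [smul_pow, hp]
      simp only [Matrix.smul_apply, smul_eq_mul, Nat.succ_ne_zero, if_false, add_zero]
      field_simp
  rw [h5] at h1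
  rw [h1.unique h4]
  simp only [Matrix.add_apply, Matrix.sub_apply, Matrix.smul_apply, smul_eq_mul]
  ring

end

lemma expP_hasSum (t : ℝ) (x y : ZMod (2 ^ n)) :
    HasSum (fun k : ℕ => t ^ k / k.factorial * Pk n k x y)
      (NormedSpace.exp (t • Pk n 1) x y) := by
  have h := hasSum_exp_entry (t • Pk n 1) x y
  have e : (fun k : ℕ => ((k.factorial : ℝ)⁻¹ • (t • Pk n 1) ^ k) x y) =
      fun k : ℕ => t ^ k / k.factorial * Pk n k x y := by
    funext k
    rw [smul_pow, ← Pk_eq]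
    simp only [Matrix.smul_apply, smul_eq_mul]
    field_simp
  rwa [e] at h

lemma expP_nonneg (t : ℝ) (ht : 0 ≤ t) (x y : ZMod (2 ^ n)) :
    0 ≤ NormedSpace.exp (t • Pk n 1) x y :=
  (expP_hasSum n t x y).nonneg fun k => mul_nonneg (by positivity) (Pk_nonneg n k x y)

lemma expP_row (t : ℝ) (x : ZMod (2 ^ n)) :
    ∑ y, NormedSpace.exp (t • Pk n 1) x y = Real.exp t := by
  have h := hasSum_sum (s := (univ : Finset (ZMod (2 ^ n))))
    (f := fun y (k : ℕ) => t ^ k / k.factorial * Pk n k x y)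
    (fun y _ => expP_hasSum n t x y)
  have e : (fun k : ℕ => ∑ y, t ^ k / k.factorial * Pk n k x y) =
      fun k : ℕ => t ^ k / k.factorial := by
    funext k
    rw [← mul_sum, Pk_row, mul_one]
  rw [e] at h
  have h2 : HasSum (fun k : ℕ => t ^ k / k.factorial) (Real.exp t) := by
    rw [Real.exp_eq_exp_ℝ]
    exact NormedSpace.expSeries_div_hasSum_exp t
  exact h.unique h2

/-- The points reachable in fewer than `K` steps. -/
noncomputable def Reach (K : ℕ) (x : ZMod (2 ^ n)) : Finset (ZMod (2 ^ n)) :=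
  (range K).biUnion fun k => (range (2 ^ k)).image fun c : ℕ =>
    (2 : ZMod (2 ^ n)) ^ k * x + (c : ZMod (2 ^ n))

lemma card_Reach (K : ℕ) (x : ZMod (2 ^ n)) : ((Reach n K x).card : ℝ) ≤ 2 ^ K := by
  have h1 : (Reach n K x).card ≤ ∑ k ∈ range K, 2 ^ k := by
    refine card_biUnion_le.trans (sum_le_sum fun k _ => ?_)
    exact card_image_le.trans (by simp)
  have h2 : ∑ k ∈ range K, 2 ^ k ≤ 2 ^ K := by
    have := Nat.geomSum_lt (m := 2) (n := K) (s := range K) le_rfl (fun k hk => mem_range.1 hk)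
    exact this.le
  exact_mod_cast h1.trans h2

lemma Pk_eq_zero (K k : ℕ) (hk : k < K) (x y : ZMod (2 ^ n)) (hy : y ∉ Reach n K x) :
    Pk n k x y = 0 := by
  unfold Pk
  refine sum_eq_zero fun c hc => ?_
  rw [if_neg]
  intro h
  apply hy
  unfold Reach
  rw [mem_biUnion]
  exact ⟨k, mem_range.2 hk, mem_image.2 ⟨c, hc, h.symm⟩⟩

lemma expP_tail (K : ℕ) (t : ℝ) (ht : 0 ≤ t) (x : ZMod (2 ^ n)) :
    ∑ y ∈ (Reach n K x)ᶜ, NormedSpace.exp (t • Pk n 1) x y ≤ Real.exp (2 * t) / 2 ^ K := by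
  have h1 : ∀ y ∈ (Reach n K x)ᶜ, NormedSpace.exp (t • Pk n 1) x y ≤
      (1 / 2 ^ K) * NormedSpace.exp ((2 * t) • Pk n 1) x y := by
    intro y hy
    have hy' := mem_compl.1 hy
    refine hasSum_le (fun k => ?_) (expP_hasSum n t x y)
      ((expP_hasSum n (2 * t) x y).mul_left (1 / 2 ^ K))
    by_cases hk : k < K
    · rw [Pk_eq_zero n K k hk x y hy']
      simp
    · have hk' : K ≤ k := not_lt.1 hk
      have hp := Pk_nonneg n k x y
      have h2 : (1 : ℝ) ≤ 2 ^ k / 2 ^ K := by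
        rw [le_div_iff₀ (by positivity), one_mul]
        exact pow_le_pow_right₀ (by norm_num) hk'
      have h3 : 0 ≤ t ^ k / k.factorial * Pk n k x y := mul_nonneg (by positivity) hp
      calc t ^ k / k.factorial * Pk n k x y
          ≤ (2 ^ k / 2 ^ K) * (t ^ k / k.factorial * Pk n k x y) := le_mul_of_one_le_left h3 h2
        _ = 1 / 2 ^ K * ((2 * t) ^ k / k.factorial * Pk n k x y) := by rw [mul_pow]; ring
  calc ∑ y ∈ (Reach n K x)ᶜ, NormedSpace.exp (t • Pk n 1) x y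
      ≤ ∑ y ∈ (Reach n K x)ᶜ, (1 / 2 ^ K) * NormedSpace.exp ((2 * t) • Pk n 1) x y :=
        sum_le_sum h1
    _ ≤ ∑ y, (1 / 2 ^ K) * NormedSpace.exp ((2 * t) • Pk n 1) x y :=
        sum_le_sum_of_subset_of_nonneg (subset_univ _) fun y _ _ =>
          mul_nonneg (by positivity) (expP_nonneg n _ (by positivity) x y)
    _ = Real.exp (2 * t) / 2 ^ K := by rw [← mul_sum, expP_row]; ring

/-- The law of the refreshed chain. -/
lemma exp_Gen (r t : ℝ) (x y : ZMod (2 ^ n)) :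
    NormedSpace.exp (t • Gen n r) x y = Real.exp (-(r * t)) *
      (Real.exp (-t) * NormedSpace.exp (t • Pk n 1) x y - 1 / 2 ^ n) + 1 / 2 ^ n := by
  have e : t • Gen n r = (t • Pk n 1 + (t * r) • Un n) + (-(t * (1 + r))) • 1 := by
    unfold Gen
    module
  have c1 : Commute (t • Pk n 1) ((t * r) • Un n) := by
    refine Commute.smul_left (Commute.smul_right ?_ _) _
    change Pk n 1 * Un n = Un n * Pk n 1
    rw [P_mul_Un, Un_mul_P]
  have c2 : Commute (t • Pk n 1 + (t * r) • Un n)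
      ((-(t * (1 + r))) • (1 : Matrix (ZMod (2 ^ n)) (ZMod (2 ^ n)) ℝ)) :=
    (Commute.one_right _).smul_right _
  rw [e, Matrix.exp_add_of_commute _ _ c2, Matrix.exp_add_of_commute _ _ c1,
    exp_idem _ (Un_mul_Un n), exp_smul_one, mul_add, mul_one, mul_smul_comm, mul_smul_comm,
    mul_one, Matrix.smul_apply, Matrix.add_apply, Matrix.smul_apply, Matrix.mul_apply]
  simp only [Un]
  rw [← sum_mul, expP_row]
  simp only [smul_eq_mul]
  have e1 : Real.exp (-(t * (1 + r))) = Real.exp (-(r * t)) * Real.exp (-t) := by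
    rw [← Real.exp_add]; ring_nf
  have e2 : Real.exp (-t) * Real.exp t = 1 := by rw [← Real.exp_add]; simp
  have e3 : Real.exp (-(r * t)) * Real.exp (t * r) = 1 := by
    rw [← Real.exp_add]; ring_nf; simp
  rw [e1]
  linear_combination (Real.exp (-(r * t)) * Real.exp (t * r) * (1 / 2 ^ n) -
    Real.exp (-(r * t)) * (1 / 2 ^ n)) * e2 + (1 / 2 ^ n) * e3

/-- Deviation on a set: upper bound. -/
lemma dev_le (r t : ℝ) (ht : 0 ≤ t) (x : ZMod (2 ^ n)) (A : Finset (ZMod (2 ^ n))) :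
    |∑ a ∈ A, NormedSpace.exp (t • Gen n r) x a - ∑ _a ∈ A, (1 : ℝ) / 2 ^ n| ≤
      Real.exp (-(r * t)) := by
  have e : ∑ a ∈ A, NormedSpace.exp (t • Gen n r) x a - ∑ _a ∈ A, (1 : ℝ) / 2 ^ n =
      Real.exp (-(r * t)) * (Real.exp (-t) * ∑ a ∈ A, NormedSpace.exp (t • Pk n 1) x a -
        ∑ _a ∈ A, (1 : ℝ) / 2 ^ n) := by
    rw [← sum_sub_distrib, mul_sum, ← sum_sub_distrib, mul_sum]
    refine sum_congr rfl fun a _ => ?_
    rw [exp_Gen]
    ring
  rw [e, abs_mul, abs_of_pos (Real.exp_pos _)]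
  refine mul_le_of_le_one_right (Real.exp_pos _).le ?_
  have h1 : 0 ≤ ∑ a ∈ A, NormedSpace.exp (t • Pk n 1) x a :=
    sum_nonneg fun a _ => expP_nonneg n t ht x a
  have h2 : ∑ a ∈ A, NormedSpace.exp (t • Pk n 1) x a ≤ Real.exp t := by
    rw [← expP_row n t x]
    exact sum_le_sum_of_subset_of_nonneg (subset_univ _) fun y _ _ => expP_nonneg n t ht x y
  have h3 : Real.exp (-t) * Real.exp t = 1 := by rw [← Real.exp_add]; simp
  have h4 : Real.exp (-t) * ∑ a ∈ A, NormedSpace.exp (t • Pk n 1) x a ≤ 1 := by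
    rw [← h3]
    exact mul_le_mul_of_nonneg_left h2 (Real.exp_pos _).le
  have h5 : 0 ≤ Real.exp (-t) * ∑ a ∈ A, NormedSpace.exp (t • Pk n 1) x a :=
    mul_nonneg (Real.exp_pos _).le h1
  have h6 : (0 : ℝ) ≤ ∑ _a ∈ A, (1 : ℝ) / 2 ^ n := sum_nonneg fun _ _ => by positivity
  have h7 : ∑ _a ∈ A, (1 : ℝ) / 2 ^ n ≤ 1 := by
    have : ∑ _a ∈ A, (1 : ℝ) / 2 ^ n ≤ ∑ _a : ZMod (2 ^ n), (1 : ℝ) / 2 ^ n :=
      sum_le_sum_of_subset_of_nonneg (subset_univ _) fun _ _ _ => by positivity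
    refine this.trans (le_of_eq ?_)
    simp only [sum_const, card_univ, ZMod.card, nsmul_eq_mul]
    push_cast
    field_simp
  rw [abs_le]
  constructor <;> linarith

/-- Deviation on the reachable set: lower bound. -/
lemma dev_ge (r t : ℝ) (ht : 0 ≤ t) (x : ZMod (2 ^ n)) (K : ℕ) :
    Real.exp (-(r * t)) * (1 - Real.exp t / 2 ^ K - 2 ^ K / 2 ^ n) ≤
    |∑ a ∈ Reach n K x, NormedSpace.exp (t • Gen n r) x a -
      ∑ _a ∈ Reach n K x, (1 : ℝ) / 2 ^ n| := by
  have e : ∑ a ∈ Reach n K x, NormedSpace.exp (t • Gen n r) x a -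
      ∑ _a ∈ Reach n K x, (1 : ℝ) / 2 ^ n =
      Real.exp (-(r * t)) * (Real.exp (-t) * ∑ a ∈ Reach n K x,
        NormedSpace.exp (t • Pk n 1) x a - ∑ _a ∈ Reach n K x, (1 : ℝ) / 2 ^ n) := by
    rw [← sum_sub_distrib, mul_sum, ← sum_sub_distrib, mul_sum]
    refine sum_congr rfl fun a _ => ?_
    rw [exp_Gen]
    ring
  rw [e]
  refine le_trans ?_ (le_abs_self _)
  refine mul_le_mul_of_nonneg_left ?_ (Real.exp_pos _).le
  have h1 := expP_tail n K t ht x
  have h2 := sum_add_sum_compl (Reach n K x) fun y => NormedSpace.exp (t • Pk n 1) x y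
  rw [expP_row] at h2
  have h3 : Real.exp (-t) * Real.exp t = 1 := by rw [← Real.exp_add]; simp
  have h4 : Real.exp (-t) * (Real.exp (2 * t) / 2 ^ K) = Real.exp t / 2 ^ K := by
    rw [← mul_div_assoc, ← Real.exp_add]; ring_nf
  have h5 : ∑ _a ∈ Reach n K x, (1 : ℝ) / 2 ^ n ≤ 2 ^ K / 2 ^ n := by
    rw [sum_const, nsmul_eq_mul, mul_one_div]
    exact div_le_div_of_nonneg_right (card_Reach n K x) (by positivity)
  have h6 := mul_le_mul_of_nonneg_left h1 (Real.exp_pos (-t)).le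
  have h7 : ∑ a ∈ Reach n K x, NormedSpace.exp (t • Pk n 1) x a = Real.exp t -
      ∑ y ∈ (Reach n K x)ᶜ, NormedSpace.exp (t • Pk n 1) x y := by linarith
  rw [h7, mul_sub, h3]
  linarith

/-- Row sums of the generator. -/
lemma Gen_row (r : ℝ) (x : ZMod (2 ^ n)) : ∑ y, Gen n r x y = 0 := by
  have h1 : ∑ y, Un n x y = 1 := by
    simp only [Un, sum_const, card_univ, ZMod.card, nsmul_eq_mul]
    push_cast
    field_simp
  have h2 : ∑ y, (1 : Matrix (ZMod (2 ^ n)) (ZMod (2 ^ n)) ℝ) x y = 1 := by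
    simp [Matrix.one_apply]
  simp only [Gen, Matrix.sub_apply, Matrix.add_apply, Matrix.smul_apply, smul_eq_mul,
    sum_sub_distrib, sum_add_distrib, ← mul_sum, Pk_row, h1, h2]
  ring

lemma Un_mul_Gen (r : ℝ) : Un n * Gen n r = 0 := by
  unfold Gen
  rw [mul_sub, mul_add, Un_mul_P, mul_smul_comm, Un_mul_Un, mul_smul_comm, mul_one]
  module

/-- The uniform distribution is stationary. -/
lemma Gen_stat (r : ℝ) (y : ZMod (2 ^ n)) : ∑ x, (1 : ℝ) / 2 ^ n * Gen n r x y = 0 := by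
  have h := congrFun (congrFun (Un_mul_Gen n r) 0) y
  rw [Matrix.mul_apply] at h
  simpa [Un] using h

lemma Gen_off (r : ℝ) (hr : 0 < r) (x y : ZMod (2 ^ n)) (h : x ≠ y) : 0 < Gen n r x y := by
  simp only [Gen, Matrix.sub_apply, Matrix.add_apply, Matrix.smul_apply, smul_eq_mul,
    Matrix.one_apply_ne h, mul_zero, sub_zero, Un]
  have := Pk_nonneg n 1 x y
  positivity

open Matrix in
/-- Every nonzero eigenvalue of minus the generator is `1 + r`. -/
lemma eig_eq (r : ℝ) (z : ℂ) (hz : z ≠ 0) (f : ZMod (2 ^ n) → ℂ) (hf : f ≠ 0)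
    (h : ((Gen n r).map (fun a : ℝ => (a : ℂ))) *ᵥ f = (-z) • f) : z = 1 + r := by
  have mm : ∀ A B : Matrix (ZMod (2 ^ n)) (ZMod (2 ^ n)) ℝ,
      (A * B).map (fun a : ℝ => (a : ℂ)) = A.map (fun a : ℝ => (a : ℂ)) *
        B.map (fun a : ℝ => (a : ℂ)) := by
    intro A B
    exact Matrix.map_mul (f := Complex.ofRealHom)
  have h1 : (Un n).map (fun a : ℝ => (a : ℂ)) *ᵥ f = 0 := by
    have h2 : (Un n).map (fun a : ℝ => (a : ℂ)) *ᵥ
        (((Gen n r).map (fun a : ℝ => (a : ℂ))) *ᵥ f) = 0 := by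
      rw [Matrix.mulVec_mulVec, ← mm, Un_mul_Gen]
      ext i
      simp [Matrix.mulVec, dotProduct]
    rw [h, Matrix.mulVec_smul] at h2
    exact (smul_eq_zero.1 h2).resolve_left (neg_ne_zero.2 hz)
  have h3 : (Pk n 1).map (fun a : ℝ => (a : ℂ)) *ᵥ f = (1 + r - z) • f := by
    have e : (Gen n r).map (fun a : ℝ => (a : ℂ)) = (Pk n 1).map (fun a : ℝ => (a : ℂ)) +
        (r : ℂ) • (Un n).map (fun a : ℝ => (a : ℂ)) - (1 + r : ℂ) • 1 := by
      ext i j
      by_cases hij : i = j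
      · subst hij
        simp [Gen]
      · simp [Gen, Matrix.one_apply_ne hij]
    rw [e, Matrix.sub_mulVec, Matrix.add_mulVec, Matrix.smul_mulVec, h1, smul_zero, add_zero,
      Matrix.smul_mulVec, Matrix.one_mulVec] at h
    have := eq_add_of_sub_eq h
    rw [this]
    module
  have h4 : ∀ k : ℕ, (Pk n k).map (fun a : ℝ => (a : ℂ)) *ᵥ f = (1 + r - z) ^ k • f := by
    intro k
    induction k with
    | zero =>
      rw [Pk_zero, pow_zero, one_smul]
      have : (1 : Matrix (ZMod (2 ^ n)) (ZMod (2 ^ n)) ℝ).map (fun a : ℝ => (a : ℂ)) = 1 := by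
        ext i j
        by_cases hij : i = j
        · subst hij; simp
        · simp [Matrix.one_apply_ne hij]
      rw [this, Matrix.one_mulVec]
    | succ k ih =>
      rw [Pk_succ, mm, ← Matrix.mulVec_mulVec, ih, Matrix.mulVec_smul, h3, smul_smul, pow_succ]
  have h5 := h4 n
  rw [Pk_top, h1] at h5
  have h6 : (1 + r - z) ^ n = 0 := (smul_eq_zero.1 h5.symm).resolve_right hf
  have h8 : (1 + r - z : ℂ) = 0 := by
    by_contra hne
    exact pow_ne_zero n hne h6
  linear_combination -h8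

open Matrix in
/-- The value `1 + r` is attained. -/
lemma eig_exists (hn : 1 ≤ n) (r : ℝ) : ∃ f : ZMod (2 ^ n) → ℂ, f ≠ 0 ∧
    ((Gen n r).map (fun a : ℝ => (a : ℂ))) *ᵥ f = (-(1 + r : ℂ)) • f := by
  have hd : 2 ∣ 2 ^ n := dvd_pow_self 2 (by omega)
  let φ := ZMod.castHom hd (ZMod 2)
  let f : ZMod (2 ^ n) → ℂ := fun x => if φ x = 0 then 1 else -1
  have hP : (Pk n 1).map (fun a : ℝ => (a : ℂ)) *ᵥ f = 0 := by
    ext x
    have h1 : ∀ z, Pk n 1 x z = (if z = 2 * x then (1 : ℝ) / 2 else 0) +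
        (if z = 2 * x + 1 then (1 : ℝ) / 2 else 0) := by
      intro z
      simp only [Pk, pow_one, sum_range_succ, range_zero, sum_empty, Nat.cast_zero, add_zero,
        Nat.cast_one, zero_add, show (2 : ℕ) = 1 + 1 from rfl]
    have h20 : (2 : ZMod 2) = 0 := by decide
    have f0 : f (2 * x) = 1 := by
      simp only [f]
      rw [if_pos]
      rw [map_mul, map_ofNat, h20, zero_mul]
    have f1 : f (2 * x + 1) = -1 := by
      simp only [f]
      rw [if_neg]
      rw [map_add, map_mul, map_ofNat, h20, zero_mul, map_one]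
      decide
    have h2 : ∀ z, ((Pk n 1 x z : ℝ) : ℂ) * f z = (if z = 2 * x then (1 : ℂ) / 2 * f z else 0) +
        (if z = 2 * x + 1 then (1 : ℂ) / 2 * f z else 0) := by
      intro z
      rw [h1]
      split_ifs <;> push_cast <;> ring
    simp only [Matrix.mulVec, dotProduct, Matrix.map_apply, Pi.zero_apply]
    rw [sum_congr rfl fun z _ => h2 z, sum_add_distrib, sum_ite_eq', sum_ite_eq']
    simp only [mem_univ, if_true]
    rw [f0, f1]
    ring
  have hU : (Un n).map (fun a : ℝ => (a : ℂ)) *ᵥ f = 0 := by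
    have h : (Un n).map (fun a : ℝ => (a : ℂ)) = (Un n).map (fun a : ℝ => (a : ℂ)) *
        (Pk n 1).map (fun a : ℝ => (a : ℂ)) := by
      conv_lhs => rw [← Un_mul_P]
      exact Matrix.map_mul (f := Complex.ofRealHom)
    rw [h, ← Matrix.mulVec_mulVec, hP, Matrix.mulVec_zero]
  refine ⟨f, ?_, ?_⟩
  · intro h0
    have := congrFun h0 0
    simp [f] at this
  · have e : (Gen n r).map (fun a : ℝ => (a : ℂ)) = (Pk n 1).map (fun a : ℝ => (a : ℂ)) +
        (r : ℂ) • (Un n).map (fun a : ℝ => (a : ℂ)) - (1 + r : ℂ) • 1 := by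
      ext i j
      by_cases hij : i = j
      · subst hij
        simp [Gen]
      · simp [Gen, Matrix.one_apply_ne hij]
    rw [e, Matrix.sub_mulVec, Matrix.add_mulVec, Matrix.smul_mulVec, hU, hP, smul_zero, add_zero,
      Matrix.smul_mulVec, Matrix.one_mulVec, zero_sub, neg_smul]

end Pool.Agent.Run7.h558.Typ
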